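import Pool.Agent.H60.TA.Defs
import Pool.Agent.H19.TA.Lat

set_option autoImplicit false

/-!
# Top scale, all `n`: families of permutations: all orders
-/

open Finset Equiv Pool.H98.BE Pool.H60.TP
open scoped InnerProductSpace

namespace Pool.H60.TA

theorem fam_all {n : ℕ} (hn : 64 ≤ n) : Fam (Fin n) := Pool.H19.TA.exists_lat hn

end Pool.H60.TA
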