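import Pool.Agent.H60.TA.GoodAll
import Pool.Agent.H60.TA.SqD
import Pool.Agent.H60.TP.Main2

set_option autoImplicit false

/-!
# Top scale, all `n`: the theorem for all n at least 100
-/

open Finset Equiv Pool.H98.BE Pool.H60.TP
open scoped InnerProductSpace

namespace Pool.H60.TA

theorem exists_good_all {n : ℕ} (hn : 100 ≤ n) :
    ∃ R : Fin n → Perm (Fin n), ∀ a b, a ≠ b → Good ((R a)⁻¹ * R b) := by
  obtain ⟨R, hR⟩ := fam_all (n := n) (by omega)
  refine ⟨R, fun a b hab => good_all hn ?_⟩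
  intro i h1 h2 x
  have h := hR a b hab x
  obtain rfl | rfl : i = 1 ∨ i = 2 := by omega
  · rw [pow_one]; exact h.1
  · rw [sq]; exact h.2

theorem bd_lex_le_all {n : ℕ} (hn : 100 ≤ n) (A : Finset (Perm (Fin n)))
    (hA : (n - 2).factorial ∣ A.card) :
    Pool.H60.Transp.bd (Pool.H60.Transp.lexInit n A.card) ≤ Pool.H60.Transp.bd A := by
  obtain ⟨R, hR⟩ := exists_good_all hn
  exact bd_lex_le_good (by omega) R hR A hA

end Pool.H60.TA
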