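import Pool.Agent.H60.TA.Defs

set_option autoImplicit false

/-!
# Top scale, all `n`: counting invariant sets
-/

open Finset Equiv Pool.H98.BE Pool.H60.TP
open scoped InnerProductSpace

namespace Pool.H60.TA

private theorem cntA_iff {n : ℕ} {q : Perm (Fin n)} {Y : Finset (Fin n)} :
    hit Y q = Y.card ↔ ∀ x ∈ Y, q x ∈ Y := by
  unfold hit
  constructor
  · intro h x hx
    have h1 := Finset.eq_of_subset_of_card_le (Finset.filter_subset (fun x => q x ∈ Y) Y) h.ge
    rw [← h1] at hx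
    exact (mem_filter.1 hx).2
  · intro h
    rw [Finset.filter_true_of_mem h]

private theorem cntA_mem {n : ℕ} {q : Perm (Fin n)} {a : ℕ} {Y : Finset (Fin n)} :
    Y ∈ ((univ : Finset (Fin n)).powersetCard a).filter (fun Y => hit Y q = a) ↔
      Y.card = a ∧ ∀ x ∈ Y, q x ∈ Y := by
  rw [mem_filter, mem_powersetCard]
  constructor
  · rintro ⟨⟨_, h1⟩, h2⟩
    exact ⟨h1, cntA_iff.1 (h2.trans h1.symm)⟩
  · rintro ⟨h1, h2⟩
    exact ⟨⟨subset_univ _, h1⟩, (cntA_iff.2 h2).trans h1⟩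

private theorem cntA_compl {n : ℕ} {q : Perm (Fin n)} {Y : Finset (Fin n)} (h : ∀ x ∈ Y, q x ∈ Y) :
    ∀ x ∈ Yᶜ, q x ∈ Yᶜ := by
  intro x hx
  rw [mem_compl] at hx ⊢
  intro hqx
  have himg : Y.image q = Y := by
    apply Finset.eq_of_subset_of_card_le
    · intro z hz
      obtain ⟨y, hy, rfl⟩ := mem_image.1 hz
      exact h y hy
    · rw [Finset.card_image_of_injective _ q.injective]
  rw [← himg] at hqx
  obtain ⟨y, hy, hxy⟩ := mem_image.1 hqx
  exact hx (q.injective hxy ▸ hy)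

private theorem cntA_super {n : ℕ} (T : Finset (Fin n)) {b : ℕ} (hT : T.card = 3) :
    (((univ : Finset (Fin n)).powersetCard (b + 3)).filter (fun Y => T ⊆ Y)).card ≤
      (n - 3).choose b := by
  have h1 : (((univ : Finset (Fin n)) \ T).powersetCard b).card = (n - 3).choose b := by
    rw [card_powersetCard, card_sdiff_of_subset (subset_univ _), card_univ, Fintype.card_fin, hT]
  rw [← h1]
  apply Finset.card_le_card_of_injOn (fun Y => Y \ T)
  · intro Y hY
    have hY' := mem_filter.1 (mem_coe.1 hY)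
    refine mem_coe.2 (mem_powersetCard.2 ⟨sdiff_subset_sdiff (subset_univ _) subset_rfl, ?_⟩)
    rw [card_sdiff_of_subset hY'.2, (mem_powersetCard.1 hY'.1).2, hT]
    rfl
  · intro Y hY Z hZ h
    have hY' := (mem_filter.1 (mem_coe.1 hY)).2
    have hZ' := (mem_filter.1 (mem_coe.1 hZ)).2
    have h2 : Y \ T = Z \ T := h
    rw [← sdiff_union_of_subset hY', ← sdiff_union_of_subset hZ', h2]

private theorem cntA_double {n : ℕ} (I : Finset (Finset (Fin n))) :
    ∑ Y ∈ I, Y.card = ∑ y : Fin n, (I.filter (fun Y => y ∈ Y)).card := by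
  simp_rw [Finset.card_filter]
  rw [Finset.sum_comm]
  refine Finset.sum_congr rfl fun Y _ => ?_
  rw [Finset.sum_ite_mem, univ_inter, Finset.sum_const, smul_eq_mul, mul_one]

/-- the three points of an orbit -/
private theorem cntA_orb {n : ℕ} {q : Perm (Fin n)} (hq : NoShort q 2) (y : Fin n) :
    ({y, q y, q (q y)} : Finset (Fin n)).card = 3 := by
  have h1 : ∀ x, q x ≠ x := fun x => by
    have := hq 1 le_rfl (by norm_num) x
    rwa [pow_one] at this
  have h2 : ∀ x, q (q x) ≠ x := fun x => by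
    have := hq 2 (by norm_num) le_rfl x
    rwa [pow_two, Perm.mul_apply] at this
  rw [Finset.card_eq_three]
  exact ⟨y, q y, q (q y), (h1 y).symm, (h2 y).symm, (h1 (q y)).symm, rfl⟩

private theorem cntA_sub {n : ℕ} {q : Perm (Fin n)} {Y : Finset (Fin n)} (h : ∀ x ∈ Y, q x ∈ Y)
    {y : Fin n} (hy : y ∈ Y) : ({y, q y, q (q y)} : Finset (Fin n)) ⊆ Y := by
  intro z hz
  rw [mem_insert, mem_insert, mem_singleton] at hz
  rcases hz with rfl | rfl | rfl
  · exact hy
  · exact h _ hy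
  · exact h _ (h _ hy)

private theorem cntA_zero {n : ℕ} {q : Perm (Fin n)} (hq : NoShort q 2) {a : ℕ} (h1 : 1 ≤ a)
    (h2 : a ≤ 2) : invn q a = 0 := by
  unfold invn
  rw [Finset.card_eq_zero, Finset.eq_empty_iff_forall_notMem]
  intro Y hY
  obtain ⟨hc, hi⟩ := cntA_mem.1 hY
  obtain ⟨y, hy⟩ := Finset.card_pos.1 (by omega : 0 < Y.card)
  have h3 := Finset.card_le_card (cntA_sub hi hy)
  rw [cntA_orb hq] at h3
  omega

private theorem cntA_count {n : ℕ} {q : Perm (Fin n)} (hq : NoShort q 2) (b : ℕ) :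
    (b + 3) * invn q (b + 3) ≤ n * (n - 3).choose b := by
  have h1 : (b + 3) * invn q (b + 3) =
      ∑ Y ∈ ((univ : Finset (Fin n)).powersetCard (b + 3)).filter (fun Y => hit Y q = b + 3),
        Y.card := by
    unfold invn
    rw [Finset.sum_congr rfl fun Y hY => (cntA_mem.1 hY).1, Finset.sum_const, smul_eq_mul, mul_comm]
  rw [h1, cntA_double]
  calc ∑ y : Fin n, ((((univ : Finset (Fin n)).powersetCard (b + 3)).filter
        (fun Y => hit Y q = b + 3)).filter (fun Y => y ∈ Y)).card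
      ≤ ∑ _y : Fin n, (n - 3).choose b := by
        refine Finset.sum_le_sum fun y _ => ?_
        refine le_trans (Finset.card_le_card ?_) (cntA_super {y, q y, q (q y)} (cntA_orb hq y))
        intro Y hY
        obtain ⟨hY1, hY2⟩ := mem_filter.1 hY
        exact mem_filter.2 ⟨(mem_filter.1 hY1).1, cntA_sub (cntA_mem.1 hY1).2 hY2⟩
    _ = n * (n - 3).choose b := by
        rw [Finset.sum_const, card_univ, Fintype.card_fin, smul_eq_mul]

theorem invn_three {n : ℕ} {q : Perm (Fin n)} (hq : NoShort q 2) {a : ℕ} (h1 : 1 ≤ a)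
    (h2 : a ≤ n) : ((n : ℝ) - 1) * ((n : ℝ) - 2) * (invn q a : ℝ)
      ≤ ((a : ℝ) - 1) * ((a : ℝ) - 2) * (n.choose a : ℝ) := by
  rcases Nat.lt_or_ge 2 a with h3 | h3
  · obtain ⟨b, rfl⟩ : ∃ b, a = b + 3 := ⟨a - 3, by omega⟩
    obtain ⟨m, rfl⟩ : ∃ m, n = m + 3 := ⟨n - 3, by omega⟩
    have h4 := cntA_count hq b
    rw [show m + 3 - 3 = m by omega] at h4
    have h5 : ((b : ℝ) + 3) * (invn q (b + 3) : ℝ) ≤ ((m : ℝ) + 3) * (m.choose b : ℝ) := by
      exact_mod_cast h4
    have e1 : ((m : ℝ) + 3) * ((m + 2).choose (b + 2) : ℝ) =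
        ((m + 3).choose (b + 3) : ℝ) * ((b : ℝ) + 3) := by
      have := Nat.add_one_mul_choose_eq (m + 2) (b + 2)
      exact_mod_cast this
    have e2 : ((m : ℝ) + 2) * ((m + 1).choose (b + 1) : ℝ) =
        ((m + 2).choose (b + 2) : ℝ) * ((b : ℝ) + 2) := by
      have := Nat.add_one_mul_choose_eq (m + 1) (b + 1)
      exact_mod_cast this
    have e3 : ((m : ℝ) + 1) * (m.choose b : ℝ) =
        ((m + 1).choose (b + 1) : ℝ) * ((b : ℝ) + 1) := by
      have := Nat.add_one_mul_choose_eq m b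
      exact_mod_cast this
    have hb : (0 : ℝ) < (b : ℝ) + 3 := by positivity
    refine le_of_mul_le_mul_left ?_ hb
    push_cast
    have h6 : ((m : ℝ) + 2) * ((m : ℝ) + 1) * (((b : ℝ) + 3) * (invn q (b + 3) : ℝ)) ≤
        ((m : ℝ) + 2) * ((m : ℝ) + 1) * (((m : ℝ) + 3) * (m.choose b : ℝ)) :=
      mul_le_mul_of_nonneg_left h5 (by positivity)
    have h7 : ((m : ℝ) + 2) * ((m : ℝ) + 1) * (((m : ℝ) + 3) * (m.choose b : ℝ)) =
        ((b : ℝ) + 3) * (((b : ℝ) + 2) * ((b : ℝ) + 1) * ((m + 3).choose (b + 3) : ℝ)) := by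
      calc ((m : ℝ) + 2) * ((m : ℝ) + 1) * (((m : ℝ) + 3) * (m.choose b : ℝ))
          = ((m : ℝ) + 2) * ((m : ℝ) + 3) * (((m : ℝ) + 1) * (m.choose b : ℝ)) := by ring
        _ = ((m : ℝ) + 3) * ((b : ℝ) + 1) * (((m : ℝ) + 2) * ((m + 1).choose (b + 1) : ℝ)) := by
            rw [e3]
            ring
        _ = ((b : ℝ) + 2) * ((b : ℝ) + 1) * (((m : ℝ) + 3) * ((m + 2).choose (b + 2) : ℝ)) := by
            rw [e2]
            ring
        _ = _ := by
            rw [e1]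
            ring
    calc ((b : ℝ) + 3) * (((m : ℝ) + 3 - 1) * ((m : ℝ) + 3 - 2) * (invn q (b + 3) : ℝ))
        = ((m : ℝ) + 2) * ((m : ℝ) + 1) * (((b : ℝ) + 3) * (invn q (b + 3) : ℝ)) := by ring
      _ ≤ _ := h6
      _ = ((b : ℝ) + 3) * (((b : ℝ) + 2) * ((b : ℝ) + 1) * ((m + 3).choose (b + 3) : ℝ)) := h7
      _ = _ := by ring
  · rw [cntA_zero hq h1 h3, Nat.cast_zero, mul_zero]
    have h4 : a = 1 ∨ a = 2 := by omega
    rcases h4 with rfl | rfl
    · norm_num
    · norm_num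

private theorem cntA_maps {n : ℕ} (q : Perm (Fin n)) {a b : ℕ} (h : a + b = n) {Y : Finset (Fin n)}
    (hY : Y ∈ ((univ : Finset (Fin n)).powersetCard a).filter (fun Y => hit Y q = a)) :
    Yᶜ ∈ ((univ : Finset (Fin n)).powersetCard b).filter (fun Y => hit Y q = b) := by
  obtain ⟨h1, h2⟩ := cntA_mem.1 hY
  refine cntA_mem.2 ⟨?_, cntA_compl h2⟩
  rw [card_compl, Fintype.card_fin, h1]
  omega

theorem invn_compl {n : ℕ} (q : Perm (Fin n)) {a : ℕ} (h : a ≤ n) :
    invn q (n - a) = invn q a := by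
  unfold invn
  refine Finset.card_bij' (fun Y _ => Yᶜ) (fun Y _ => Yᶜ) ?_ ?_ ?_ ?_
  · intro Y hY
    exact cntA_maps q (by omega) hY
  · intro Y hY
    exact cntA_maps q (by omega) hY
  · intro Y _
    exact compl_compl Y
  · intro Y _
    exact compl_compl Y

end Pool.H60.TA
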