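import Pool.Agent.H60.TA.Defs

set_option autoImplicit false

/-!
# Top scale, all `n`: counting invariant sets, with four points
-/

open Finset Equiv Pool.H98.BE Pool.H60.TP
open scoped InnerProductSpace

namespace Pool.H60.TA

/-- the number of sets of `a` points containing `W` -/
private theorem cntB_sup {n a : ℕ} (W : Finset (Fin n)) :
    (((univ : Finset (Fin n)).powersetCard a).filter (fun Y => W ⊆ Y)).card
      ≤ if W.card ≤ a then (n - W.card).choose (a - W.card) else 0 := by
  split_ifs with h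
  · have h1 : (((univ : Finset (Fin n)).powersetCard a).filter (fun Y => W ⊆ Y)).card ≤
        ((univ \ W : Finset (Fin n)).powersetCard (a - W.card)).card := by
      refine Finset.card_le_card_of_injOn (fun Y => Y \ W) ?_ ?_
      · intro Y hY
        rw [Finset.mem_coe, Finset.mem_filter, Finset.mem_powersetCard] at hY
        rw [Finset.mem_coe, Finset.mem_powersetCard]
        refine ⟨Finset.sdiff_subset_sdiff (Finset.subset_univ _) (Finset.Subset.refl _), ?_⟩
        rw [Finset.card_sdiff_of_subset hY.2, hY.1.2]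
      · intro Y hY Z hZ hYZ
        rw [Finset.mem_coe, Finset.mem_filter] at hY hZ
        have hYZ' : Y \ W = Z \ W := hYZ
        rw [← Finset.sdiff_union_of_subset hY.2, hYZ', Finset.sdiff_union_of_subset hZ.2]
    rw [Finset.card_powersetCard, Finset.card_sdiff_of_subset (Finset.subset_univ _),
      Finset.card_univ, Fintype.card_fin] at h1
    exact h1
  · rw [Nat.le_zero, Finset.card_eq_zero, Finset.filter_eq_empty_iff]
    intro Y hY hW
    exact h ((Finset.card_le_card hW).trans_eq (Finset.mem_powersetCard.1 hY).2)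

/-- the absorption identity, with `0` in place of a binomial coefficient with a negative entry -/
private theorem cntB_abs {n a : ℕ} (h1 : 4 ≤ a) (h2 : a ≤ n) :
    (n - 4) * (if 5 ≤ a then (n - 5).choose (a - 5) else 0) = (a - 4) * (n - 4).choose (a - 4) := by
  split_ifs with h
  · obtain ⟨b, rfl⟩ := Nat.exists_eq_add_of_le h
    obtain ⟨m, rfl⟩ := Nat.exists_eq_add_of_le (h.trans h2)
    have e1 : 5 + m - 4 = m + 1 := by omega
    have e2 : 5 + b - 4 = b + 1 := by omega
    have e3 : 5 + m - 5 = m := by omega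
    have e4 : 5 + b - 5 = b := by omega
    rw [e1, e2, e3, e4, Nat.add_one_mul_choose_eq, mul_comm]
  · have h4 : a = 4 := by omega
    subst h4
    simp

/-- the number of invariant sets through a point -/
private theorem cntB_one {n : ℕ} {q : Perm (Fin n)} (hq : NoShort q 2) {a : ℕ} (h1 : 4 ≤ a)
    (h2 : a ≤ n) (y : Fin n) :
    ((((univ : Finset (Fin n)).powersetCard a).filter (fun Y => hit Y q = a)).filter
      (fun Y => y ∈ Y)).card ≤ (n - 4).choose (a - 4) := by
  have hn1 : ∀ x, q x ≠ x := by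
    intro x
    have h := hq 1 le_rfl (by norm_num) x
    rwa [pow_one] at h
  have hn2 : ∀ x, q (q x) ≠ x := by
    intro x
    have h := hq 2 (by norm_num) le_rfl x
    rwa [pow_two, Perm.mul_apply] at h
  have hn3 : ∀ x, q (q x) ≠ q x := fun x h => hn1 x (q.injective h)
  obtain ⟨I, hI⟩ : ∃ I, I = (((univ : Finset (Fin n)).powersetCard a).filter
    (fun Y => hit Y q = a)).filter (fun Y => y ∈ Y) := ⟨_, rfl⟩
  rw [← hI]
  have hmem : ∀ Y ∈ I, Y.card = a ∧ (∀ x ∈ Y, q x ∈ Y) ∧ y ∈ Y := by
    intro Y hY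
    rw [hI, Finset.mem_filter, Finset.mem_filter, Finset.mem_powersetCard] at hY
    obtain ⟨⟨⟨-, hc⟩, hh⟩, hy⟩ := hY
    refine ⟨hc, ?_, hy⟩
    unfold hit at hh
    rw [← hc] at hh
    exact Finset.card_filter_eq_iff.1 hh
  obtain ⟨V, hV⟩ : ∃ V : Finset (Fin n), V = {y, q y, q (q y)} := ⟨_, rfl⟩
  have hVc : V.card = 3 := by
    rw [hV, Finset.card_eq_three]
    exact ⟨y, q y, q (q y), (hn1 y).symm, (hn2 y).symm, (hn3 y).symm, rfl⟩
  have hVY : ∀ Y ∈ I, V ⊆ Y := by
    intro Y hY x hx
    obtain ⟨-, hi, hy⟩ := hmem Y hY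
    rw [hV, Finset.mem_insert, Finset.mem_insert, Finset.mem_singleton] at hx
    rcases hx with rfl | rfl | rfl
    · exact hy
    · exact hi _ hy
    · exact hi _ (hi _ hy)
  obtain ⟨c4, hc4⟩ : ∃ c4, c4 = (n - 4).choose (a - 4) := ⟨_, rfl⟩
  obtain ⟨c5, hc5⟩ : ∃ c5, c5 = if 5 ≤ a then (n - 5).choose (a - 5) else 0 := ⟨_, rfl⟩
  have habs : (n - 4) * c5 = (a - 4) * c4 := by
    rw [hc4, hc5]
    exact cntB_abs h1 h2
  have hc54 : c5 ≤ c4 := by
    rcases Nat.eq_or_lt_of_le (h1.trans h2) with h | h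
    · have ha : ¬ 5 ≤ a := by omega
      rw [hc5, if_neg ha]
      exact Nat.zero_le _
    · have h3 : (n - 4) * c5 ≤ (n - 4) * c4 := by
        rw [habs]
        exact Nat.mul_le_mul_right _ (by omega)
      exact Nat.le_of_mul_le_mul_left h3 (by omega)
  rw [← hc4]
  -- double counting
  have hdc : ∑ Y ∈ I, ((univ \ V : Finset (Fin n)).filter (fun z => z ∈ Y)).card =
      ∑ z ∈ (univ \ V : Finset (Fin n)), (I.filter (fun Y => z ∈ Y)).card :=
    Finset.sum_card_bipartiteAbove_eq_sum_card_bipartiteBelow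
      (s := I) (t := univ \ V) (fun (Y : Finset (Fin n)) (z : Fin n) => z ∈ Y)
  have hleft : ∑ Y ∈ I, ((univ \ V : Finset (Fin n)).filter (fun z => z ∈ Y)).card =
      I.card * (a - 3) := by
    rw [← smul_eq_mul, ← Finset.sum_const]
    refine Finset.sum_congr rfl fun Y hY => ?_
    have e : (univ \ V : Finset (Fin n)).filter (fun z => z ∈ Y) = Y \ V := by
      ext z
      simp only [Finset.mem_filter, Finset.mem_sdiff, Finset.mem_univ, true_and]
      exact and_comm
    rw [e, Finset.card_sdiff_of_subset (hVY Y hY), (hmem Y hY).1, hVc]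
  have hterm : ∀ z ∈ (univ \ V : Finset (Fin n)), (I.filter (fun Y => z ∈ Y)).card ≤
      if q z = y then c4 else c5 := by
    intro z hz
    rw [Finset.mem_sdiff] at hz
    have hzV := hz.2
    have hsub : ∀ W : Finset (Fin n), (∀ Y ∈ I, z ∈ Y → W ⊆ Y) →
        (I.filter (fun Y => z ∈ Y)).card ≤
          if W.card ≤ a then (n - W.card).choose (a - W.card) else 0 := by
      intro W hW
      refine le_trans (Finset.card_le_card ?_) (cntB_sup (a := a) W)
      intro Y hY
      rw [Finset.mem_filter] at hY ⊢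
      refine ⟨?_, hW Y hY.1 hY.2⟩
      rw [Finset.mem_powersetCard]
      exact ⟨Finset.subset_univ _, (hmem Y hY.1).1⟩
    split_ifs with hqz
    · have hWc : (insert z V).card = 4 := by
        rw [Finset.card_insert_of_notMem hzV, hVc]
      have h := hsub (insert z V) (fun Y hY hzY => Finset.insert_subset hzY (hVY Y hY))
      rw [hWc, if_pos h1] at h
      rw [hc4]
      exact h
    · have hqzV : q z ∉ insert z V := by
        rw [Finset.mem_insert, hV, Finset.mem_insert, Finset.mem_insert, Finset.mem_singleton]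
        rintro (h | h | h | h)
        · exact hn1 z h
        · exact hqz h
        · have hzy : z = y := q.injective h
          apply hzV
          rw [hV, hzy]
          exact Finset.mem_insert_self _ _
        · have hzy : z = q y := q.injective h
          apply hzV
          rw [hV, hzy]
          exact Finset.mem_insert_of_mem (Finset.mem_insert_self _ _)
      have hWc : (insert (q z) (insert z V)).card = 5 := by
        rw [Finset.card_insert_of_notMem hqzV, Finset.card_insert_of_notMem hzV, hVc]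
      have h := hsub (insert (q z) (insert z V)) (fun Y hY hzY =>
        Finset.insert_subset ((hmem Y hY).2.1 z hzY) (Finset.insert_subset hzY (hVY Y hY)))
      rw [hWc] at h
      rw [hc5]
      exact h
  have hright : ∑ z ∈ (univ \ V : Finset (Fin n)), (I.filter (fun Y => z ∈ Y)).card ≤
      (a - 3) * c4 := by
    refine (Finset.sum_le_sum hterm).trans ?_
    rw [Finset.sum_ite, Finset.sum_const, Finset.sum_const, smul_eq_mul, smul_eq_mul]
    have hone : ((univ \ V : Finset (Fin n)).filter (fun z => q z = y)).card ≤ 1 := by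
      rw [Finset.card_le_one]
      intro u hu v hv
      rw [Finset.mem_filter] at hu hv
      exact q.injective (hu.2.trans hv.2.symm)
    have htot : ((univ \ V : Finset (Fin n)).filter (fun z => q z = y)).card +
        ((univ \ V : Finset (Fin n)).filter (fun z => ¬ q z = y)).card = n - 3 := by
      rw [Finset.card_filter_add_card_filter_not, Finset.card_sdiff_of_subset
        (Finset.subset_univ _), hVc, Finset.card_univ, Fintype.card_fin]
    generalize ((univ \ V : Finset (Fin n)).filter (fun z => q z = y)).card = p at *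
    generalize ((univ \ V : Finset (Fin n)).filter (fun z => ¬ q z = y)).card = r at *
    have hkey : (a - 3) * c4 = (n - 4) * c5 + c4 := by
      rw [habs]
      have e : a - 3 = (a - 4) + 1 := by omega
      rw [e, Nat.add_mul, one_mul]
    rw [hkey]
    rcases Nat.le_one_iff_eq_zero_or_eq_one.1 hone with h | h
    · subst h
      have hr : r = (n - 4) + 1 := by omega
      rw [hr, Nat.add_mul, one_mul, Nat.zero_mul, Nat.zero_add]
      exact Nat.add_le_add_left hc54 _
    · subst h
      have hr : r = n - 4 := by omega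
      rw [hr, one_mul, Nat.add_comm]
  have hfin : I.card * (a - 3) ≤ c4 * (a - 3) := by
    rw [← hleft, hdc, Nat.mul_comm c4]
    exact hright
  exact Nat.le_of_mul_le_mul_right hfin (by omega)

theorem invn_four {n : ℕ} {q : Perm (Fin n)} (hq : NoShort q 2) {a : ℕ} (h1 : 4 ≤ a)
    (h2 : a ≤ n) : ((n : ℝ) - 1) * ((n : ℝ) - 2) * ((n : ℝ) - 3) * (invn q a : ℝ)
      ≤ ((a : ℝ) - 1) * ((a : ℝ) - 2) * ((a : ℝ) - 3) * (n.choose a : ℝ) := by
  have hA : a * invn q a ≤ n * (n - 4).choose (a - 4) := by
    obtain ⟨J, hJ⟩ : ∃ J, J = ((univ : Finset (Fin n)).powersetCard a).filter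
      (fun Y => hit Y q = a) := ⟨_, rfl⟩
    have hJc : invn q a = J.card := by
      rw [hJ]
      rfl
    have hdc : ∑ Y ∈ J, ((univ : Finset (Fin n)).filter (fun z => z ∈ Y)).card =
        ∑ z ∈ (univ : Finset (Fin n)), (J.filter (fun Y => z ∈ Y)).card :=
      Finset.sum_card_bipartiteAbove_eq_sum_card_bipartiteBelow
        (s := J) (t := univ) (fun (Y : Finset (Fin n)) (z : Fin n) => z ∈ Y)
    have hleft : ∑ Y ∈ J, ((univ : Finset (Fin n)).filter (fun z => z ∈ Y)).card =
        J.card * a := by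
      rw [← smul_eq_mul, ← Finset.sum_const]
      refine Finset.sum_congr rfl fun Y hY => ?_
      have e : (univ : Finset (Fin n)).filter (fun z => z ∈ Y) = Y := by
        ext z
        simp only [Finset.mem_filter, Finset.mem_univ, true_and]
      rw [hJ, Finset.mem_filter, Finset.mem_powersetCard] at hY
      rw [e, hY.1.2]
    have hright : ∑ z ∈ (univ : Finset (Fin n)), (J.filter (fun Y => z ∈ Y)).card ≤
        n * (n - 4).choose (a - 4) := by
      have h3 : ∑ z ∈ (univ : Finset (Fin n)), (J.filter (fun Y => z ∈ Y)).card ≤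
          ∑ _z ∈ (univ : Finset (Fin n)), (n - 4).choose (a - 4) := by
        refine Finset.sum_le_sum fun z _ => ?_
        rw [hJ]
        exact cntB_one hq h1 h2 z
      rw [Finset.sum_const, Finset.card_univ, Fintype.card_fin, smul_eq_mul] at h3
      exact h3
    rw [hJc, Nat.mul_comm, ← hleft, hdc]
    exact hright
  have hB : a * ((a - 1) * ((a - 2) * ((a - 3) * n.choose a))) =
      n * ((n - 1) * ((n - 2) * ((n - 3) * (n - 4).choose (a - 4)))) := by
    obtain ⟨b, rfl⟩ := Nat.exists_eq_add_of_le h1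
    obtain ⟨m, rfl⟩ := Nat.exists_eq_add_of_le (h1.trans h2)
    have e1 : (m + 1) * m.choose b = (m + 1).choose (b + 1) * (b + 1) :=
      Nat.add_one_mul_choose_eq m b
    have e2 : (m + 2) * (m + 1).choose (b + 1) = (m + 2).choose (b + 2) * (b + 2) :=
      Nat.add_one_mul_choose_eq (m + 1) (b + 1)
    have e3 : (m + 3) * (m + 2).choose (b + 2) = (m + 3).choose (b + 3) * (b + 3) :=
      Nat.add_one_mul_choose_eq (m + 2) (b + 2)
    have e4 : (m + 4) * (m + 3).choose (b + 3) = (m + 4).choose (b + 4) * (b + 4) :=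
      Nat.add_one_mul_choose_eq (m + 3) (b + 3)
    have f1 : 4 + m - 1 = m + 3 := by omega
    have f2 : 4 + m - 2 = m + 2 := by omega
    have f3 : 4 + m - 3 = m + 1 := by omega
    have f4 : 4 + m - 4 = m := by omega
    have g1 : 4 + b - 1 = b + 3 := by omega
    have g2 : 4 + b - 2 = b + 2 := by omega
    have g3 : 4 + b - 3 = b + 1 := by omega
    have g4 : 4 + b - 4 = b := by omega
    rw [f1, f2, f3, f4, g1, g2, g3, g4, Nat.add_comm 4 m, Nat.add_comm 4 b]
    calc (b + 4) * ((b + 3) * ((b + 2) * ((b + 1) * (m + 4).choose (b + 4))))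
        = (b + 3) * ((b + 2) * ((b + 1) * ((m + 4).choose (b + 4) * (b + 4)))) := by ring
      _ = (m + 4) * ((b + 2) * ((b + 1) * ((m + 3).choose (b + 3) * (b + 3)))) := by
          rw [← e4]
          ring
      _ = (m + 4) * ((m + 3) * ((b + 1) * ((m + 2).choose (b + 2) * (b + 2)))) := by
          rw [← e3]
          ring
      _ = (m + 4) * ((m + 3) * ((m + 2) * ((m + 1).choose (b + 1) * (b + 1)))) := by
          rw [← e2]
          ring
      _ = _ := by
          rw [← e1]
  have ha1 : (1 : ℕ) ≤ a := by omega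
  have ha2 : (2 : ℕ) ≤ a := by omega
  have ha3 : (3 : ℕ) ≤ a := by omega
  have hn1 : (1 : ℕ) ≤ n := by omega
  have hn2 : (2 : ℕ) ≤ n := by omega
  have hn3 : (3 : ℕ) ≤ n := by omega
  have hA' : (a : ℝ) * (invn q a : ℝ) ≤ n * ((n - 4).choose (a - 4) : ℝ) := by
    exact_mod_cast hA
  have hB' : (a : ℝ) * (((a : ℝ) - 1) * (((a : ℝ) - 2) * (((a : ℝ) - 3) * (n.choose a : ℝ)))) =
      (n : ℝ) * (((n : ℝ) - 1) * (((n : ℝ) - 2) * (((n : ℝ) - 3) *
        ((n - 4).choose (a - 4) : ℝ)))) := by
    have h := congrArg (Nat.cast : ℕ → ℝ) hB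
    push_cast [Nat.cast_sub ha1, Nat.cast_sub ha2, Nat.cast_sub ha3, Nat.cast_sub hn1,
      Nat.cast_sub hn2, Nat.cast_sub hn3] at h
    exact h
  have ha0 : (0 : ℝ) < a := by
    have h3 : (4 : ℝ) ≤ a := by exact_mod_cast h1
    linarith
  have hnr : (4 : ℝ) ≤ n := by
    have h3 : 4 ≤ n := h1.trans h2
    exact_mod_cast h3
  have hP : 0 ≤ ((n : ℝ) - 1) * ((n : ℝ) - 2) * ((n : ℝ) - 3) :=
    mul_nonneg (mul_nonneg (by linarith) (by linarith)) (by linarith)
  have hm := mul_le_mul_of_nonneg_left hA' hP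
  refine le_of_mul_le_mul_left ?_ ha0
  calc (a : ℝ) * (((n : ℝ) - 1) * ((n : ℝ) - 2) * ((n : ℝ) - 3) * (invn q a : ℝ))
      = ((n : ℝ) - 1) * ((n : ℝ) - 2) * ((n : ℝ) - 3) * ((a : ℝ) * (invn q a : ℝ)) := by ring
    _ ≤ _ := hm
    _ = (n : ℝ) * (((n : ℝ) - 1) * (((n : ℝ) - 2) * (((n : ℝ) - 3) *
        ((n - 4).choose (a - 4) : ℝ)))) := by ring
    _ = (a : ℝ) * (((a : ℝ) - 1) * (((a : ℝ) - 2) * (((a : ℝ) - 3) * (n.choose a : ℝ)))) :=
        hB'.symm
    _ = _ := by ring

end Pool.H60.TA
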