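import Pool.Agent.H60.TA.Defs

set_option autoImplicit false

/-!
# Top scale, all `n`: double counting
-/

open Finset Equiv Pool.H98.BE Pool.H60.TP
open scoped InnerProductSpace

namespace Pool.H60.TA

private def dbl_S {n : ℕ} (A : Finset (Fin n)) (q g : Perm (Fin n)) : Finset (Fin n) :=
  A.map (g⁻¹ * q * g).toEmbedding

private theorem dbl_mem {n : ℕ} {A : Finset (Fin n)} {q g : Perm (Fin n)} {z : Fin n} :
    z ∈ dbl_S A q g ↔ ∃ y ∈ A, (g⁻¹ * q * g) y = z := by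
  unfold dbl_S
  rw [Finset.mem_map]
  rfl

private theorem dbl_hit {n : ℕ} {A : Finset (Fin n)} {q g : Perm (Fin n)} :
    hit A (g⁻¹ * q * g) = 0 ↔ Disjoint (dbl_S A q g) A := by
  unfold hit
  rw [Finset.card_eq_zero, Finset.filter_eq_empty_iff, Finset.disjoint_left]
  constructor
  · intro h z hz
    obtain ⟨y, hy, rfl⟩ := dbl_mem.1 hz
    exact h hy
  · intro h y hy
    exact h (dbl_mem.2 ⟨y, hy, rfl⟩)

private theorem dbl_move {n : ℕ} {A : Finset (Fin n)} {q g : Perm (Fin n)} {x c : Fin n}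
    (hd : Disjoint (dbl_S A q g) A) (hx : x ∈ dbl_S A q g) (hcA : c ∉ A) (hc : c ∉ dbl_S A q g) :
    dbl_S A q (g * swap x c) = insert c ((dbl_S A q g).erase x) := by
  have hxA : x ∉ A := Finset.disjoint_left.1 hd hx
  have hxc : x ≠ c := fun h => hc (h ▸ hx)
  have h1 : ∀ y ∈ A, ((g * swap x c)⁻¹ * q * (g * swap x c)) y = swap x c ((g⁻¹ * q * g) y) := by
    intro y hy
    have h2 : swap x c y = y :=
      swap_apply_of_ne_of_ne (fun h => hxA (h ▸ hy)) (fun h => hcA (h ▸ hy))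
    have h3 : (swap x c)⁻¹ = swap x c := swap_inv x c
    simp only [mul_inv_rev, Perm.mul_apply, h2, h3]
  ext z
  rw [dbl_mem, Finset.mem_insert, Finset.mem_erase]
  have h4 : (∃ y ∈ A, ((g * swap x c)⁻¹ * q * (g * swap x c)) y = z) ↔ swap x c z ∈ dbl_S A q g := by
    rw [dbl_mem]
    constructor
    · rintro ⟨y, hy, rfl⟩
      refine ⟨y, hy, ?_⟩
      rw [h1 y hy, swap_apply_self]
    · rintro ⟨y, hy, h⟩
      refine ⟨y, hy, ?_⟩
      rw [h1 y hy, h, swap_apply_self]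
  rw [h4]
  by_cases hz : z = c
  · subst hz
    rw [swap_apply_right]
    exact ⟨fun _ => Or.inl rfl, fun _ => hx⟩
  · by_cases hzx : z = x
    · subst hzx
      rw [swap_apply_left]
      constructor
      · intro h
        exact absurd h hc
      · rintro (h | h)
        · exact absurd h hz
        · exact absurd rfl h.1
    · rw [swap_apply_of_ne_of_ne hzx hz]
      constructor
      · intro h
        exact Or.inr ⟨hzx, h⟩
      · rintro (h | h)
        · exact absurd h hz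
        · exact h.2

theorem dbl {n : ℕ} {A : Finset (Fin n)} {a : ℕ} (hA : A.card = a) (h1 : 1 ≤ a) (h2 : 2 * a ≤ n)
    (q : Perm (Fin n)) (P : Finset (Fin n) → ℝ) (C : ℝ)
    (h : ∀ S : Finset (Fin n), S.card = a → Disjoint S A → ∀ x ∈ S,
      ∑ c ∈ univ \ (A ∪ S.erase x), P (insert c (S.erase x)) ≤ C) :
    ((n : ℝ) - 2 * a + 1) * ∑ g ∈ (univ : Finset (Perm (Fin n))).filter
        (fun g => hit A (g⁻¹ * q * g) = 0), P (A.map (g⁻¹ * q * g).toEmbedding)
      ≤ C * (((univ : Finset (Perm (Fin n))).filter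
        (fun g => hit A (g⁻¹ * q * g) = 0)).card : ℝ) := by
  obtain ⟨T, hT⟩ : ∃ T : Finset (Perm (Fin n)), T = (univ : Finset (Perm (Fin n))).filter
    (fun g => hit A (g⁻¹ * q * g) = 0) := ⟨_, rfl⟩
  rw [← hT]
  have hmT : ∀ g, g ∈ T ↔ Disjoint (dbl_S A q g) A := by
    intro g
    rw [hT, Finset.mem_filter, ← dbl_hit]
    exact ⟨fun h => h.2, fun h => ⟨Finset.mem_univ _, h⟩⟩
  have hcard : ∀ g, (dbl_S A q g).card = a := by
    intro g
    unfold dbl_S
    rw [Finset.card_map, hA]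
  obtain ⟨U, hU⟩ : ∃ U : Perm (Fin n) → Finset (Fin n), ∀ g, U g = univ \ (A ∪ dbl_S A q g) :=
    ⟨_, fun _ => rfl⟩
  have hmU : ∀ g c, c ∈ U g ↔ c ∉ A ∧ c ∉ dbl_S A q g := by
    intro g c
    rw [hU, Finset.mem_sdiff, Finset.mem_union, not_or]
    exact ⟨fun h => h.2, fun h => ⟨Finset.mem_univ _, h⟩⟩
  have hUcard : ∀ g ∈ T, ((U g).card : ℝ) = n - 2 * a := by
    intro g hg
    have h3 : (U g).card = n - 2 * a := by
      rw [hU, Finset.card_sdiff_of_subset (Finset.subset_univ _), Finset.card_univ, Fintype.card_fin,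
        Finset.card_union_of_disjoint ((hmT g).1 hg).symm, hA, hcard]
      omega
    rw [h3, Nat.cast_sub h2]
    push_cast
    ring
  -- the hypothesis for `g` and `x`
  have key : ∀ g ∈ T, ∀ x ∈ dbl_S A q g,
      P (dbl_S A q g) + ∑ c ∈ U g, P (insert c ((dbl_S A q g).erase x)) ≤ C := by
    intro g hg x hx
    have hd := (hmT g).1 hg
    have hxA : x ∉ A := Finset.disjoint_left.1 hd hx
    have h3 := h (dbl_S A q g) (hcard g) hd x hx
    have h4 : univ \ (A ∪ (dbl_S A q g).erase x) = insert x (U g) := by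
      ext c
      rw [Finset.mem_sdiff, Finset.mem_union, Finset.mem_erase, Finset.mem_insert, hmU]
      constructor
      · rintro ⟨-, h5⟩
        push Not at h5
        by_cases hcx : c = x
        · exact Or.inl hcx
        · exact Or.inr ⟨h5.1, h5.2 hcx⟩
      · rintro (rfl | h5)
        · refine ⟨Finset.mem_univ _, ?_⟩
          push Not
          exact ⟨hxA, fun h6 => absurd rfl h6⟩
        · refine ⟨Finset.mem_univ _, ?_⟩
          push Not
          exact ⟨h5.1, fun _ => h5.2⟩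
    have h5 : x ∉ U g := by
      rw [hmU]
      push Not
      exact fun _ => hx
    rw [h4, Finset.sum_insert h5, Finset.insert_erase hx] at h3
    exact h3
  have hsum : ∑ g ∈ T, ∑ x ∈ dbl_S A q g,
      (P (dbl_S A q g) + ∑ c ∈ U g, P (insert c ((dbl_S A q g).erase x))) ≤
      ∑ g ∈ T, ∑ x ∈ dbl_S A q g, C :=
    Finset.sum_le_sum fun g hg => Finset.sum_le_sum fun x hx => key g hg x hx
  have hR : ∑ g ∈ T, ∑ x ∈ dbl_S A q g, C = a * (C * T.card) := by
    have h3 : ∀ g ∈ T, ∑ x ∈ dbl_S A q g, C = a * C := by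
      intro g _
      rw [Finset.sum_const, hcard, nsmul_eq_mul]
    rw [Finset.sum_congr rfl h3, Finset.sum_const, nsmul_eq_mul]
    ring
  -- the involution
  have hinv : ∑ g ∈ T, ∑ x ∈ dbl_S A q g, ∑ c ∈ U g, P (insert c ((dbl_S A q g).erase x)) =
      ∑ g ∈ T, ∑ x ∈ dbl_S A q g, ∑ c ∈ U g, P (dbl_S A q g) := by
    rw [Finset.sum_sigma', Finset.sum_sigma', Finset.sum_sigma', Finset.sum_sigma']
    have hmem : ∀ t : (_ : (_ : Perm (Fin n)) × Fin n) × Fin n,
        t ∈ (T.sigma fun g => dbl_S A q g).sigma (fun p => U p.1) ↔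
          Disjoint (dbl_S A q t.1.1) A ∧ t.1.2 ∈ dbl_S A q t.1.1 ∧ t.2 ∉ A ∧ t.2 ∉ dbl_S A q t.1.1 := by
      intro t
      rw [Finset.mem_sigma, Finset.mem_sigma, hmT, hmU, and_assoc]
    have hmaps : ∀ t : (_ : (_ : Perm (Fin n)) × Fin n) × Fin n,
        t ∈ (T.sigma fun g => dbl_S A q g).sigma (fun p => U p.1) →
        (⟨⟨t.1.1 * swap t.1.2 t.2, t.2⟩, t.1.2⟩ : (_ : (_ : Perm (Fin n)) × Fin n) × Fin n) ∈
          (T.sigma fun g => dbl_S A q g).sigma (fun p => U p.1) := by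
      intro t ht
      rw [hmem] at ht
      obtain ⟨hd, hx, hcA, hc⟩ := ht
      have hxA : t.1.2 ∉ A := Finset.disjoint_left.1 hd hx
      have hxc : t.1.2 ≠ t.2 := fun h => hc (h ▸ hx)
      rw [hmem]
      show Disjoint (dbl_S A q (t.1.1 * swap t.1.2 t.2)) A ∧ t.2 ∈ dbl_S A q (t.1.1 * swap t.1.2 t.2) ∧
        t.1.2 ∉ A ∧ t.1.2 ∉ dbl_S A q (t.1.1 * swap t.1.2 t.2)
      rw [dbl_move hd hx hcA hc]
      refine ⟨?_, Finset.mem_insert_self _ _, hxA, ?_⟩
      · rw [Finset.disjoint_left]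
        intro z hz
        rcases Finset.mem_insert.1 hz with rfl | hz
        · exact hcA
        · exact Finset.disjoint_left.1 hd (Finset.mem_of_mem_erase hz)
      · rw [Finset.mem_insert, Finset.mem_erase]
        push Not
        exact ⟨hxc, fun h => absurd rfl h⟩
    have hii : ∀ t : (_ : (_ : Perm (Fin n)) × Fin n) × Fin n,
        (⟨⟨(t.1.1 * swap t.1.2 t.2) * swap t.2 t.1.2, t.1.2⟩, t.2⟩ :
          (_ : (_ : Perm (Fin n)) × Fin n) × Fin n) = t := by
      rintro ⟨⟨g, x⟩, c⟩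
      show (⟨⟨(g * swap x c) * swap c x, x⟩, c⟩ : (_ : (_ : Perm (Fin n)) × Fin n) × Fin n) = ⟨⟨g, x⟩, c⟩
      rw [swap_comm c x, mul_assoc, swap_mul_self, mul_one]
    refine Finset.sum_nbij' (fun t => ⟨⟨t.1.1 * swap t.1.2 t.2, t.2⟩, t.1.2⟩)
      (fun t => ⟨⟨t.1.1 * swap t.1.2 t.2, t.2⟩, t.1.2⟩) hmaps hmaps (fun t _ => hii t) (fun t _ => hii t) ?_
    intro t ht
    rw [hmem] at ht
    obtain ⟨hd, hx, hcA, hc⟩ := ht
    show P (insert t.2 ((dbl_S A q t.1.1).erase t.1.2)) = P (dbl_S A q (t.1.1 * swap t.1.2 t.2))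
    rw [dbl_move hd hx hcA hc]
  have hconst : ∑ g ∈ T, ∑ x ∈ dbl_S A q g, ∑ c ∈ U g, P (dbl_S A q g) =
      a * ((n - 2 * a) * ∑ g ∈ T, P (dbl_S A q g)) := by
    have h3 : ∀ g ∈ T, ∑ x ∈ dbl_S A q g, ∑ c ∈ U g, P (dbl_S A q g) =
        a * ((n - 2 * a) * P (dbl_S A q g)) := by
      intro g hg
      rw [Finset.sum_const, Finset.sum_const, hcard, nsmul_eq_mul, nsmul_eq_mul, hUcard g hg]
    rw [Finset.sum_congr rfl h3, ← Finset.mul_sum, ← Finset.mul_sum]
  have hfirst : ∑ g ∈ T, ∑ x ∈ dbl_S A q g, P (dbl_S A q g) = a * ∑ g ∈ T, P (dbl_S A q g) := by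
    have h3 : ∀ g ∈ T, ∑ x ∈ dbl_S A q g, P (dbl_S A q g) = a * P (dbl_S A q g) := by
      intro g _
      rw [Finset.sum_const, hcard, nsmul_eq_mul]
    rw [Finset.sum_congr rfl h3, ← Finset.mul_sum]
  simp only [Finset.sum_add_distrib] at hsum
  rw [hinv, hconst, hfirst, hR] at hsum
  have ha0 : (0 : ℝ) < a := by exact_mod_cast h1
  have hfin : (a : ℝ) * (((n : ℝ) - 2 * a + 1) * ∑ g ∈ T, P (dbl_S A q g)) ≤ a * (C * T.card) := by
    calc (a : ℝ) * (((n : ℝ) - 2 * a + 1) * ∑ g ∈ T, P (dbl_S A q g)) =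
        a * ∑ g ∈ T, P (dbl_S A q g) + a * ((n - 2 * a) * ∑ g ∈ T, P (dbl_S A q g)) := by ring
      _ ≤ _ := hsum
  exact le_of_mul_le_mul_left hfin ha0

end Pool.H60.TA
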