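import Pool.Agent.H60.TA.Orth
import Pool.Agent.H60.TA.Dbl

set_option autoImplicit false

/-!
# Top scale, all `n`: the part without hits
-/

open Finset Equiv Pool.H98.BE Pool.H60.TP
open scoped InnerProductSpace

namespace Pool.H60.TA

/-- the vectors of `E` fixed by the transpositions inside `S` -/
private def zF {n : ℕ} (E : Submodule ℝ (QV n)) (S : Finset (Fin n)) : Submodule ℝ (QV n) where
  carrier := {w | w ∈ E ∧ Fx S w}
  add_mem' := by
    rintro u w ⟨h1, h2⟩ ⟨h3, h4⟩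
    exact ⟨E.add_mem h1 h3, fun x hx y hy => by rw [map_add, h2 x hx y hy, h4 x hx y hy]⟩
  zero_mem' := ⟨E.zero_mem, fun x _ y _ => map_zero _⟩
  smul_mem' := by
    rintro c w ⟨h1, h2⟩
    exact ⟨E.smul_mem c h1, fun x hx y hy => by rw [map_smul, h2 x hx y hy]⟩

private noncomputable def zP {n : ℕ} (E : Submodule ℝ (QV n)) (v : QV n) (S : Finset (Fin n)) :
    QV n := (zF E S).starProjection v

private theorem zP_mem {n : ℕ} (E : Submodule ℝ (QV n)) (v : QV n) (S : Finset (Fin n)) :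
    zP E v S ∈ E ∧ Fx S (zP E v S) :=
  Submodule.starProjection_apply_mem (zF E S) v

private theorem zP_inner {n : ℕ} (E : Submodule ℝ (QV n)) (v : QV n) (S : Finset (Fin n))
    {w : QV n} (hw : w ∈ E) (hf : Fx S w) : ⟪w, v⟫_ℝ = ⟪w, zP E v S⟫_ℝ := by
  have hm : w ∈ zF E S := ⟨hw, hf⟩
  have h1 := Submodule.sub_starProjection_mem_orthogonal (K := zF E S) v
  have h2 := (Submodule.mem_orthogonal _ _).1 h1 w hm
  rw [inner_sub_right] at h2
  have h3 : ⟪w, zP E v S⟫_ℝ = ⟪w, (zF E S).starProjection v⟫_ℝ := rfl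
  rw [h3]
  linarith

private theorem fx_move {n : ℕ} {A : Finset (Fin n)} {v : QV n} (hf : Fx A v)
    (y : Perm (Fin n)) : Fx (A.map y.toEmbedding) (qrho n y v) := by
  intro x' hx' z' hz'
  obtain ⟨x, hx, rfl⟩ := mem_map.1 hx'
  obtain ⟨z, hz, rfl⟩ := mem_map.1 hz'
  have h1 : Equiv.swap (y x) (y z) * y = y * Equiv.swap x z :=
    (Equiv.mul_swap_eq_swap_mul y x z).symm
  have h2 : qrho n (Equiv.swap (y x) (y z)) (qrho n y v) =
      qrho n y (qrho n (Equiv.swap x z) v) := by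
    have h3 := congrArg (fun s => qrho n s v) h1
    simp only [map_mul] at h3
    exact h3
  have h4 := hf x hx z hz
  rw [h4] at h2
  exact h2

theorem zero_part {n : ℕ} {E : Submodule ℝ (QV n)} (hE : InvS univ E) {a : ℕ} (h1 : 1 ≤ a)
    (h2 : 2 * a ≤ n) (hm : MaxS univ E a) {A : Finset (Fin n)} (hA : A.card = a) {v : QV n}
    (hv : v ∈ E) (hf : Fx A v) (q : Perm (Fin n)) :
    ∑ g ∈ (univ : Finset (Perm (Fin n))).filter (fun g => hit A (g⁻¹ * q * g) = 0),
        |⟪qrho n (g⁻¹ * q * g) v, v⟫_ℝ|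
      ≤ (((univ : Finset (Perm (Fin n))).filter (fun g => hit A (g⁻¹ * q * g) = 0)).card : ℝ)
        * (Real.sqrt (1 / ((n : ℝ) - 2 * a + 1) + 1 / (a : ℝ)) * ‖v‖ ^ 2) := by
  classical
  set T := (univ : Finset (Perm (Fin n))).filter (fun g => hit A (g⁻¹ * q * g) = 0) with hT
  have ha : (1 : ℝ) ≤ a := by exact_mod_cast h1
  have hn : (2 : ℝ) * a ≤ n := by exact_mod_cast h2
  set N : ℝ := (n : ℝ) - 2 * a + 1 with hN
  have hN1 : 1 ≤ N := by rw [hN]; linarith
  have hEρ : ∀ y : Perm (Fin n), ∀ w ∈ E, qrho n y w ∈ E := by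
    intro y
    induction y using Equiv.Perm.swap_induction_on with
    | one =>
      intro w hw
      rw [map_one]
      exact hw
    | swap_mul f x z _ ih =>
      intro w hw
      rw [map_mul]
      exact hE x (mem_univ _) z (mem_univ _) _ (ih w hw)
  -- the bound of one family
  have hD := dbl hA h1 h2 q (fun S => ‖zP E v S‖ ^ 2) ((1 + (N - 1) * (1 / a)) * ‖v‖ ^ 2) (by
    intro S hS hd x hx
    have hcx : (S.erase x).card = a - 1 := by rw [card_erase_of_mem hx, hS]
    have hdis : Disjoint A (S.erase x) := (hd.mono_left (erase_subset x S)).symm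
    have hcard : (univ \ (A ∪ S.erase x)).card = n - 2 * a + 1 := by
      rw [card_sdiff_of_subset (subset_univ _), card_union_of_disjoint hdis, hA, hcx, card_univ,
        Fintype.card_fin]
      omega
    have hcardR : ((univ \ (A ∪ S.erase x)).card : ℝ) = N := by
      rw [hcard, hN]
      push_cast [Nat.cast_sub h2]
      ring
    have hc : ∀ c ∈ univ \ (A ∪ S.erase x), c ∉ S.erase x := by
      intro c hc h
      exact (mem_sdiff.1 hc).2 (mem_union_right _ h)
    have hci : ∀ c ∈ univ \ (A ∪ S.erase x), (insert c (S.erase x)).card = a := by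
      intro c h
      rw [card_insert_of_notMem (hc c h), hcx]
      omega
    have h3 := bessel_like (univ \ (A ∪ S.erase x)) (by rw [hcard]; omega)
      (fun c => zP E v (insert c (S.erase x))) v (1 / a) (by positivity)
      (fun c _ => by
        have h4 := zP_mem E v (insert c (S.erase x))
        rw [zP_inner E v _ h4.1 h4.2, real_inner_self_eq_norm_sq])
      (fun c h c' h' hne => by
        refine orth_le hE h1 hm (hci c h) (hci c' h') ?_ (zP_mem E v _).1 (zP_mem E v _).2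
          (zP_mem E v _).2
        have h5 : insert c (S.erase x) ∩ insert c' (S.erase x) = S.erase x := by
          ext t
          simp only [mem_inter, mem_insert]
          constructor
          · rintro ⟨rfl | h6, rfl | h7⟩
            · exact absurd rfl hne
            · exact h7
            · exact h6
            · exact h6
          · intro h6
            exact ⟨Or.inr h6, Or.inr h6⟩
        rw [h5, hcx]
        omega)
    rw [hcardR] at h3
    exact h3)
  rw [← hT, ← hN] at hD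
  -- one term
  have hterm : ∀ g ∈ T, |⟪qrho n (g⁻¹ * q * g) v, v⟫_ℝ| ≤
      ‖v‖ * ‖zP E v (A.map (g⁻¹ * q * g).toEmbedding)‖ := by
    intro g _
    rw [zP_inner E v _ (hEρ _ v hv) (fx_move hf (g⁻¹ * q * g))]
    refine (abs_real_inner_le_norm _ _).trans ?_
    have h6 : ‖qrho n (g⁻¹ * q * g) v‖ = ‖v‖ := by
      have h7 := qrho_inner (n := n) (g⁻¹ * q * g) v v
      rw [real_inner_self_eq_norm_sq, real_inner_self_eq_norm_sq] at h7
      exact (sq_eq_sq₀ (norm_nonneg _) (norm_nonneg _)).1 h7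
    rw [h6]
  set Y : ℝ := ∑ g ∈ T, ‖zP E v (A.map (g⁻¹ * q * g).toEmbedding)‖ ^ 2 with hY
  set R : ℝ := Real.sqrt (1 / N + 1 / (a : ℝ)) with hR
  have hR0 : 0 ≤ R := Real.sqrt_nonneg _
  have hR2 : R ^ 2 = 1 / N + 1 / (a : ℝ) := Real.sq_sqrt (by positivity)
  have hYle : Y ≤ R ^ 2 * ‖v‖ ^ 2 * T.card := by
    have h3 : (1 + (N - 1) * (1 / a)) ≤ N * R ^ 2 := by
      rw [hR2]
      have h4 : N * (1 / N + 1 / (a : ℝ)) = 1 + N * (1 / a) := by
        field_simp
      rw [h4]
      have h5 : 0 ≤ 1 / (a : ℝ) := by positivity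
      linarith
    have h4 : N * Y ≤ N * (R ^ 2 * ‖v‖ ^ 2 * T.card) := by
      refine hD.trans ?_
      have h5 : 0 ≤ ‖v‖ ^ 2 * (T.card : ℝ) := by positivity
      nlinarith [mul_le_mul_of_nonneg_right h3 h5]
    exact le_of_mul_le_mul_left h4 (by linarith)
  have hsum : ∑ g ∈ T, ‖zP E v (A.map (g⁻¹ * q * g).toEmbedding)‖ ≤ R * ‖v‖ * T.card := by
    have h3 : (∑ g ∈ T, ‖zP E v (A.map (g⁻¹ * q * g).toEmbedding)‖) ^ 2 ≤ T.card * Y :=
      sq_sum_le_card_mul_sum_sq
    have h4 : (∑ g ∈ T, ‖zP E v (A.map (g⁻¹ * q * g).toEmbedding)‖) ^ 2 ≤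
        (R * ‖v‖ * T.card) ^ 2 := by
      refine h3.trans ?_
      have := mul_le_mul_of_nonneg_left hYle (Nat.cast_nonneg (α := ℝ) T.card)
      refine this.trans (le_of_eq ?_)
      ring
    exact (sq_le_sq₀ (sum_nonneg fun _ _ => norm_nonneg _) (by positivity)).1 h4
  calc ∑ g ∈ T, |⟪qrho n (g⁻¹ * q * g) v, v⟫_ℝ|
      ≤ ∑ g ∈ T, ‖v‖ * ‖zP E v (A.map (g⁻¹ * q * g).toEmbedding)‖ := sum_le_sum hterm
    _ = ‖v‖ * ∑ g ∈ T, ‖zP E v (A.map (g⁻¹ * q * g).toEmbedding)‖ := by rw [mul_sum]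
    _ ≤ ‖v‖ * (R * ‖v‖ * T.card) := mul_le_mul_of_nonneg_left hsum (norm_nonneg _)
    _ = T.card * (R * ‖v‖ ^ 2) := by ring

end Pool.H60.TA
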