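import Pool.Agent.H60.TA.Kappa
import Pool.Agent.H60.TA.Zero
import Pool.Agent.H60.TA.CntA
import Pool.Agent.H60.TA.CntB

set_option autoImplicit false

/-!
# Top scale, all `n`: small sets
-/

open Finset Equiv Pool.H98.BE Pool.H60.TP
open scoped InnerProductSpace

namespace Pool.H60.TA

private theorem Beta1_choose (a : ℕ) : ∀ s : ℕ, 0 < s → s < a → a ≤ a.choose s := by
  induction a with
  | zero => intro s _ h; omega
  | succ a ih =>
    intro s h1 h2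
    obtain ⟨t, rfl⟩ : ∃ t, s = t + 1 := ⟨s - 1, by omega⟩
    rcases Nat.lt_or_ge (t + 1) a with h3 | h3
    · have h4 := ih (t + 1) h1 h3
      have h5 : 0 < a.choose t := Nat.choose_pos (by omega)
      rw [Nat.choose_succ_succ']
      omega
    · have h4 : t + 1 = a := by omega
      rw [h4, Nat.choose_succ_self_right]

theorem beta_small {n : ℕ} {q : Perm (Fin n)} (hq : NoShort q 2) {E : Submodule ℝ (QV n)}
    {τ κ : ℝ} {a : ℕ} (h : Sit q E τ κ a) (h4 : 4 ≤ a) (h2 : 2 * a ≤ n) :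
    |κ| ≤ Real.sqrt (1 / ((n : ℝ) - 2 * a + 1) + 1 / (a : ℝ))
      + ((a : ℝ) - 1) * ((a : ℝ) - 2) * ((a : ℝ) - 3)
        / (((n : ℝ) - 1) * ((n : ℝ) - 2) * ((n : ℝ) - 3)) := by
  obtain ⟨A, hA, v, hv, hv0, hf⟩ := h.ex
  have ha4 : (4 : ℝ) ≤ a := by exact_mod_cast h4
  have hn2 : 2 * (a : ℝ) ≤ n := by exact_mod_cast h2
  obtain ⟨R, hR⟩ : ∃ R, R = Real.sqrt (1 / ((n : ℝ) - 2 * a + 1) + 1 / (a : ℝ)) := ⟨_, rfl⟩
  have hZ := zero_part h.inv (by omega) h2 h.max hA hv hf q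
  rw [← hR] at hZ ⊢
  have hR0 : 0 ≤ R := by rw [hR]; exact Real.sqrt_nonneg _
  have hRa : 1 / (a : ℝ) ≤ R := by
    rw [hR]
    refine Real.le_sqrt_of_sq_le ?_
    have h5 : 0 ≤ 1 / ((n : ℝ) - 2 * a + 1) := div_nonneg zero_le_one (by linarith)
    have h6 : (1 / (a : ℝ)) ^ 2 ≤ 1 / (a : ℝ) := by
      have h7 : 0 < 1 / (a : ℝ) := by positivity
      have h8 : 1 / (a : ℝ) ≤ 1 := by
        rw [div_le_one (by linarith)]
        linarith
      nlinarith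
    linarith
  have hvv : 0 < ‖v‖ ^ 2 := by
    have := norm_pos_iff.2 hv0
    positivity
  -- the bound of one term
  have hterm : ∀ g : Perm (Fin n), hit A (g⁻¹ * q * g) ≠ 0 →
      |⟪qrho n (g⁻¹ * q * g) v, v⟫_ℝ| ≤
        R * ‖v‖ ^ 2 + (if hit A (g⁻¹ * q * g) = a then 1 else 0) * ‖v‖ ^ 2 := by
    intro g hg
    have h5 := coeff_le h.inv h.max hA hv hf hf (g⁻¹ * q * g)
    have hle : hit A (g⁻¹ * q * g) ≤ a := by
      rw [← hA]
      exact Finset.card_filter_le _ _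
    split_ifs with h6
    · rw [h6, Nat.choose_self, Nat.cast_one, div_one] at h5
      have h7 : 0 ≤ R * ‖v‖ ^ 2 := mul_nonneg hR0 hvv.le
      nlinarith
    · have h7 := Beta1_choose a _ (Nat.pos_of_ne_zero hg) (lt_of_le_of_ne hle h6)
      have h8 : (a : ℝ) ≤ (a.choose (hit A (g⁻¹ * q * g)) : ℝ) := by exact_mod_cast h7
      have h9 : ‖v‖ * ‖v‖ / (a.choose (hit A (g⁻¹ * q * g)) : ℝ) ≤ ‖v‖ * ‖v‖ / (a : ℝ) :=
        div_le_div_of_nonneg_left (by positivity) (by linarith) h8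
      have h10 : ‖v‖ * ‖v‖ / (a : ℝ) = 1 / (a : ℝ) * ‖v‖ ^ 2 := by ring
      have h11 := mul_le_mul_of_nonneg_right hRa hvv.le
      rw [zero_mul, add_zero]
      linarith
  -- the sum
  have hsum : ∑ g : Perm (Fin n), |⟪qrho n (g⁻¹ * q * g) v, v⟫_ℝ| ≤
      (n.factorial : ℝ) * (R * ‖v‖ ^ 2) +
        (∑ g : Perm (Fin n), (if hit A (g⁻¹ * q * g) = a then (1 : ℝ) else 0)) * ‖v‖ ^ 2 := by
    rw [← Finset.sum_filter_add_sum_filter_not (univ : Finset (Perm (Fin n)))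
      (fun g => hit A (g⁻¹ * q * g) = 0)]
    have h5 : ∑ g ∈ (univ : Finset (Perm (Fin n))).filter (fun g => ¬ hit A (g⁻¹ * q * g) = 0),
        |⟪qrho n (g⁻¹ * q * g) v, v⟫_ℝ| ≤
        ∑ g ∈ (univ : Finset (Perm (Fin n))).filter (fun g => ¬ hit A (g⁻¹ * q * g) = 0),
          (R * ‖v‖ ^ 2 + (if hit A (g⁻¹ * q * g) = a then 1 else 0) * ‖v‖ ^ 2) :=
      Finset.sum_le_sum fun g hg => hterm g (Finset.mem_filter.1 hg).2
    rw [Finset.sum_add_distrib, Finset.sum_const, nsmul_eq_mul, ← Finset.sum_mul] at h5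
    have h6 : ∑ g ∈ (univ : Finset (Perm (Fin n))).filter (fun g => ¬ hit A (g⁻¹ * q * g) = 0),
        (if hit A (g⁻¹ * q * g) = a then (1 : ℝ) else 0) ≤
        ∑ g : Perm (Fin n), (if hit A (g⁻¹ * q * g) = a then (1 : ℝ) else 0) :=
      Finset.sum_le_sum_of_subset_of_nonneg (Finset.filter_subset _ _) fun g _ _ => by
        split_ifs <;> norm_num
    have h7 := mul_le_mul_of_nonneg_right h6 hvv.le
    have h8 := Finset.card_filter_add_card_filter_not (s := (univ : Finset (Perm (Fin n))))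
      (fun g => hit A (g⁻¹ * q * g) = 0)
    rw [Finset.card_univ, Fintype.card_perm, Fintype.card_fin] at h8
    have h9 : ((((univ : Finset (Perm (Fin n))).filter
        (fun g => hit A (g⁻¹ * q * g) = 0)).card : ℝ)) +
        (((univ : Finset (Perm (Fin n))).filter
        (fun g => ¬ hit A (g⁻¹ * q * g) = 0)).card : ℝ) = (n.factorial : ℝ) := by
      exact_mod_cast h8
    rw [← h9, add_mul]
    linarith
  have hko : (n.factorial : ℝ) * |κ| * ‖v‖ ^ 2 ≤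
      ∑ g : Perm (Fin n), |⟪qrho n (g⁻¹ * q * g) v, v⟫_ℝ| := by
    have h5 : ⟪KO q v, v⟫_ℝ = (n.factorial : ℝ) * κ * ‖v‖ ^ 2 := by
      rw [h.ko v hv, real_inner_smul_left, real_inner_self_eq_norm_sq]
    have h6 : (n.factorial : ℝ) * |κ| * ‖v‖ ^ 2 = |⟪KO q v, v⟫_ℝ| := by
      rw [h5, abs_mul, abs_mul, abs_of_nonneg hvv.le, Nat.abs_cast]
    rw [h6, KO_apply, sum_inner]
    exact Finset.abs_sum_le_sum_abs _ _
  have hcnt := sum_hit A q (fun s => if s = a then (1 : ℝ) else 0)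
  rw [hA] at hcnt
  have hinv : ∑ Y ∈ (univ : Finset (Fin n)).powersetCard a, (if hit Y q = a then (1 : ℝ) else 0) =
      (invn q a : ℝ) := by
    rw [invn, Finset.sum_boole]
  rw [hinv] at hcnt
  have hC : (0 : ℝ) < (n.choose a : ℝ) := by
    exact_mod_cast Nat.choose_pos (by omega)
  have hF : (0 : ℝ) < (n.factorial : ℝ) := by
    exact_mod_cast Nat.factorial_pos n
  obtain ⟨sg, hsg⟩ : ∃ sg : ℝ, sg = ∑ g : Perm (Fin n), (if hit A (g⁻¹ * q * g) = a then (1 : ℝ) else 0) :=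
    ⟨_, rfl⟩
  rw [← hsg] at hsum hcnt
  have h5 : (n.choose a : ℝ) * |κ| ≤ (n.choose a : ℝ) * R + (invn q a : ℝ) := by
    have h6 : ((n.factorial : ℝ) * ‖v‖ ^ 2) * ((n.choose a : ℝ) * |κ|) ≤
        ((n.factorial : ℝ) * ‖v‖ ^ 2) * ((n.choose a : ℝ) * R + (invn q a : ℝ)) := by
      have h7 := mul_le_mul_of_nonneg_left (hko.trans hsum) hC.le
      have h8 : (n.choose a : ℝ) * ((n.factorial : ℝ) * (R * ‖v‖ ^ 2) + sg * ‖v‖ ^ 2) =
          ((n.factorial : ℝ) * ‖v‖ ^ 2) * ((n.choose a : ℝ) * R) +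
            ((n.choose a : ℝ) * sg) * ‖v‖ ^ 2 := by ring
      rw [h8, hcnt] at h7
      linarith
    exact le_of_mul_le_mul_left h6 (by positivity)
  have h6 := invn_four hq h4 (by omega)
  have hD : 0 < ((n : ℝ) - 1) * ((n : ℝ) - 2) * ((n : ℝ) - 3) := by
    have h7 : 0 < (n : ℝ) - 3 := by linarith
    have h8 : 0 < (n : ℝ) - 2 := by linarith
    have h9 : 0 < (n : ℝ) - 1 := by linarith
    positivity
  have h7 : (invn q a : ℝ) ≤ ((a : ℝ) - 1) * ((a : ℝ) - 2) * ((a : ℝ) - 3)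
        / (((n : ℝ) - 1) * ((n : ℝ) - 2) * ((n : ℝ) - 3)) * (n.choose a : ℝ) := by
    rw [div_mul_eq_mul_div, le_div_iff₀ hD]
    linarith
  have h8 : |κ| * (n.choose a : ℝ) ≤ (R + ((a : ℝ) - 1) * ((a : ℝ) - 2) * ((a : ℝ) - 3)
        / (((n : ℝ) - 1) * ((n : ℝ) - 2) * ((n : ℝ) - 3))) * (n.choose a : ℝ) := by
    rw [add_mul]
    linarith
  exact le_of_mul_le_mul_right h8 hC

end Pool.H60.TA
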