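import Pool.Agent.H60.TA.Defs

set_option autoImplicit false

/-!
# Top scale, all `n`: counting sets with a complement of three points
-/

open Finset Equiv Pool.H98.BE Pool.H60.TP
open scoped InnerProductSpace

namespace Pool.H60.TA

private theorem cntT_split {n : ℕ} (q : Perm (Fin n)) (Y : Finset (Fin n)) :
    (Y.filter (fun x => q x ∉ Y)).card + hit Y q = Y.card := by
  unfold hit
  rw [add_comm]
  exact Finset.card_filter_add_card_filter_not (s := Y) (fun x => q x ∈ Y)

private theorem cntT_compl {n : ℕ} (q : Perm (Fin n)) (Y : Finset (Fin n)) :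
    Yᶜ.card ≤ (Yᶜ.filter (fun x => q x ∈ Yᶜ)).card + (Y.filter (fun x => q x ∉ Y)).card := by
  have h1 : Yᶜ.card ≤ (Yᶜ.filter (fun x => q x ∈ Yᶜ) ∪ Y.filter (fun x => q x ∉ Y)).card := by
    refine Finset.card_le_card_of_injOn (fun x => q⁻¹ x) ?_ ?_
    · intro x hx
      have hx' : x ∉ Y := by simpa using hx
      have hq : q (q⁻¹ x) = x := by simp
      simp only [Finset.coe_union, Set.mem_union, Finset.mem_coe, Finset.mem_filter,
        Finset.mem_compl]
      by_cases h : q⁻¹ x ∈ Y
      · right
        exact ⟨h, by rw [hq]; exact hx'⟩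
      · left
        exact ⟨h, by rw [hq]; exact hx'⟩
    · intro x _ y _ hxy
      exact (q⁻¹).injective hxy
  exact h1.trans (Finset.card_union_le _ _)

private theorem cntT_shape {n : ℕ} {q : Perm (Fin n)} (hq : NoShort q 2) (X : Finset (Fin n))
    (hX : X.card = 3) (h2 : 1 < (X.filter (fun x => q x ∈ X)).card) :
    ∃ y, X = {y, q y, q (q y)} := by
  obtain ⟨x1, h1, x2, h3, h12⟩ := Finset.one_lt_card.mp h2
  rw [Finset.mem_filter] at h1 h3
  have hfix : ∀ x, q x ≠ x := fun x => by
    have := hq 1 le_rfl (by norm_num) x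
    simpa using this
  have htwo : ∀ x, q (q x) ≠ x := fun x => by
    have := hq 2 (by norm_num) le_rfl x
    simpa [pow_two] using this
  by_cases hc : q x1 = x2
  · refine ⟨x1, (Finset.eq_of_subset_of_card_le ?_ ?_).symm⟩
    · intro z hz
      simp only [Finset.mem_insert, Finset.mem_singleton] at hz
      rcases hz with rfl | rfl | rfl
      · exact h1.1
      · exact h1.2
      · rw [hc]; exact h3.2
    · rw [hX, Finset.card_eq_three.mpr ⟨x1, q x1, q (q x1), (hfix x1).symm, (htwo x1).symm,
        fun h => hfix (q x1) h.symm, rfl⟩]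
  · have hXe : X = {x1, x2, q x1} := by
      refine (Finset.eq_of_subset_of_card_le ?_ ?_).symm
      · intro z hz
        simp only [Finset.mem_insert, Finset.mem_singleton] at hz
        rcases hz with rfl | rfl | rfl
        · exact h1.1
        · exact h3.1
        · exact h1.2
      · rw [hX, Finset.card_eq_three.mpr ⟨x1, x2, q x1, h12, (hfix x1).symm,
          fun h => hc h.symm, rfl⟩]
    have h4 : q x2 = x1 := by
      have h5 := h3.2
      rw [hXe] at h5
      simp only [Finset.mem_insert, Finset.mem_singleton] at h5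
      rcases h5 with h | h | h
      · exact h
      · exact absurd h (hfix x2)
      · exact absurd (q.injective h).symm h12
    refine ⟨x2, ?_⟩
    rw [h4, hXe]
    ext z
    simp only [Finset.mem_insert, Finset.mem_singleton]
    tauto

theorem hit_large_count {n : ℕ} {q : Perm (Fin n)} (hq : NoShort q 2) (hn : 6 ≤ n) :
    (((univ : Finset (Fin n)).powersetCard (n - 3)).filter (fun Y => n - 4 ≤ hit Y q)).card
      ≤ n := by
  have hsub : ((univ : Finset (Fin n)).powersetCard (n - 3)).filter (fun Y => n - 4 ≤ hit Y q)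
      ⊆ (univ : Finset (Fin n)).image (fun y => ({y, q y, q (q y)} : Finset (Fin n))ᶜ) := by
    intro Y hY
    rw [Finset.mem_filter, Finset.mem_powersetCard] at hY
    obtain ⟨⟨_, hc⟩, hh⟩ := hY
    have hX : Yᶜ.card = 3 := by
      rw [Finset.card_compl, Fintype.card_fin, hc]
      omega
    have h1 := cntT_split q Y
    have h2 := cntT_compl q Y
    obtain ⟨y, hy⟩ := cntT_shape hq Yᶜ hX (by omega)
    rw [Finset.mem_image]
    exact ⟨y, mem_univ y, by rw [← hy, compl_compl]⟩
  refine (Finset.card_le_card hsub).trans (Finset.card_image_le.trans ?_)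
  rw [Finset.card_univ, Fintype.card_fin]

theorem hit_ge {n : ℕ} {q : Perm (Fin n)} {a : ℕ} {Y : Finset (Fin n)} (hY : Y.card = a) :
    2 * a ≤ n + hit Y q := by
  have h1 := cntT_split q Y
  have h2 : (Y.filter (fun x => q x ∉ Y)).card ≤ Yᶜ.card := by
    refine Finset.card_le_card_of_injOn (fun x => q x) ?_ ?_
    · intro x hx
      have hx' := (Finset.mem_filter.mp (Finset.mem_coe.mp hx)).2
      simpa using hx'
    · intro x _ y _ hxy
      exact q.injective hxy
  rw [Finset.card_compl, Fintype.card_fin] at h2
  have h3 : Y.card ≤ n := by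
    have := Finset.card_le_univ Y
    rwa [Fintype.card_fin] at this
  omega

end Pool.H60.TA
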