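import Pool.Agent.H60.TA.Defs

set_option autoImplicit false

/-!
# Top scale, all `n`: counting sets without hits
-/

open Finset Equiv Pool.H98.BE Pool.H60.TP
open scoped InnerProductSpace

namespace Pool.H60.TA

/-- the number of sets of `a` points which contain `F`, as a choice number -/
private theorem cz_card {n a : ℕ} (F : Finset (Fin n)) (h : F.card ≤ a) :
    (((univ : Finset (Fin n)).powersetCard a).filter (fun Y => F ⊆ Y)).card
      = (n - F.card).choose (a - F.card) := by
  have e : ((univ : Finset (Fin n)).powersetCard a).filter (fun Y => F ⊆ Y)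
      = (powersetCard (a - F.card) Fᶜ).image (fun Z => F ∪ Z) := by
    ext Y
    rw [mem_filter, mem_powersetCard, mem_image]
    constructor
    · rintro ⟨⟨-, h2⟩, h3⟩
      refine ⟨Y \ F, ?_, ?_⟩
      · rw [mem_powersetCard]
        refine ⟨?_, ?_⟩
        · intro x hx
          rw [mem_compl]
          exact (mem_sdiff.1 hx).2
        · rw [card_sdiff_of_subset h3, h2]
      · exact union_sdiff_of_subset h3
    · rintro ⟨Z, hZ, rfl⟩
      rw [mem_powersetCard] at hZ
      refine ⟨⟨subset_univ _, ?_⟩, subset_union_left⟩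
      rw [card_union_of_disjoint, hZ.2]
      · omega
      · rw [disjoint_left]
        intro x hx hx'
        exact (mem_compl.1 (hZ.1 hx')) hx
  rw [e, card_image_of_injOn, card_powersetCard, card_compl, Fintype.card_fin]
  intro Z hZ W hW hZW
  have hZ' := (mem_powersetCard.1 (mem_coe.1 hZ)).1
  have hW' := (mem_powersetCard.1 (mem_coe.1 hW)).1
  have hZW' : F ∪ Z = F ∪ W := hZW
  ext x
  constructor
  · intro hx
    have h1 : x ∈ F ∪ W := hZW' ▸ mem_union_right _ hx
    rcases mem_union.1 h1 with h2 | h2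
    · exact absurd h2 (mem_compl.1 (hZ' hx))
    · exact h2
  · intro hx
    have h1 : x ∈ F ∪ Z := hZW' ▸ mem_union_right _ hx
    rcases mem_union.1 h1 with h2 | h2
    · exact absurd h2 (mem_compl.1 (hW' hx))
    · exact h2

private theorem cz_choose {n a : ℕ} (h : a ≤ n) (k : ℕ) (hk : k ≤ a) :
    ((n - k).choose (a - k) : ℝ) * ∏ i ∈ range k, ((n : ℝ) - (i : ℝ))
      = (∏ i ∈ range k, ((a : ℝ) - (i : ℝ))) * (n.choose a : ℝ) := by
  induction k with
  | zero => simp
  | succ k ih =>
    have ih' := ih (by omega)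
    rw [prod_range_succ, prod_range_succ]
    have h1 : ((n - k).choose (a - k) : ℝ) * ((a : ℝ) - (k : ℝ))
        = ((n - (k + 1)).choose (a - (k + 1)) : ℝ) * ((n : ℝ) - (k : ℝ)) := by
      obtain ⟨n', hn'⟩ : ∃ n', n - k = n' + 1 := ⟨n - k - 1, by omega⟩
      obtain ⟨a', ha'⟩ : ∃ a', a - k = a' + 1 := ⟨a - k - 1, by omega⟩
      have e1 : n - (k + 1) = n' := by omega
      have e2 : a - (k + 1) = a' := by omega
      have e3 : (n : ℝ) - (k : ℝ) = (n' : ℝ) + 1 := by
        have : (n : ℝ) = ((n' + 1 + k : ℕ) : ℝ) := by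
          congr 1
          omega
        rw [this]
        push_cast
        ring
      have e4 : (a : ℝ) - (k : ℝ) = (a' : ℝ) + 1 := by
        have : (a : ℝ) = ((a' + 1 + k : ℕ) : ℝ) := by
          congr 1
          omega
        rw [this]
        push_cast
        ring
      rw [e1, e2, hn', ha', e3, e4]
      have h2 := Nat.add_one_mul_choose_eq n' a'
      have h3 : ((((n' + 1) * n'.choose a' : ℕ)) : ℝ)
          = (((n' + 1).choose (a' + 1) * (a' + 1) : ℕ) : ℝ) := by rw [h2]
      push_cast at h3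
      linarith
    calc ((n - (k + 1)).choose (a - (k + 1)) : ℝ)
          * ((∏ i ∈ range k, ((n : ℝ) - (i : ℝ))) * ((n : ℝ) - (k : ℝ)))
        = (((n - (k + 1)).choose (a - (k + 1)) : ℝ) * ((n : ℝ) - (k : ℝ)))
          * ∏ i ∈ range k, ((n : ℝ) - (i : ℝ)) := by ring
      _ = (((n - k).choose (a - k) : ℝ) * ∏ i ∈ range k, ((n : ℝ) - (i : ℝ)))
          * ((a : ℝ) - (k : ℝ)) := by rw [← h1]; ring
      _ = _ := by rw [ih']; ring

private theorem cz_cnt {n a : ℕ} (h : a ≤ n) (F : Finset (Fin n)) :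
    ((((univ : Finset (Fin n)).powersetCard a).filter (fun Y => F ⊆ Y)).card : ℝ)
        * ∏ i ∈ range F.card, ((n : ℝ) - (i : ℝ))
      = (∏ i ∈ range F.card, ((a : ℝ) - (i : ℝ))) * (n.choose a : ℝ) := by
  by_cases hk : F.card ≤ a
  · rw [cz_card F hk]
    exact cz_choose h F.card hk
  · have h0 : ((univ : Finset (Fin n)).powersetCard a).filter (fun Y => F ⊆ Y) = ∅ := by
      rw [filter_eq_empty_iff]
      intro Y hY hFY
      rw [mem_powersetCard] at hY
      have := card_le_card hFY
      omega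
    have h1 : ∏ i ∈ range F.card, ((a : ℝ) - (i : ℝ)) = 0 :=
      prod_eq_zero (mem_range.2 (by omega : a < F.card)) (sub_self _)
    rw [h0, h1]
    simp

private theorem cz_hit {n : ℕ} (q : Perm (Fin n)) (Y : Finset (Fin n)) :
    (hit Y q : ℝ) = ∑ y : Fin n, if ({y, q y} : Finset (Fin n)) ⊆ Y then (1 : ℝ) else 0 := by
  rw [sum_boole]
  congr 1
  unfold hit
  congr 1
  ext y
  rw [mem_filter, mem_filter, insert_subset_iff, singleton_subset_iff]
  simp

private theorem cz_sum {n : ℕ} (a : ℕ) (F : Finset (Fin n)) :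
    (∑ Y ∈ (univ : Finset (Fin n)).powersetCard a, if F ⊆ Y then (1 : ℝ) else 0)
      = ((((univ : Finset (Fin n)).powersetCard a).filter (fun Y => F ⊆ Y)).card : ℝ) := by
  rw [sum_boole]

theorem hit_zero_count {n : ℕ} {q : Perm (Fin n)} (hq : NoShort q 2) {a : ℕ} (h1 : 2 ≤ a)
    (h2 : 2 * a ≤ n) :
    (a : ℝ) * ((a : ℝ) - 1)
        * ((((univ : Finset (Fin n)).powersetCard a).filter (fun Y => hit Y q = 0)).card : ℝ)
      ≤ 2 * ((n : ℝ) - 1) * (n.choose a : ℝ) := by
  have han : a ≤ n := by omega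
  have hq1 : ∀ x, q x ≠ x := fun x => by
    have := hq 1 le_rfl (by omega) x
    rwa [pow_one] at this
  have hq2 : ∀ x, q (q x) ≠ x := fun x => by
    have := hq 2 (by omega) le_rfl x
    rwa [pow_two, Perm.mul_apply] at this
  have hA : (2 : ℝ) ≤ (a : ℝ) := by exact_mod_cast h1
  have hAn : 2 * (a : ℝ) ≤ (n : ℝ) := by exact_mod_cast h2
  set N : ℝ := (n.choose a : ℝ) with hN
  have hN0 : 0 ≤ N := Nat.cast_nonneg _
  set P : Finset (Finset (Fin n)) := (univ : Finset (Fin n)).powersetCard a with hP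
  have hPN : (P.card : ℝ) = N := by rw [hP, card_powersetCard, card_univ, Fintype.card_fin]
  -- the numbers of sets over two, three and four points
  set c : Finset (Fin n) → ℝ := fun F => ((P.filter (fun Y => F ⊆ Y)).card : ℝ) with hc
  have n1 : (n : ℝ) - 1 ≠ 0 := by linarith
  have n0 : (n : ℝ) ≠ 0 := by linarith
  have n2 : (n : ℝ) - 2 ≠ 0 := by linarith
  have n3 : (n : ℝ) - 3 ≠ 0 := by linarith
  set c2 : ℝ := (a : ℝ) * ((a : ℝ) - 1) / ((n : ℝ) * ((n : ℝ) - 1)) * N with hc2
  set c3 : ℝ := (a : ℝ) * ((a : ℝ) - 1) * ((a : ℝ) - 2)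
    / ((n : ℝ) * ((n : ℝ) - 1) * ((n : ℝ) - 2)) * N with hc3
  set c4 : ℝ := (a : ℝ) * ((a : ℝ) - 1) * ((a : ℝ) - 2) * ((a : ℝ) - 3)
    / ((n : ℝ) * ((n : ℝ) - 1) * ((n : ℝ) - 2) * ((n : ℝ) - 3)) * N with hc4
  have k2 : ∀ F : Finset (Fin n), F.card = 2 → c F = c2 := by
    intro F hF
    have h := cz_cnt han F
    rw [hF] at h
    simp only [prod_range_succ, prod_range_zero, Nat.cast_zero, Nat.cast_one, sub_zero,
      one_mul] at h
    rw [hc2, div_mul_eq_mul_div, eq_div_iff (mul_ne_zero n0 n1)]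
    exact h
  have k3 : ∀ F : Finset (Fin n), F.card = 3 → c F = c3 := by
    intro F hF
    have h := cz_cnt han F
    rw [hF] at h
    simp only [prod_range_succ, prod_range_zero, Nat.cast_zero, Nat.cast_one, sub_zero,
      one_mul, Nat.cast_ofNat] at h
    rw [hc3, div_mul_eq_mul_div, eq_div_iff (mul_ne_zero (mul_ne_zero n0 n1) n2)]
    exact h
  have k4 : ∀ F : Finset (Fin n), F.card = 4 → c F = c4 := by
    intro F hF
    have h := cz_cnt han F
    rw [hF] at h
    simp only [prod_range_succ, prod_range_zero, Nat.cast_zero, Nat.cast_one, sub_zero,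
      one_mul, Nat.cast_ofNat] at h
    rw [hc4, div_mul_eq_mul_div,
      eq_div_iff (mul_ne_zero (mul_ne_zero (mul_ne_zero n0 n1) n2) n3)]
    exact h
  -- the first moment
  have m1 : ∑ Y ∈ P, (hit Y q : ℝ) = (n : ℝ) * c2 := by
    calc ∑ Y ∈ P, (hit Y q : ℝ)
        = ∑ Y ∈ P, ∑ y : Fin n, (if ({y, q y} : Finset (Fin n)) ⊆ Y then (1 : ℝ) else 0) :=
          sum_congr rfl fun Y _ => cz_hit q Y
      _ = ∑ y : Fin n, ∑ Y ∈ P, (if ({y, q y} : Finset (Fin n)) ⊆ Y then (1 : ℝ) else 0) :=
          sum_comm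
      _ = ∑ y : Fin n, c2 := by
          refine sum_congr rfl fun y _ => ?_
          rw [hP, cz_sum]
          exact k2 {y, q y} (card_pair (hq1 y).symm)
      _ = (n : ℝ) * c2 := by
          rw [sum_const, card_univ, Fintype.card_fin, nsmul_eq_mul]
  -- the second moment
  have val : ∀ y z : Fin n, c ({y, q y} ∪ {z, q z})
      = c4 + (if z = y then c2 - c4 else 0) + (if z = q y then c3 - c4 else 0)
        + (if z = q⁻¹ y then c3 - c4 else 0) := by
    intro y z
    by_cases e1 : z = y
    · subst e1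
      rw [if_pos rfl, if_neg (hq1 z).symm, if_neg (fun h => hq1 z (by
        conv_lhs => rw [h]
        simp)), union_self, k2 _ (card_pair (hq1 z).symm)]
      ring
    · rw [if_neg e1]
      by_cases e2 : z = q y
      · subst e2
        rw [if_pos rfl, if_neg (fun h => hq2 y (by
          rw [h]
          simp))]
        rw [k3]
        · ring
        · have : ({y, q y} ∪ {q y, q (q y)} : Finset (Fin n)) = {y, q y, q (q y)} := by
            ext x
            simp only [mem_union, mem_insert, mem_singleton]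
            tauto
          rw [this]
          exact card_eq_three.2 ⟨y, q y, q (q y), (hq1 y).symm, (hq2 y).symm,
            (hq1 (q y)).symm, rfl⟩
      · rw [if_neg e2]
        by_cases e3 : z = q⁻¹ y
        · have e4 : y = q z := by
            rw [e3]
            simp
          rw [if_pos e3, k3]
          · ring
          · rw [e4]
            have : ({q z, q (q z)} ∪ {z, q z} : Finset (Fin n)) = {z, q z, q (q z)} := by
              ext x
              simp only [mem_union, mem_insert, mem_singleton]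
              tauto
            rw [this]
            exact card_eq_three.2 ⟨z, q z, q (q z), (hq1 z).symm, (hq2 z).symm,
              (hq1 (q z)).symm, rfl⟩
        · rw [if_neg e3, k4]
          · ring
          · have e4 : y ≠ q z := by
              intro h
              apply e3
              rw [h]
              simp
            rw [card_union_of_disjoint, card_pair (hq1 y).symm, card_pair (hq1 z).symm]
            rw [disjoint_left]
            intro x hx hx'
            simp only [mem_insert, mem_singleton] at hx hx'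
            rcases hx with rfl | rfl
            · rcases hx' with h | h
              · exact e1 h.symm
              · exact e4 h
            · rcases hx' with h | h
              · exact e2 h.symm
              · exact e1 (q.injective h).symm
  have m2 : ∑ Y ∈ P, (hit Y q : ℝ) ^ 2
      = (n : ℝ) * ((n : ℝ) * c4 + (c2 - c4) + (c3 - c4) + (c3 - c4)) := by
    calc ∑ Y ∈ P, (hit Y q : ℝ) ^ 2
        = ∑ Y ∈ P, ∑ y : Fin n, ∑ z : Fin n,
            (if ({y, q y} ∪ {z, q z} : Finset (Fin n)) ⊆ Y then (1 : ℝ) else 0) := by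
          refine sum_congr rfl fun Y _ => ?_
          rw [cz_hit q Y, sq, sum_mul_sum]
          refine sum_congr rfl fun y _ => sum_congr rfl fun z _ => ?_
          by_cases i1 : ({y, q y} : Finset (Fin n)) ⊆ Y
          · by_cases i2 : ({z, q z} : Finset (Fin n)) ⊆ Y
            · rw [if_pos i1, if_pos i2, if_pos (union_subset i1 i2), one_mul]
            · rw [if_neg i2, if_neg (fun h => i2 (subset_union_right.trans h)), mul_zero]
          · rw [if_neg i1, if_neg (fun h => i1 (subset_union_left.trans h)), zero_mul]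
      _ = ∑ y : Fin n, ∑ z : Fin n, ∑ Y ∈ P,
            (if ({y, q y} ∪ {z, q z} : Finset (Fin n)) ⊆ Y then (1 : ℝ) else 0) := by
          rw [sum_comm]
          exact sum_congr rfl fun y _ => sum_comm
      _ = ∑ y : Fin n, ∑ z : Fin n, (c4 + (if z = y then c2 - c4 else 0)
            + (if z = q y then c3 - c4 else 0) + (if z = q⁻¹ y then c3 - c4 else 0)) := by
          refine sum_congr rfl fun y _ => sum_congr rfl fun z _ => ?_
          rw [hP, cz_sum]
          exact val y z
      _ = ∑ y : Fin n, ((n : ℝ) * c4 + (c2 - c4) + (c3 - c4) + (c3 - c4)) := by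
          refine sum_congr rfl fun y _ => ?_
          rw [sum_add_distrib, sum_add_distrib, sum_add_distrib, sum_const, card_univ,
            Fintype.card_fin, nsmul_eq_mul, sum_ite_eq' univ y, sum_ite_eq' univ (q y),
            sum_ite_eq' univ (q⁻¹ y), if_pos (mem_univ _), if_pos (mem_univ _),
            if_pos (mem_univ _)]
      _ = _ := by
          rw [sum_const, card_univ, Fintype.card_fin, nsmul_eq_mul]
  -- Chebyshev
  set m : ℝ := (a : ℝ) * ((a : ℝ) - 1) / ((n : ℝ) - 1) with hm
  have hm0 : 0 < m := by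
    rw [hm]
    refine div_pos (mul_pos (by linarith) (by linarith)) (by linarith)
  have hmc : (n : ℝ) * c2 = m * N := by
    rw [hc2, hm]
    field_simp
  set Z : ℝ := ((P.filter (fun Y => hit Y q = 0)).card : ℝ) with hZ
  have hZ0 : 0 ≤ Z := Nat.cast_nonneg _
  have hch : m ^ 2 * Z ≤ ∑ Y ∈ P, ((hit Y q : ℝ) - m) ^ 2 := by
    calc m ^ 2 * Z = ∑ Y ∈ P.filter (fun Y => hit Y q = 0), ((hit Y q : ℝ) - m) ^ 2 := by
          rw [sum_congr rfl (fun Y hY => by
            rw [(mem_filter.1 hY).2] : ∀ Y ∈ P.filter (fun Y => hit Y q = 0),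
              ((hit Y q : ℝ) - m) ^ 2 = (((0 : ℕ) : ℝ) - m) ^ 2), sum_const, nsmul_eq_mul, hZ]
          push_cast
          ring
      _ ≤ ∑ Y ∈ P, ((hit Y q : ℝ) - m) ^ 2 :=
          sum_le_sum_of_subset_of_nonneg (filter_subset _ _) fun _ _ _ => sq_nonneg _
  have hvar : ∑ Y ∈ P, ((hit Y q : ℝ) - m) ^ 2
      = (n : ℝ) * ((n : ℝ) * c4 + (c2 - c4) + (c3 - c4) + (c3 - c4)) - m ^ 2 * N := by
    have e : ∀ Y ∈ P, ((hit Y q : ℝ) - m) ^ 2
        = (hit Y q : ℝ) ^ 2 - 2 * m * (hit Y q : ℝ) + m ^ 2 := fun Y _ => by ring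
    rw [sum_congr rfl e, sum_add_distrib, sum_sub_distrib, ← mul_sum, m1, m2, hmc, sum_const,
      nsmul_eq_mul, hPN]
    ring
  have hbd : (n : ℝ) * ((n : ℝ) * c4 + (c2 - c4) + (c3 - c4) + (c3 - c4)) - m ^ 2 * N
      ≤ m * N := by
    have e : (n : ℝ) * ((n : ℝ) * c4 + (c2 - c4) + (c3 - c4) + (c3 - c4)) - m ^ 2 * N
        = m * N - m * N * (((a : ℝ) - 1) * (2 * (n : ℝ) - (a : ℝ) - 2)
          / (((n : ℝ) - 1) * ((n : ℝ) - 2))) := by
      rw [hc2, hc3, hc4, hm]
      field_simp
      ring
    rw [e]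
    have : 0 ≤ m * N * (((a : ℝ) - 1) * (2 * (n : ℝ) - (a : ℝ) - 2)
          / (((n : ℝ) - 1) * ((n : ℝ) - 2))) := by
      refine mul_nonneg (mul_nonneg hm0.le hN0) (div_nonneg (mul_nonneg ?_ ?_)
        (mul_nonneg ?_ ?_)) <;> linarith
    linarith
  have hfin : m * Z ≤ N := by
    have h3 : m * (m * Z) ≤ m * N := by
      calc m * (m * Z) = m ^ 2 * Z := by ring
        _ ≤ m * N := hch.trans (hvar.le.trans hbd)
    exact le_of_mul_le_mul_left h3 hm0
  have hmn : (a : ℝ) * ((a : ℝ) - 1) = m * ((n : ℝ) - 1) := by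
    rw [hm, div_mul_cancel₀ _ n1]
  have hn1 : 0 ≤ (n : ℝ) - 1 := by linarith
  calc (a : ℝ) * ((a : ℝ) - 1) * Z = ((n : ℝ) - 1) * (m * Z) := by
        rw [hmn]
        ring
    _ ≤ ((n : ℝ) - 1) * N := mul_le_mul_of_nonneg_left hfin hn1
    _ ≤ 2 * ((n : ℝ) - 1) * N := by
        have := mul_nonneg hn1 hN0
        linarith

end Pool.H60.TA
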