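import Pool.Agent.H60.TA.Kappa
import Pool.Agent.H60.TA.CntA
import Pool.Agent.H60.TA.CntB
import Pool.Agent.H60.TA.CntZ
import Pool.Agent.H60.TA.CntT

set_option autoImplicit false

/-!
# Top scale, all `n`: large sets
-/

open Finset Equiv Pool.H98.BE Pool.H60.TP
open scoped InnerProductSpace

namespace Pool.H60.TA

private lemma b2_choose_ge (a s : ℕ) (h1 : 1 ≤ s) (h2 : s + 1 ≤ a) : a ≤ a.choose s := by
  induction a generalizing s with
  | zero => omega
  | succ a ih =>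
    obtain ⟨t, rfl⟩ : ∃ t, s = t + 1 := ⟨s - 1, by omega⟩
    rw [Nat.choose_succ_succ']
    rcases Nat.eq_zero_or_pos t with h | h
    · subst h
      simp only [Nat.choose_zero_right, zero_add, Nat.choose_one_right]
      omega
    · have h3 := ih t h (by omega)
      have h4 : 0 < a.choose (t + 1) := Nat.choose_pos (by omega)
      omega

private lemma b2_hit_le {n : ℕ} (q : Perm (Fin n)) {a : ℕ} {Y : Finset (Fin n)}
    (hY : Y.card = a) : hit Y q ≤ a := by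
  unfold hit
  rw [← hY]
  exact Finset.card_filter_le _ _

/-- the term of a set which is hit at least once, and at most `a - 1` times -/
private lemma b2_term {a s : ℕ} (h1 : 1 ≤ s) (h2 : s + 1 ≤ a) :
    1 / (a.choose s : ℝ) ≤ 1 / (a : ℝ) := by
  have h3 : (0 : ℝ) < a := by
    have : 0 < a := by omega
    exact_mod_cast this
  have h4 : (a : ℝ) ≤ (a.choose s : ℝ) := by exact_mod_cast b2_choose_ge a s h1 h2
  exact one_div_le_one_div_of_le h3 h4

private lemma b2_term_le_one (a s : ℕ) : 1 / (a.choose s : ℝ) ≤ 1 := by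
  rcases Nat.eq_zero_or_pos (a.choose s) with h | h
  · rw [h]; simp
  · have h1 : (1 : ℝ) ≤ (a.choose s : ℝ) := by exact_mod_cast h
    rw [div_le_one (by linarith)]
    exact h1

/-- the sum when all sets are hit -/
private lemma b2_sum_large {n : ℕ} (q : Perm (Fin n)) {a : ℕ} (ha : 1 ≤ a)
    (hh : ∀ Y ∈ (univ : Finset (Fin n)).powersetCard a, 1 ≤ hit Y q) :
    ∑ Y ∈ (univ : Finset (Fin n)).powersetCard a, 1 / (a.choose (hit Y q) : ℝ)
      ≤ (n.choose a : ℝ) * (1 / (a : ℝ)) + (invn q a : ℝ) := by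
  have h0 : ∀ Y ∈ (univ : Finset (Fin n)).powersetCard a,
      1 / (a.choose (hit Y q) : ℝ) ≤ 1 / (a : ℝ) + (if hit Y q = a then (1 : ℝ) else 0) := by
    intro Y hY
    have hc : Y.card = a := (Finset.mem_powersetCard.1 hY).2
    have hle := b2_hit_le q hc
    have hpos : (0 : ℝ) ≤ 1 / (a : ℝ) := by positivity
    by_cases he : hit Y q = a
    · rw [if_pos he]
      have := b2_term_le_one a (hit Y q)
      linarith
    · rw [if_neg he, add_zero]
      exact b2_term (hh Y hY) (by omega)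
  refine (Finset.sum_le_sum h0).trans (le_of_eq ?_)
  rw [Finset.sum_add_distrib, Finset.sum_const, Finset.card_powersetCard, Finset.card_univ,
    Fintype.card_fin, nsmul_eq_mul, ← Finset.sum_filter, Finset.sum_const, nsmul_eq_mul, mul_one]
  rfl

/-- the sum in general -/
private lemma b2_sum_mid {n : ℕ} (q : Perm (Fin n)) {a : ℕ} (ha : 1 ≤ a) :
    ∑ Y ∈ (univ : Finset (Fin n)).powersetCard a, 1 / (a.choose (hit Y q) : ℝ)
      ≤ (n.choose a : ℝ) * (1 / (a : ℝ)) + (invn q a : ℝ)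
        + ((((univ : Finset (Fin n)).powersetCard a).filter (fun Y => hit Y q = 0)).card : ℝ) := by
  have h0 : ∀ Y ∈ (univ : Finset (Fin n)).powersetCard a,
      1 / (a.choose (hit Y q) : ℝ) ≤ 1 / (a : ℝ) + (if hit Y q = a then (1 : ℝ) else 0)
        + (if hit Y q = 0 then (1 : ℝ) else 0) := by
    intro Y hY
    have hc : Y.card = a := (Finset.mem_powersetCard.1 hY).2
    have hle := b2_hit_le q hc
    have hpos : (0 : ℝ) ≤ 1 / (a : ℝ) := by positivity
    have h1 := b2_term_le_one a (hit Y q)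
    by_cases he : hit Y q = a
    · rw [if_pos he]
      have h2 : (0 : ℝ) ≤ (if hit Y q = 0 then (1 : ℝ) else 0) := by split_ifs <;> norm_num
      linarith
    · rw [if_neg he, add_zero]
      by_cases hz : hit Y q = 0
      · rw [if_pos hz]
        linarith
      · rw [if_neg hz, add_zero]
        exact b2_term (by omega) (by omega)
  refine (Finset.sum_le_sum h0).trans (le_of_eq ?_)
  rw [Finset.sum_add_distrib, Finset.sum_add_distrib, Finset.sum_const,
    Finset.card_powersetCard, Finset.card_univ,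
    Fintype.card_fin, nsmul_eq_mul, ← Finset.sum_filter, Finset.sum_const, nsmul_eq_mul, mul_one,
    ← Finset.sum_filter, Finset.sum_const, nsmul_eq_mul, mul_one]
  rfl

theorem beta_mid {n : ℕ} {q : Perm (Fin n)} (hq : NoShort q 2) {E : Submodule ℝ (QV n)}
    {τ κ : ℝ} {a : ℕ} (h : Sit q E τ κ a) (h4 : 4 ≤ a) (h2 : 2 * a ≤ n) :
    |κ| ≤ 2 * ((n : ℝ) - 1) / ((a : ℝ) * ((a : ℝ) - 1)) + 1 / (a : ℝ)
      + ((a : ℝ) - 1) * ((a : ℝ) - 2) * ((a : ℝ) - 3)
        / (((n : ℝ) - 1) * ((n : ℝ) - 2) * ((n : ℝ) - 3)) := by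
  have hC : (0 : ℝ) < (n.choose a : ℝ) := by
    exact_mod_cast Nat.choose_pos (show a ≤ n by omega)
  have ha : (4 : ℝ) ≤ (a : ℝ) := by exact_mod_cast h4
  have hn : (8 : ℝ) ≤ (n : ℝ) := by exact_mod_cast (show 8 ≤ n by omega)
  have hk := kappa_le h
  have hs := b2_sum_mid q (show 1 ≤ a by omega)
  have hi := invn_four hq h4 (show a ≤ n by omega)
  have hz := hit_zero_count hq (show 2 ≤ a by omega) h2
  set N0 : ℝ := ((((univ : Finset (Fin n)).powersetCard a).filter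
    (fun Y => hit Y q = 0)).card : ℝ) with hN0
  set N1 : ℝ := (invn q a : ℝ) with hN1
  set C : ℝ := (n.choose a : ℝ) with hCd
  have hd1 : (0 : ℝ) < (a : ℝ) * ((a : ℝ) - 1) := by nlinarith
  have hd2 : (0 : ℝ) < ((n : ℝ) - 1) * ((n : ℝ) - 2) * ((n : ℝ) - 3) := by
    have e1 : (0 : ℝ) < (n : ℝ) - 1 := by linarith
    have e2 : (0 : ℝ) < (n : ℝ) - 2 := by linarith
    have e3 : (0 : ℝ) < (n : ℝ) - 3 := by linarith
    positivity
  have hz' : N0 ≤ C * (2 * ((n : ℝ) - 1) / ((a : ℝ) * ((a : ℝ) - 1))) := by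
    rw [← mul_div_assoc, le_div_iff₀ hd1]
    linarith
  have hi' : N1 ≤ C * (((a : ℝ) - 1) * ((a : ℝ) - 2) * ((a : ℝ) - 3)
        / (((n : ℝ) - 1) * ((n : ℝ) - 2) * ((n : ℝ) - 3))) := by
    rw [← mul_div_assoc, le_div_iff₀ hd2]
    linarith
  refine le_of_mul_le_mul_left ?_ hC
  calc C * |κ| ≤ C * (1 / (a : ℝ)) + N1 + N0 := hk.trans hs
    _ ≤ C * (1 / (a : ℝ)) + C * (((a : ℝ) - 1) * ((a : ℝ) - 2) * ((a : ℝ) - 3)
        / (((n : ℝ) - 1) * ((n : ℝ) - 2) * ((n : ℝ) - 3)))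
        + C * (2 * ((n : ℝ) - 1) / ((a : ℝ) * ((a : ℝ) - 1))) := by linarith
    _ = _ := by ring

/-- the count of the invariant sets, seen from the complement; all sets are hit -/
private lemma b2_large_aux {n : ℕ} {q : Perm (Fin n)} {E : Submodule ℝ (QV n)}
    {τ κ : ℝ} {a : ℕ} (h : Sit q E τ κ a) (hn : a ≤ n) (h2 : n < 2 * a) :
    (n.choose a : ℝ) * |κ| ≤ (n.choose a : ℝ) * (1 / (a : ℝ)) + (invn q (n - a) : ℝ) := by
  have hk := kappa_le h
  have hs := b2_sum_large q (show 1 ≤ a by omega) (by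
    intro Y hY
    have hc : Y.card = a := (Finset.mem_powersetCard.1 hY).2
    have := hit_ge (q := q) hc
    omega)
  rw [invn_compl q hn]
  exact hk.trans hs

theorem beta_large {n : ℕ} {q : Perm (Fin n)} (hq : NoShort q 2) {E : Submodule ℝ (QV n)}
    {τ κ : ℝ} {a : ℕ} (h : Sit q E τ κ a) (h4 : a + 4 ≤ n) (h2 : n < 2 * a) :
    |κ| ≤ 1 / (a : ℝ)
      + ((n : ℝ) - a - 1) * ((n : ℝ) - a - 2) * ((n : ℝ) - a - 3)
        / (((n : ℝ) - 1) * ((n : ℝ) - 2) * ((n : ℝ) - 3)) := by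
  have hC : (0 : ℝ) < (n.choose a : ℝ) := by
    exact_mod_cast Nat.choose_pos (show a ≤ n by omega)
  have hx := b2_large_aux h (show a ≤ n by omega) h2
  have hi := invn_four hq (show 4 ≤ n - a by omega) (show n - a ≤ n by omega)
  rw [Nat.choose_symm (show a ≤ n by omega), Nat.cast_sub (show a ≤ n by omega)] at hi
  have hn : (5 : ℝ) ≤ (n : ℝ) := by exact_mod_cast (show 5 ≤ n by omega)
  have hd2 : (0 : ℝ) < ((n : ℝ) - 1) * ((n : ℝ) - 2) * ((n : ℝ) - 3) := by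
    have e1 : (0 : ℝ) < (n : ℝ) - 1 := by linarith
    have e2 : (0 : ℝ) < (n : ℝ) - 2 := by linarith
    have e3 : (0 : ℝ) < (n : ℝ) - 3 := by linarith
    positivity
  set N1 : ℝ := (invn q (n - a) : ℝ) with hN1
  set C : ℝ := (n.choose a : ℝ) with hCd
  have hi' : N1 ≤ C * (((n : ℝ) - a - 1) * ((n : ℝ) - a - 2) * ((n : ℝ) - a - 3)
        / (((n : ℝ) - 1) * ((n : ℝ) - 2) * ((n : ℝ) - 3))) := by
    rw [← mul_div_assoc, le_div_iff₀ hd2]
    linarith
  refine le_of_mul_le_mul_left ?_ hC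
  calc C * |κ| ≤ C * (1 / (a : ℝ)) + N1 := hx
    _ ≤ C * (1 / (a : ℝ)) + C * (((n : ℝ) - a - 1) * ((n : ℝ) - a - 2) * ((n : ℝ) - a - 3)
        / (((n : ℝ) - 1) * ((n : ℝ) - 2) * ((n : ℝ) - 3))) := by linarith
    _ = _ := by ring

theorem beta_large' {n : ℕ} {q : Perm (Fin n)} (hq : NoShort q 2) {E : Submodule ℝ (QV n)}
    {τ κ : ℝ} {a : ℕ} (h : Sit q E τ κ a) (h1 : a + 1 ≤ n) (hn : 3 ≤ n) (h2 : n < 2 * a) :
    |κ| ≤ 1 / (a : ℝ)
      + ((n : ℝ) - a - 1) * ((n : ℝ) - a - 2) / (((n : ℝ) - 1) * ((n : ℝ) - 2)) := by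
  have hC : (0 : ℝ) < (n.choose a : ℝ) := by
    exact_mod_cast Nat.choose_pos (show a ≤ n by omega)
  have hx := b2_large_aux h (show a ≤ n by omega) h2
  have hi := invn_three hq (show 1 ≤ n - a by omega) (show n - a ≤ n by omega)
  rw [Nat.choose_symm (show a ≤ n by omega), Nat.cast_sub (show a ≤ n by omega)] at hi
  have hn' : (3 : ℝ) ≤ (n : ℝ) := by exact_mod_cast hn
  have hd2 : (0 : ℝ) < ((n : ℝ) - 1) * ((n : ℝ) - 2) := by
    have e1 : (0 : ℝ) < (n : ℝ) - 1 := by linarith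
    have e2 : (0 : ℝ) < (n : ℝ) - 2 := by linarith
    positivity
  set N1 : ℝ := (invn q (n - a) : ℝ) with hN1
  set C : ℝ := (n.choose a : ℝ) with hCd
  have hi' : N1 ≤ C * (((n : ℝ) - a - 1) * ((n : ℝ) - a - 2)
        / (((n : ℝ) - 1) * ((n : ℝ) - 2))) := by
    rw [← mul_div_assoc, le_div_iff₀ hd2]
    linarith
  refine le_of_mul_le_mul_left ?_ hC
  calc C * |κ| ≤ C * (1 / (a : ℝ)) + N1 := hx
    _ ≤ C * (1 / (a : ℝ)) + C * (((n : ℝ) - a - 1) * ((n : ℝ) - a - 2)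
        / (((n : ℝ) - 1) * ((n : ℝ) - 2))) := by linarith
    _ = _ := by ring

private lemma b2_choose_two (a : ℕ) : (a.choose 2 : ℝ) = (a : ℝ) * ((a : ℝ) - 1) / 2 :=
  Nat.cast_choose_two ℝ a

private lemma b2_choose_three (a : ℕ) :
    (a.choose 3 : ℝ) = (a : ℝ) * ((a : ℝ) - 1) * ((a : ℝ) - 2) / 6 := by
  rcases Nat.lt_or_ge a 3 with h | h
  · interval_cases a <;> simp
  · have h1 : a.choose 3 * 6 = a * (a - 1) * (a - 2) := by
      have h2 : a.choose (2 + 1) * (2 + 1) = a.choose 2 * (a - 2) := Nat.choose_succ_right_eq a 2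
      have h3 : a.choose (1 + 1) * (1 + 1) = a.choose 1 * (a - 1) := Nat.choose_succ_right_eq a 1
      rw [Nat.choose_one_right] at h3
      norm_num at h2 h3
      calc a.choose 3 * 6 = (a.choose 3 * 3) * 2 := by ring
        _ = (a.choose 2 * (a - 2)) * 2 := by rw [h2]
        _ = (a.choose 2 * 2) * (a - 2) := by ring
        _ = a * (a - 1) * (a - 2) := by rw [h3]
    have h4 : ((a.choose 3 * 6 : ℕ) : ℝ) = ((a * (a - 1) * (a - 2) : ℕ) : ℝ) := by rw [h1]
    push_cast [Nat.cast_sub (show 1 ≤ a by omega), Nat.cast_sub (show 2 ≤ a by omega)] at h4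
    linarith

/-- the term of a set which is hit `a - 2` or `a - 3` times -/
private lemma b2_term_two {a s : ℕ} (ha : 5 ≤ a) (h1 : a ≤ s + 3) (h2 : s + 2 ≤ a) :
    1 / (a.choose s : ℝ) ≤ 2 / ((a : ℝ) * ((a : ℝ) - 1)) := by
  have ha' : (5 : ℝ) ≤ (a : ℝ) := by exact_mod_cast ha
  have hd : (0 : ℝ) < (a : ℝ) * ((a : ℝ) - 1) := by nlinarith
  have hge : (a : ℝ) * ((a : ℝ) - 1) / 2 ≤ (a.choose s : ℝ) := by
    rcases (show s = a - 2 ∨ s = a - 3 by omega) with e | e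
    · rw [e, Nat.choose_symm (show 2 ≤ a by omega), b2_choose_two]
    · rw [e, Nat.choose_symm (show 3 ≤ a by omega), b2_choose_three]
      nlinarith
  calc 1 / (a.choose s : ℝ) ≤ 1 / ((a : ℝ) * ((a : ℝ) - 1) / 2) :=
        one_div_le_one_div_of_le (by linarith) hge
    _ = 2 / ((a : ℝ) * ((a : ℝ) - 1)) := by
        rw [one_div_div]

theorem beta_three {n : ℕ} {q : Perm (Fin n)} (hq : NoShort q 2) {E : Submodule ℝ (QV n)}
    {τ κ : ℝ} {a : ℕ} (h : Sit q E τ κ a) (h3 : a + 3 = n) (hn : 8 ≤ n) :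
    |κ| ≤ 6 / (((n : ℝ) - 1) * ((n : ℝ) - 2)) + 2 / ((a : ℝ) * ((a : ℝ) - 1)) := by
  have hC : (0 : ℝ) < (n.choose a : ℝ) := by
    exact_mod_cast Nat.choose_pos (show a ≤ n by omega)
  have ha : 5 ≤ a := by omega
  have ha' : (5 : ℝ) ≤ (a : ℝ) := by exact_mod_cast ha
  have hn' : (8 : ℝ) ≤ (n : ℝ) := by exact_mod_cast hn
  have hd : (0 : ℝ) < (a : ℝ) * ((a : ℝ) - 1) := by nlinarith
  have hk := kappa_le h
  have hcnt := hit_large_count hq (show 6 ≤ n by omega)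
  have ha3 : n - 3 = a := by omega
  rw [ha3] at hcnt
  have h0 : ∀ Y ∈ (univ : Finset (Fin n)).powersetCard a,
      1 / (a.choose (hit Y q) : ℝ) ≤ 2 / ((a : ℝ) * ((a : ℝ) - 1))
        + (if n - 4 ≤ hit Y q then (1 : ℝ) else 0) := by
    intro Y hY
    have hc : Y.card = a := (Finset.mem_powersetCard.1 hY).2
    have hle := b2_hit_le q hc
    have hge := hit_ge (q := q) hc
    have hpos : (0 : ℝ) ≤ 2 / ((a : ℝ) * ((a : ℝ) - 1)) := by positivity
    by_cases he : n - 4 ≤ hit Y q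
    · rw [if_pos he]
      have := b2_term_le_one a (hit Y q)
      linarith
    · rw [if_neg he, add_zero]
      exact b2_term_two ha (by omega) (by omega)
  have hs : ∑ Y ∈ (univ : Finset (Fin n)).powersetCard a, 1 / (a.choose (hit Y q) : ℝ)
      ≤ (n.choose a : ℝ) * (2 / ((a : ℝ) * ((a : ℝ) - 1))) + (n : ℝ) := by
    refine (Finset.sum_le_sum h0).trans ?_
    rw [Finset.sum_add_distrib, Finset.sum_const, Finset.card_powersetCard, Finset.card_univ,
      Fintype.card_fin, nsmul_eq_mul, ← Finset.sum_filter, Finset.sum_const, nsmul_eq_mul,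
      mul_one]
    have hcnt' : ((((univ : Finset (Fin n)).powersetCard a).filter
        (fun Y => n - 4 ≤ hit Y q)).card : ℝ) ≤ (n : ℝ) := by exact_mod_cast hcnt
    linarith
  have hCn : (n.choose a : ℝ) = (n : ℝ) * ((n : ℝ) - 1) * ((n : ℝ) - 2) / 6 := by
    rw [← b2_choose_three n, ← ha3, Nat.choose_symm (show 3 ≤ n by omega)]
  have hd2 : (0 : ℝ) < ((n : ℝ) - 1) * ((n : ℝ) - 2) := by
    have e1 : (0 : ℝ) < (n : ℝ) - 1 := by linarith
    have e2 : (0 : ℝ) < (n : ℝ) - 2 := by linarith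
    positivity
  have hnn : (n : ℝ) = (n.choose a : ℝ) * (6 / (((n : ℝ) - 1) * ((n : ℝ) - 2))) := by
    rw [hCn, ← mul_div_assoc, eq_div_iff hd2.ne']
    ring
  refine le_of_mul_le_mul_left ?_ hC
  calc (n.choose a : ℝ) * |κ| ≤ (n.choose a : ℝ) * (2 / ((a : ℝ) * ((a : ℝ) - 1))) + (n : ℝ) :=
        hk.trans hs
    _ = (n.choose a : ℝ) * (2 / ((a : ℝ) * ((a : ℝ) - 1)))
        + (n.choose a : ℝ) * (6 / (((n : ℝ) - 1) * ((n : ℝ) - 2))) := by rw [← hnn]
    _ = _ := by ring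

end Pool.H60.TA
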