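import Pool.Agent.H60.TA.Exact

set_option autoImplicit false

/-!
# Top scale, all `n`: bound of the coefficients
-/

open Finset Equiv Pool.H98.BE Pool.H60.TP
open scoped InnerProductSpace

namespace Pool.H60.TA

theorem coeff_le {n : ℕ} {E : Submodule ℝ (QV n)} (hE : InvS univ E) {a : ℕ}
    (hm : MaxS univ E a) {A : Finset (Fin n)} (hA : A.card = a) {v w : QV n} (hv : v ∈ E)
    (hfv : Fx A v) (hfw : Fx A w) (y : Perm (Fin n)) :
    |⟪qrho n y v, w⟫_ℝ| ≤ ‖v‖ * ‖w‖ / (a.choose (hit A y) : ℝ) := by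
  have hinv : Invar (qrho n) E := fun σ u hu =>
    invS_perm hE (fun x hx => absurd (mem_univ x) hx) hu
  have hmax : ∀ B : Finset (Fin n), B.card = a + 1 → ∀ u ∈ E, FixIn (qrho n) B u → u = 0 := by
    intro B hB u hu hfu
    by_contra hne
    have h1 := hm B (subset_univ B) u hu hne hfu
    omega
  have h1 := Pool.H61.TP2.two_vector (ρ := qrho n) qrho_inner hinv hmax hA hv hfv hfw y
  have h2 : hit A y ≤ a := hA ▸ card_filter_le _ _
  have h3 : (0 : ℝ) < (a.choose (hit A y) : ℝ) := by exact_mod_cast Nat.choose_pos h2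
  rw [le_div_iff₀ h3, mul_comm]
  exact h1

end Pool.H60.TA
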