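import Pool.Agent.H60.TA.Defs

set_option autoImplicit false

/-!
# Top scale, all `n`: sums over conjugates and sums over sets
-/

open Finset Equiv Pool.H98.BE Pool.H60.TP
open scoped InnerProductSpace

namespace Pool.H60.TA

theorem hit_conj {n : ℕ} (A : Finset (Fin n)) (q g : Perm (Fin n)) :
    hit A (g⁻¹ * q * g) = hit (A.map g.toEmbedding) q := by
  unfold hit
  have h1 : ((A.map g.toEmbedding).filter (fun y => q y ∈ A.map g.toEmbedding)) =
      (A.filter (fun x => (g⁻¹ * q * g) x ∈ A)).map g.toEmbedding := by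
    ext z
    rw [mem_filter, mem_map_equiv, mem_map_equiv, mem_map_equiv, mem_filter, Perm.mul_apply,
      Perm.mul_apply, Equiv.apply_symm_apply]
    rfl
  rw [h1, card_map]

/-- the number of `g` with `g A = Y` does not depend on `Y` -/
private theorem Conj_count {n : ℕ} (A Y Y' : Finset (Fin n)) (h : Y.card = Y'.card) :
    ((univ : Finset (Perm (Fin n))).filter (fun g => A.map g.toEmbedding = Y)).card =
      ((univ : Finset (Perm (Fin n))).filter (fun g => A.map g.toEmbedding = Y')).card := by
  classical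
  obtain ⟨π, hπ⟩ : ∃ π : Perm (Fin n), Y.map π.toEmbedding = Y' := by
    have e : {x // x ∈ Y} ≃ {x // x ∈ Y'} :=
      Fintype.equivOfCardEq (by rw [Fintype.card_coe, Fintype.card_coe, h])
    refine ⟨e.extendSubtype, ?_⟩
    refine eq_of_subset_of_card_le ?_ (by rw [card_map, h])
    intro z hz
    rw [mem_map] at hz
    obtain ⟨y, hy, rfl⟩ := hz
    exact e.extendSubtype_mem y hy
  refine card_nbij' (fun g => π * g) (fun g => π⁻¹ * g) ?_ ?_ ?_ ?_
  · intro g hg
    simp only [coe_filter, mem_univ, true_and, Set.mem_ofPred_eq] at hg ⊢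
    rw [← hπ, ← hg, map_map]
    rfl
  · intro g hg
    simp only [coe_filter, mem_univ, true_and, Set.mem_ofPred_eq] at hg ⊢
    have h1 : (A.map (π⁻¹ * g).toEmbedding).map π.toEmbedding = Y.map π.toEmbedding := by
      rw [hπ, ← hg, map_map]
      congr 1
      ext x
      simp
    exact map_injective _ h1
  · intro g _
    simp
  · intro g _
    simp

theorem sum_conj {n : ℕ} (A : Finset (Fin n)) (F : Finset (Fin n) → ℝ) :
    (n.choose A.card : ℝ) * ∑ g : Perm (Fin n), F (A.map g.toEmbedding)
      = (n.factorial : ℝ) * ∑ Y ∈ (univ : Finset (Fin n)).powersetCard A.card, F Y := by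
  classical
  obtain ⟨N, hN⟩ : ∃ N, N = ((univ : Finset (Perm (Fin n))).filter
    (fun g => A.map g.toEmbedding = A)).card := ⟨_, rfl⟩
  have hcount : ∀ Y ∈ (univ : Finset (Fin n)).powersetCard A.card,
      ((univ : Finset (Perm (Fin n))).filter (fun g => A.map g.toEmbedding = Y)).card = N := by
    intro Y hY
    rw [hN]
    exact Conj_count A Y A (mem_powersetCard.1 hY).2
  have hmaps : ∀ g ∈ (univ : Finset (Perm (Fin n))),
      A.map g.toEmbedding ∈ (univ : Finset (Fin n)).powersetCard A.card := by
    intro g _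
    rw [mem_powersetCard]
    exact ⟨subset_univ _, card_map _⟩
  have h1 : ∑ g : Perm (Fin n), F (A.map g.toEmbedding) =
      N * ∑ Y ∈ (univ : Finset (Fin n)).powersetCard A.card, F Y := by
    rw [← sum_fiberwise_of_maps_to hmaps, mul_sum]
    refine sum_congr rfl fun Y hY => ?_
    rw [← hcount Y hY, ← nsmul_eq_mul, ← sum_const]
    refine sum_congr rfl fun g hg => ?_
    rw [(mem_filter.1 hg).2]
  have h2 : n.factorial = n.choose A.card * N := by
    have h3 := card_eq_sum_card_fiberwise hmaps
    rw [sum_congr rfl hcount, sum_const, card_powersetCard, card_univ, Fintype.card_perm,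
      Fintype.card_fin, card_univ, Fintype.card_fin, smul_eq_mul] at h3
    exact h3
  rw [h1, h2]
  push_cast
  ring

theorem sum_hit {n : ℕ} (A : Finset (Fin n)) (q : Perm (Fin n)) (F : ℕ → ℝ) :
    (n.choose A.card : ℝ) * ∑ g : Perm (Fin n), F (hit A (g⁻¹ * q * g))
      = (n.factorial : ℝ) * ∑ Y ∈ (univ : Finset (Fin n)).powersetCard A.card, F (hit Y q) := by
  have h := sum_conj A (fun Y => F (hit Y q))
  simp only [← hit_conj] at h
  exact h

end Pool.H60.TA
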