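import Pool.Agent.H60.TP.Defs

set_option autoImplicit false

/-!
# Top scale, all `n`: definitions
-/

open Finset Equiv Pool.H98.BE Pool.H60.TP
open scoped InnerProductSpace

namespace Pool.H60.TA

/-- `v` is fixed by the transpositions inside `A` -/
def Fx {n : ℕ} (A : Finset (Fin n)) (v : QV n) : Prop :=
  ∀ x ∈ A, ∀ y ∈ A, qrho n (Equiv.swap x y) v = v

/-- `U` is invariant under the transpositions inside `S` -/
def InvS {n : ℕ} (S : Finset (Fin n)) (U : Submodule ℝ (QV n)) : Prop :=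
  ∀ x ∈ S, ∀ y ∈ S, ∀ w ∈ U, qrho n (Equiv.swap x y) w ∈ U

/-- a set `A` inside `S` with a nonzero vector of `U` fixed by `Sym A` has at most `a` points -/
def MaxS {n : ℕ} (S : Finset (Fin n)) (U : Submodule ℝ (QV n)) (a : ℕ) : Prop :=
  ∀ A ⊆ S, ∀ v ∈ U, v ≠ 0 → Fx A v → A.card ≤ a

/-- the number of points of `A` which `y` maps into `A` -/
def hit {n : ℕ} (A : Finset (Fin n)) (y : Perm (Fin n)) : ℕ :=
  (A.filter (fun x => y x ∈ A)).card

/-- the number of sets of `a` points which `q` maps to themselves -/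
def invn {n : ℕ} (q : Perm (Fin n)) (a : ℕ) : ℕ :=
  (((univ : Finset (Fin n)).powersetCard a).filter (fun Y => hit Y q = a)).card

/-- the situation: `E` is an invariant space on which the two operators are scalars, and `a` is
the largest size of a set `A` with a nonzero vector of `E` fixed by `Sym A` -/
structure Sit {n : ℕ} (q : Perm (Fin n)) (E : Submodule ℝ (QV n)) (τ κ : ℝ) (a : ℕ) : Prop where
  inv : InvS univ E
  max : MaxS univ E a
  ex : ∃ A : Finset (Fin n), A.card = a ∧ ∃ v ∈ E, v ≠ 0 ∧ Fx A v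
  t2 : ∀ v ∈ E, T2 (qrho n) (univ : Finset (Fin n)) v = τ • v
  ko : ∀ v ∈ E, KO q v = ((n.factorial : ℝ) * κ) • v

/-- there are as many permutations as points, with quotients without cycles of length 1 or 2 -/
def Fam (α : Type) : Prop :=
  ∃ R : α → Perm α, ∀ a b, a ≠ b → ∀ x, ((R a)⁻¹ * R b) x ≠ x ∧
    ((R a)⁻¹ * R b) (((R a)⁻¹ * R b) x) ≠ x

end Pool.H60.TA
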