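import Pool.Agent.H60.TA.FxPerm
import Pool.Agent.H61.TP2.Two

set_option autoImplicit false

/-!
# Top scale, all `n`: the relation of a maximal set
-/

open Finset Equiv Pool.H98.BE Pool.H60.TP
open scoped InnerProductSpace

namespace Pool.H60.TA

theorem exact_rel {n : ℕ} {S A : Finset (Fin n)} {U : Submodule ℝ (QV n)} (hU : InvS S U) {a : ℕ}
    (hm : MaxS S U a) (hAS : A ⊆ S) (hA : a ≤ A.card) {v : QV n} (hv : v ∈ U) (hf : Fx A v)
    {c : Fin n} (hc : c ∈ S) (hcA : c ∉ A) :
    v + ∑ x ∈ A, qrho n (Equiv.swap x c) v = 0 := by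
  by_contra hne
  have h1 := hm (insert c A) (insert_subset hc hAS) _
    (U.add_mem hv (U.sum_mem fun x hx => hU x (hAS hx) c hc v hv)) hne
    (Pool.H61.TP2.fix_insert (ρ := qrho n) hf hcA)
  rw [card_insert_of_notMem hcA] at h1
  omega

end Pool.H60.TA
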