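import Pool.Agent.H60.TA.Defs

set_option autoImplicit false

/-!
# Top scale, all `n`: vectors fixed by a symmetric group
-/

open Finset Equiv Pool.H98.BE Pool.H60.TP
open scoped InnerProductSpace

namespace Pool.H60.TA

private theorem fxp_ind {n : ℕ} {A : Finset (Fin n)} (M : Perm (Fin n) → Prop) (h1 : M 1)
    (hs : ∀ x ∈ A, ∀ y ∈ A, ∀ σ, M σ → M (Equiv.swap x y * σ)) {σ : Perm (Fin n)}
    (hσ : ∀ x, x ∉ A → σ x = x) : M σ := by
  have key : ∀ s' : Perm {x : Fin n // x ∈ A}, M (Perm.ofSubtype s') := by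
    intro s'
    refine Perm.swap_induction_on s' ?_ ?_
    · rw [map_one]
      exact h1
    · intro s'' x y _ ih
      rw [map_mul, Perm.ofSubtype_swap_eq]
      exact hs x.1 x.2 y.1 y.2 _ ih
  have h2 : ∀ x, σ x ∈ A ↔ x ∈ A := by
    intro x
    constructor
    · intro hx
      by_contra hxA
      rw [hσ x hxA] at hx
      exact hxA hx
    · intro hx
      by_contra hxA
      have h3 := σ.injective (hσ _ hxA)
      rw [h3] at hxA
      exact hxA hx
  have h3 : ∀ x, σ x ≠ x → x ∈ A := by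
    intro x hx
    by_contra hxA
    exact hx (hσ x hxA)
  have h4 := key (σ.subtypePerm h2)
  rwa [Perm.ofSubtype_subtypePerm h2 h3] at h4

private theorem fxp_mul {n : ℕ} (σ τ : Perm (Fin n)) (v : QV n) :
    qrho n (σ * τ) v = qrho n σ (qrho n τ v) := by
  rw [map_mul]
  rfl

private theorem fxp_one {n : ℕ} (v : QV n) : qrho n 1 v = v := by
  rw [map_one]
  rfl

theorem fx_perm {n : ℕ} {A : Finset (Fin n)} {v : QV n} (h : Fx A v) {σ : Perm (Fin n)}
    (hσ : ∀ x, x ∉ A → σ x = x) : qrho n σ v = v := by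
  refine fxp_ind (A := A) (fun s => qrho n s v = v) (fxp_one v) ?_ hσ
  intro x hx y hy s hs
  change qrho n (Equiv.swap x y * s) v = v
  rw [fxp_mul, hs, h x hx y hy]

theorem fx_map {n : ℕ} {A : Finset (Fin n)} {v : QV n} (h : Fx A v) (y : Perm (Fin n)) :
    Fx (A.map y.toEmbedding) (qrho n y v) := by
  intro x' hx' y' hy'
  obtain ⟨a, ha, rfl⟩ := mem_map.1 hx'
  obtain ⟨b, hb, rfl⟩ := mem_map.1 hy'
  change qrho n (Equiv.swap (y a) (y b)) (qrho n y v) = qrho n y v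
  rw [← fxp_mul, ← Equiv.mul_swap_eq_swap_mul, fxp_mul, h a ha b hb]

theorem invS_perm {n : ℕ} {S : Finset (Fin n)} {U : Submodule ℝ (QV n)} (h : InvS S U)
    {σ : Perm (Fin n)} (hσ : ∀ x, x ∉ S → σ x = x) {w : QV n} (hw : w ∈ U) : qrho n σ w ∈ U := by
  refine fxp_ind (A := S) (fun s => qrho n s w ∈ U) ?_ ?_ hσ
  · change qrho n 1 w ∈ U
    rw [fxp_one]
    exact hw
  · intro x hx y hy s hs
    change qrho n (Equiv.swap x y * s) w ∈ U
    rw [fxp_mul]
    exact h x hx y hy _ hs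

theorem exists_max {n : ℕ} (S : Finset (Fin n)) (U : Submodule ℝ (QV n)) (h0 : U ≠ ⊥) :
    ∃ A ⊆ S, (∃ v ∈ U, v ≠ 0 ∧ Fx A v) ∧ MaxS S U A.card := by
  classical
  obtain ⟨v, hv, hv0⟩ := Submodule.exists_mem_ne_zero_of_ne_bot h0
  have hne : (S.powerset.filter (fun A => ∃ v ∈ U, v ≠ 0 ∧ Fx A v)).Nonempty := by
    refine ⟨∅, mem_filter.2 ⟨mem_powerset.2 (empty_subset S), v, hv, hv0, ?_⟩⟩
    intro x hx
    exact absurd hx (notMem_empty x)
  obtain ⟨A, hA, hmax⟩ := exists_max_image _ (fun A : Finset (Fin n) => A.card) hne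
  rw [mem_filter, mem_powerset] at hA
  refine ⟨A, hA.1, hA.2, ?_⟩
  intro A' hA' w hw hw0 hfx
  exact hmax A' (mem_filter.2 ⟨mem_powerset.2 hA', w, hw, hw0, hfx⟩)

end Pool.H60.TA
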