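import Pool.Agent.H60.TA.Defs

set_option autoImplicit false

/-!
# Top scale, all `n`: joint eigenvectors
-/

open Finset Equiv Pool.H98.BE Pool.H60.TP
open scoped InnerProductSpace

namespace Pool.H60.TA

private theorem spec_exists {E : Type*} [NormedAddCommGroup E] [InnerProductSpace ℝ E]
    [FiniteDimensional ℝ E] {A : E →ₗ[ℝ] E} (hA : A.IsSymmetric) {c : ℝ} {f : E}
    (hlt : c * ⟪f, f⟫_ℝ < ⟪A f, f⟫_ℝ) : ∃ μ : ℝ, c < μ ∧ ∃ v, v ≠ 0 ∧ A v = μ • v := by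
  by_contra hcon
  push Not at hcon
  obtain ⟨b, hb⟩ : ∃ b, b = hA.eigenvectorBasis rfl := ⟨_, rfl⟩
  have hbA : ∀ i, A (b i) = (hA.eigenvalues rfl i) • b i := by
    intro i
    have := hA.apply_eigenvectorBasis rfl i
    rw [← hb] at this
    exact this
  have h1 : ∀ i, hA.eigenvalues rfl i ≤ c := by
    intro i
    by_contra h
    exact hcon _ (not_le.1 h) (b i) (b.orthonormal.ne_zero i) (hbA i)
  have h2 : ∑ i, ⟪A f, b i⟫_ℝ * ⟪b i, f⟫_ℝ = ⟪A f, f⟫_ℝ := b.sum_inner_mul_inner _ _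
  have h3 : ∑ i, ⟪f, b i⟫_ℝ * ⟪b i, f⟫_ℝ = ⟪f, f⟫_ℝ := b.sum_inner_mul_inner _ _
  refine absurd hlt (not_lt.2 ?_)
  rw [← h2, ← h3, Finset.mul_sum]
  refine Finset.sum_le_sum fun i _ => ?_
  have h4 : ⟪A f, b i⟫_ℝ = hA.eigenvalues rfl i * ⟪f, b i⟫_ℝ := by
    rw [hA f (b i), hbA, real_inner_smul_right]
  have h5 : ⟪b i, f⟫_ℝ = ⟪f, b i⟫_ℝ := real_inner_comm _ _
  rw [h4, h5, mul_assoc]
  exact mul_le_mul_of_nonneg_right (h1 i) (mul_self_nonneg _)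

theorem top_joint {V : Type*} [NormedAddCommGroup V] [InnerProductSpace ℝ V]
    [FiniteDimensional ℝ V] {H T : V →ₗ[ℝ] V} (hH : H.IsSymmetric) (hT : T.IsSymmetric)
    (hc : ∀ v, H (T v) = T (H v)) {Z : Submodule ℝ V} (hHZ : ∀ v ∈ Z, H v ∈ Z)
    (hTZ : ∀ v ∈ Z, T v ∈ Z) {c : ℝ} {f : V} (hf : f ∈ Z) (hlt : c * ⟪f, f⟫_ℝ < ⟪H f, f⟫_ℝ) :
    ∃ μ τ : ℝ, c < μ ∧ ∃ v ∈ Z, v ≠ 0 ∧ H v = μ • v ∧ T v = τ • v := by
  obtain ⟨μ, hμ, v, hv0, hv⟩ := spec_exists (hH.restrict_invariant hHZ) (c := c) (f := ⟨f, hf⟩) hlt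
  -- the joint invariant subspace
  let W : Submodule ℝ V :=
    { carrier := {w | w ∈ Z ∧ H w = μ • w}
      add_mem' := fun {a b} ha hb => ⟨Z.add_mem ha.1 hb.1, by rw [map_add, ha.2, hb.2, smul_add]⟩
      zero_mem' := ⟨Z.zero_mem, by rw [map_zero, smul_zero]⟩
      smul_mem' := fun r a ha => ⟨Z.smul_mem r ha.1, by rw [map_smul, ha.2, smul_comm]⟩ }
  have hW : ∀ w ∈ W, T w ∈ W := by
    intro w hw
    exact ⟨hTZ w hw.1, by rw [hc, hw.2, map_smul]⟩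
  have hvW : (v : V) ∈ W := ⟨v.2, by
    have := congrArg Subtype.val hv
    exact this⟩
  have hvne : (v : V) ≠ 0 := fun h => hv0 (Subtype.ext h)
  have hpos : 0 < ⟪(v : V), v⟫_ℝ := real_inner_self_pos.2 hvne
  obtain ⟨τ, -, w, hw0, hw⟩ := spec_exists (hT.restrict_invariant hW)
    (c := (⟪T v, (v : V)⟫_ℝ - 1) / ⟪(v : V), v⟫_ℝ) (f := ⟨v, hvW⟩) (by
      show (⟪T v, (v : V)⟫_ℝ - 1) / ⟪(v : V), v⟫_ℝ * ⟪(v : V), v⟫_ℝ < ⟪T v, (v : V)⟫_ℝ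
      rw [div_mul_cancel₀ _ hpos.ne']
      linarith)
  exact ⟨μ, τ, hμ, w, w.2.1, fun h => hw0 (Subtype.ext h), w.2.2, congrArg Subtype.val hw⟩

end Pool.H60.TA
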