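import Pool.Agent.H60.TA.Star
import Pool.Agent.H60.TA.Spec
import Pool.Agent.H60.TP.HLev
import Pool.Agent.H60.TP.LevInv

set_option autoImplicit false

/-!
# Top scale, all `n`: permutations without cycles of length 1 or 2 are good
-/

open Finset Equiv Pool.H98.BE Pool.H60.TP
open scoped InnerProductSpace

namespace Pool.H60.TA

private theorem GoodAll_T2_mem {n : ℕ} {F : Submodule ℝ (QV n)}
    (hF : Invar (qrho n) F) {f : QV n} (hf : f ∈ F) :
    T2 (qrho n) (univ : Finset (Fin n)) f ∈ F := by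
  rw [quad_T2_apply]
  exact F.sum_mem fun x _ => F.sum_mem fun y _ => hF _ _ hf

private theorem GoodAll_HO_mem {n : ℕ} (q : Perm (Fin n)) {F : Submodule ℝ (QV n)}
    (hF : Invar (qrho n) F) {f : QV n} (hf : f ∈ F) : HO q f ∈ F := by
  rw [HO_apply, KO_apply]
  exact F.add_mem (F.smul_mem _ (GoodAll_T2_mem hF hf))
    (F.smul_mem _ (F.sum_mem fun g _ => hF _ _ hf))

private theorem GoodAll_perp {n : ℕ} {F : Submodule ℝ (QV n)} (hF : Invar (qrho n) F) :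
    Invar (qrho n) Fᗮ := by
  intro σ w hw
  rw [Submodule.mem_orthogonal] at hw ⊢
  intro u hu
  have h1 := qrho_inner σ (qrho n σ⁻¹ u) w
  have h2 : qrho n σ (qrho n σ⁻¹ u) = u := by
    rw [← Module.End.mul_apply, ← map_mul, mul_inv_cancel, map_one, Module.End.one_apply]
  rw [h2] at h1
  rw [h1]
  exact hw _ (hF _ _ hu)

private theorem GoodAll_comm {n : ℕ} (q : Perm (Fin n)) (v : QV n) :
    HO q (T2 (qrho n) (univ : Finset (Fin n)) v) = T2 (qrho n) (univ : Finset (Fin n)) (HO q v) := by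
  rw [quad_T2_apply, quad_T2_apply, map_sum]
  refine Finset.sum_congr rfl fun x _ => ?_
  rw [map_sum]
  exact Finset.sum_congr rfl fun y _ => HO_qrho q _ v

/-- the joint eigenspace in `Z` -/
private noncomputable def GoodAll_E {n : ℕ} (q : Perm (Fin n)) (Z : Submodule ℝ (QV n)) (μ τ : ℝ) :
    Submodule ℝ (QV n) where
  carrier := {v | v ∈ Z ∧ HO q v = μ • v ∧ T2 (qrho n) (univ : Finset (Fin n)) v = τ • v}
  add_mem' := by
    rintro v w ⟨h1, h2, h3⟩ ⟨h4, h5, h6⟩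
    exact ⟨Z.add_mem h1 h4, by rw [map_add, h2, h5, smul_add], by rw [map_add, h3, h6, smul_add]⟩
  zero_mem' := ⟨Z.zero_mem, by rw [map_zero, smul_zero], by rw [map_zero, smul_zero]⟩
  smul_mem' := by
    rintro c v ⟨h1, h2, h3⟩
    exact ⟨Z.smul_mem c h1, by rw [map_smul, h2, smul_comm], by rw [map_smul, h3, smul_comm]⟩

private theorem GoodAll_case {n : ℕ} (hn : 100 ≤ n) {q : Perm (Fin n)} (hq : NoShort q 2)
    {c : QV n} (hc : c ∈ (Lev n 2)ᗮ) :
    ⟪HO q c, c⟫_ℝ ≤ (n.factorial : ℝ) * (((n : ℝ) - 1) * ((n : ℝ) - 4)) * ⟪c, c⟫_ℝ := by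
  by_contra hlt
  rw [not_le] at hlt
  have hZ : Invar (qrho n) (Lev n 2)ᗮ := GoodAll_perp (lev_right n 2)
  obtain ⟨μ, τ, hμ, v, hvZ, hv0, hHv, hTv⟩ := top_joint (HO_symm q)
    (T2_symm (ρ := qrho n) qrho_inner (univ : Finset (Fin n))) (GoodAll_comm q)
    (Z := (Lev n 2)ᗮ) (fun v hv => GoodAll_HO_mem q hZ hv) (fun v hv => GoodAll_T2_mem hZ hv)
    hc hlt
  have hn' : (100 : ℝ) ≤ n := by exact_mod_cast hn
  have hf : (0 : ℝ) < n.factorial := by exact_mod_cast n.factorial_pos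
  have hk : (0 : ℝ) < 2 * ((n : ℝ) - 1) * ((n : ℝ) - 2) :=
    mul_pos (mul_pos two_pos (by linarith)) (by linarith)
  obtain ⟨κ, hκ⟩ : ∃ κ : ℝ, κ = (μ - n.factorial * τ) / (n.factorial *
      (2 * ((n : ℝ) - 1) * ((n : ℝ) - 2))) := ⟨_, rfl⟩
  have hmu : (n.factorial : ℝ) * τ + (2 * ((n : ℝ) - 1) * ((n : ℝ) - 2)) *
      ((n.factorial : ℝ) * κ) = μ := by
    rw [hκ]
    generalize 2 * ((n : ℝ) - 1) * ((n : ℝ) - 2) = D at hk
    field_simp
    ring
  have hE0 : GoodAll_E q (Lev n 2)ᗮ μ τ ≠ ⊥ := by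
    intro h0
    have h1 : v ∈ GoodAll_E q (Lev n 2)ᗮ μ τ := ⟨hvZ, hHv, hTv⟩
    rw [h0, Submodule.mem_bot] at h1
    exact hv0 h1
  obtain ⟨A, -, ⟨w, hw, hw0, hwA⟩, hmax⟩ := exists_max (univ : Finset (Fin n))
    (GoodAll_E q (Lev n 2)ᗮ μ τ) hE0
  have ha : A.card + 3 ≤ n := by
    by_contra ha
    obtain ⟨I, hI, hIc⟩ := Finset.exists_superset_card_eq (s := Aᶜ) (n := 2)
      (by rw [Finset.card_compl, Fintype.card_fin]; omega) (by rw [Fintype.card_fin]; omega)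
    have hA : ∀ x, x ∉ I → x ∈ A := by
      intro x hx
      by_contra hxA
      exact hx (hI (Finset.mem_compl.2 hxA))
    have h1 : w ∈ Lev n 2 := Submodule.subset_span
      ⟨I, hIc, fun x y hx hy => hwA x (hA x hx) y (hA y hy)⟩
    have h2 : ⟪w, w⟫_ℝ = 0 := (Submodule.mem_orthogonal _ _).1 hw.1 w h1
    exact hw0 (inner_self_eq_zero.1 h2)
  have hsit : Sit q (GoodAll_E q (Lev n 2)ᗮ μ τ) τ κ A.card := by
    refine ⟨?_, hmax, ⟨A, rfl, w, hw, hw0, hwA⟩, fun v hv => hv.2.2, ?_⟩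
    · rintro x - y - u ⟨h1, h2, h3⟩
      exact ⟨hZ _ _ h1, by rw [HO_qrho, h2, map_smul], by rw [quad_T2_comm, h3, map_smul]⟩
    · rintro u ⟨-, h2, h3⟩
      have h4 := HO_apply q u
      rw [h2, h3, ← hmu] at h4
      have h5 : (2 * ((n : ℝ) - 1) * ((n : ℝ) - 2)) • KO q u
          = (2 * ((n : ℝ) - 1) * ((n : ℝ) - 2)) • (((n.factorial : ℝ) * κ) • u) := by
        rw [add_smul, smul_smul] at h4
        rw [smul_smul]
        exact (add_left_cancel h4).symm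
      exact smul_right_injective _ hk.ne' h5
  have h := star hn hq hsit ha
  have h6 := mul_le_mul_of_nonneg_left h hf.le
  have h7 : (n.factorial : ℝ) * (τ + 2 * ((n : ℝ) - 1) * ((n : ℝ) - 2) * κ) = μ := by
    rw [← hmu]
    ring
  rw [h7] at h6
  linarith

theorem good_all {n : ℕ} (hn : 100 ≤ n) {q : Perm (Fin n)} (hq : NoShort q 2) : Good q := by
  intro f hf
  obtain ⟨a, ha, c, hc, hfa⟩ := (Lev n 2).exists_add_mem_mem_orthogonal f
  have hLc : ∀ x ∈ Lev n 2, ⟪x, c⟫_ℝ = 0 := (Submodule.mem_orthogonal _ _).1 hc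
  have hHa : HO q a ∈ Lev n 2 := GoodAll_HO_mem q (lev_right n 2) ha
  have hac : ⟪HO q a, c⟫_ℝ = 0 := hLc _ hHa
  have hca : ⟪HO q c, a⟫_ℝ = 0 := by rw [HO_symm q c a, real_inner_comm]; exact hac
  have hac' : ⟪a, c⟫_ℝ = 0 := hLc a ha
  have hca' : ⟪c, a⟫_ℝ = 0 := by rw [real_inner_comm]; exact hac'
  have hone : (WithLp.toLp 2 (fun _ => (1 : ℝ)) : QV n) ∈ Lev n 2 :=
    const_mem_lev 2 (by omega) 1
  have hsum : ∀ x : QV n, ⟪(WithLp.toLp 2 (fun _ => (1 : ℝ)) : QV n), x⟫_ℝ = qsum n x := by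
    intro x
    rw [qinner, qsum_apply]
    exact Finset.sum_congr rfl fun t _ => one_mul _
  have hsa : qsum n a = 0 := by
    have h2 : qsum n c = 0 := by rw [← hsum]; exact hLc _ hone
    rw [hfa, map_add, h2, add_zero] at hf
    exact hf
  have hA := ho_lev (q := q) (by omega) (by omega) hq ha hsa
  have hC := GoodAll_case hn hq hc
  have e1 : ⟪HO q f, f⟫_ℝ = ⟪HO q a, a⟫_ℝ + ⟪HO q c, c⟫_ℝ := by
    rw [hfa, map_add]
    simp only [inner_add_left, inner_add_right]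
    rw [hac, hca]
    ring
  have e2 : ⟪f, f⟫_ℝ = ⟪a, a⟫_ℝ + ⟪c, c⟫_ℝ := by
    rw [hfa]
    simp only [inner_add_left, inner_add_right]
    rw [hac', hca']
    ring
  rw [e1, e2]
  linarith

end Pool.H60.TA
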