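import Pool.Agent.H60.TA.Coeff
import Pool.Agent.H60.TA.Conj

set_option autoImplicit false

/-!
# Top scale, all `n`: bound of the eigenvalue of the class sum
-/

open Finset Equiv Pool.H98.BE Pool.H60.TP
open scoped InnerProductSpace

namespace Pool.H60.TA

private theorem Kappa_sum {n : ℕ} {q : Perm (Fin n)} {κ : ℝ} {v : QV n}
    (hv : KO q v = ((n.factorial : ℝ) * κ) • v) {F : Perm (Fin n) → ℝ}
    (hF : ∀ g : Perm (Fin n), |⟪qrho n (g⁻¹ * q * g) v, v⟫_ℝ| ≤ F g) :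
    (n.factorial : ℝ) * |κ| * ‖v‖ ^ 2 ≤ ∑ g : Perm (Fin n), F g := by
  have h1 : ⟪KO q v, v⟫_ℝ = (n.factorial : ℝ) * κ * ‖v‖ ^ 2 := by
    rw [hv, real_inner_smul_left, real_inner_self_eq_norm_sq]
  rw [KO_apply, sum_inner] at h1
  have h2 : |(n.factorial : ℝ) * κ * ‖v‖ ^ 2| = (n.factorial : ℝ) * |κ| * ‖v‖ ^ 2 := by
    rw [abs_mul, abs_mul, abs_of_nonneg (Nat.cast_nonneg (α := ℝ) n.factorial),
      abs_of_nonneg (sq_nonneg ‖v‖)]
  rw [← h2, ← h1]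
  exact (abs_sum_le_sum_abs _ _).trans (sum_le_sum fun g _ => hF g)

theorem kappa_le {n : ℕ} {q : Perm (Fin n)} {E : Submodule ℝ (QV n)} {τ κ : ℝ} {a : ℕ}
    (h : Sit q E τ κ a) :
    (n.choose a : ℝ) * |κ|
      ≤ ∑ Y ∈ (univ : Finset (Fin n)).powersetCard a, 1 / (a.choose (hit Y q) : ℝ) := by
  obtain ⟨A, hA, v, hv, hv0, hf⟩ := h.ex
  have hpos : 0 < ‖v‖ ^ 2 := by
    have := norm_pos_iff.2 hv0
    positivity
  have hfac : (0 : ℝ) < (n.factorial : ℝ) := by exact_mod_cast n.factorial_pos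
  have h1 := Kappa_sum (h.ko v hv)
    (F := fun g => 1 / (a.choose (hit A (g⁻¹ * q * g)) : ℝ) * ‖v‖ ^ 2) (fun g => by
      refine (coeff_le h.inv h.max hA hv hf hf (g⁻¹ * q * g)).trans (le_of_eq ?_)
      ring)
  rw [← sum_mul] at h1
  have h2 := le_of_mul_le_mul_right h1 hpos
  have h3 := sum_hit A q (fun s => 1 / (a.choose s : ℝ))
  rw [hA] at h3
  have h4 : (n.factorial : ℝ) * ((n.choose a : ℝ) * |κ|) ≤ (n.factorial : ℝ) *
      ∑ Y ∈ (univ : Finset (Fin n)).powersetCard a, 1 / (a.choose (hit Y q) : ℝ) := by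
    rw [← h3]
    calc (n.factorial : ℝ) * ((n.choose a : ℝ) * |κ|)
        = (n.choose a : ℝ) * ((n.factorial : ℝ) * |κ|) := by ring
      _ ≤ _ := mul_le_mul_of_nonneg_left h2 (Nat.cast_nonneg _)
  exact le_of_mul_le_mul_left h4 hfac

theorem kappa_le_one {n : ℕ} {q : Perm (Fin n)} {E : Submodule ℝ (QV n)} {τ κ : ℝ} {a : ℕ}
    (h : Sit q E τ κ a) : |κ| ≤ 1 := by
  obtain ⟨A, hA, v, hv, hv0, hf⟩ := h.ex
  have hpos : 0 < ‖v‖ ^ 2 := by
    have := norm_pos_iff.2 hv0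
    positivity
  have hfac : (0 : ℝ) < (n.factorial : ℝ) := by exact_mod_cast n.factorial_pos
  have h1 := Kappa_sum (h.ko v hv) (F := fun _ => ‖v‖ ^ 2) (fun g => by
      refine (abs_real_inner_le_norm _ _).trans (le_of_eq ?_)
      have h2 : ‖qrho n (g⁻¹ * q * g) v‖ = ‖v‖ := by
        have h3 := qrho_inner (g⁻¹ * q * g) v v
        rw [real_inner_self_eq_norm_sq, real_inner_self_eq_norm_sq] at h3
        exact (sq_eq_sq₀ (norm_nonneg _) (norm_nonneg _)).1 h3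
      rw [h2, sq])
  rw [sum_const, card_univ, Fintype.card_perm, Fintype.card_fin, nsmul_eq_mul, mul_assoc] at h1
  have h2 := le_of_mul_le_mul_left h1 hfac
  nlinarith

end Pool.H60.TA
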