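import Pool.Agent.H60.TA.Defs

set_option autoImplicit false

/-!
# Top scale, all `n`: numerical inequalities, small sets
-/

open Finset Equiv Pool.H98.BE Pool.H60.TP
open scoped InnerProductSpace

namespace Pool.H60.TA

private theorem numA_third {x y : ℝ} (hx : 100 ≤ x) :
    2 * (x - 1) * (x - 2) * (y / ((x - 1) * (x - 2) * (x - 3))) = 2 * y / (x - 3) := by
  have h1 : x - 1 ≠ 0 := by linarith
  have h2 : x - 2 ≠ 0 := by linarith
  have h3 : x - 3 ≠ 0 := by linarith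
  field_simp

private theorem numA_small {x y : ℝ} (hx : 100 ≤ x) (hy : 10 ≤ y) (hxy : 3 * y ≤ x) :
    2 * (x - 1) * (x - 2)
      * (Real.sqrt (1 / (x - 2 * y + 1) + 1 / y)
        + (y - 1) * (y - 2) * (y - 3) / ((x - 1) * (x - 2) * (x - 3)))
      ≤ (x - 1) * (x - 4) - x * (y - 1) := by
  have hd : 0 < x - 2 * y + 1 := by linarith
  have hy0 : 0 < y := by linarith
  have hx0 : 0 < x := by linarith
  set S : ℝ := 1 / (x - 2 * y + 1) + 1 / y with hS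
  have hS0 : 0 ≤ S := by positivity
  -- AM-GM
  have hs : Real.sqrt S ≤ 5 / 3 * S + 3 / 20 := by
    have h1 : Real.sqrt S * Real.sqrt S = S := Real.mul_self_sqrt hS0
    nlinarith [sq_nonneg (Real.sqrt S - 3 / 10)]
  have ha : 1 / (x - 2 * y + 1) ≤ 3 / x := by
    rw [div_le_div_iff₀ hd hx0]
    linarith
  have hb : 1 / y ≤ (30 + x - 3 * y) / (10 * x) := by
    rw [div_le_div_iff₀ hy0 (by linarith)]
    nlinarith [mul_nonneg (sub_nonneg.2 hy) (sub_nonneg.2 hxy)]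
  have hP : 0 < (x - 1) * (x - 2) := by nlinarith
  have hPx : (x - 1) * (x - 2) / x ≤ x - 2 := by
    rw [div_le_iff₀ hx0]
    nlinarith
  have hA : (x - 1) * (x - 2) * (1 / (x - 2 * y + 1)) ≤ 3 * (x - 2) := by
    calc (x - 1) * (x - 2) * (1 / (x - 2 * y + 1)) ≤ (x - 1) * (x - 2) * (3 / x) :=
          mul_le_mul_of_nonneg_left ha hP.le
      _ = 3 * ((x - 1) * (x - 2) / x) := by ring
      _ ≤ 3 * (x - 2) := by linarith
  have hB : (x - 1) * (x - 2) * (1 / y) ≤ (x - 2) * (30 + x - 3 * y) / 10 := by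
    calc (x - 1) * (x - 2) * (1 / y) ≤ (x - 1) * (x - 2) * ((30 + x - 3 * y) / (10 * x)) :=
          mul_le_mul_of_nonneg_left hb hP.le
      _ = ((x - 1) * (x - 2) / x) * ((30 + x - 3 * y) / 10) := by
          field_simp
      _ ≤ (x - 2) * ((30 + x - 3 * y) / 10) :=
          mul_le_mul_of_nonneg_right hPx (by linarith)
      _ = (x - 2) * (30 + x - 3 * y) / 10 := by ring
  have hC : 2 * ((y - 1) * (y - 2) * (y - 3)) / (x - 3) ≤ 2 / 3 * ((y - 1) * (y - 2)) := by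
    rw [div_le_iff₀ (by linarith)]
    have h1 : 0 ≤ (y - 1) * (y - 2) := by nlinarith
    nlinarith [mul_nonneg h1 (show 0 ≤ x - 3 * y by linarith)]
  have hT : 2 * (x - 1) * (x - 2) * Real.sqrt S ≤
      10 / 3 * ((x - 1) * (x - 2) * (1 / (x - 2 * y + 1)))
        + 10 / 3 * ((x - 1) * (x - 2) * (1 / y)) + 3 / 10 * ((x - 1) * (x - 2)) := by
    have h1 : 2 * (x - 1) * (x - 2) * Real.sqrt S
        ≤ 2 * (x - 1) * (x - 2) * (5 / 3 * S + 3 / 20) :=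
      mul_le_mul_of_nonneg_left hs (by nlinarith)
    have h2 : 2 * (x - 1) * (x - 2) * (5 / 3 * S + 3 / 20) =
        10 / 3 * ((x - 1) * (x - 2) * (1 / (x - 2 * y + 1)))
        + 10 / 3 * ((x - 1) * (x - 2) * (1 / y)) + 3 / 10 * ((x - 1) * (x - 2)) := by
      rw [hS]; ring
    rw [h2] at h1
    exact h1
  rw [mul_add, numA_third hx]
  have hfin : 10 / 3 * (3 * (x - 2)) + 10 / 3 * ((x - 2) * (30 + x - 3 * y) / 10)
      + 3 / 10 * ((x - 1) * (x - 2)) + 2 / 3 * ((y - 1) * (y - 2))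
      ≤ (x - 1) * (x - 4) - x * (y - 1) := by
    nlinarith [mul_nonneg (sub_nonneg.2 hxy) (show 0 ≤ x + 3 * y by linarith),
      mul_nonneg (sub_nonneg.2 hx) (sub_nonneg.2 hx)]
  linarith

theorem num_small {n r : ℕ} (hn : 100 ≤ n) (h1 : n ≤ r * r) (h2 : 3 * r ≤ n) :
    2 * ((n : ℝ) - 1) * ((n : ℝ) - 2)
      * (Real.sqrt (1 / ((n : ℝ) - 2 * r + 1) + 1 / (r : ℝ))
        + ((r : ℝ) - 1) * ((r : ℝ) - 2) * ((r : ℝ) - 3)
          / (((n : ℝ) - 1) * ((n : ℝ) - 2) * ((n : ℝ) - 3)))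
      ≤ ((n : ℝ) - 1) * ((n : ℝ) - 4) - (n : ℝ) * ((r : ℝ) - 1) := by
  have hr : 10 ≤ r := by
    by_contra hlt
    have : r ≤ 9 := by omega
    have h3 : r * r ≤ 9 * 9 := Nat.mul_le_mul this this
    omega
  have a1 : (100 : ℝ) ≤ (n : ℝ) := by exact_mod_cast hn
  have a2 : (10 : ℝ) ≤ (r : ℝ) := by exact_mod_cast hr
  have a3 : 3 * (r : ℝ) ≤ (n : ℝ) := by exact_mod_cast h2
  exact numA_small a1 a2 a3

private theorem numA_mid {x y : ℝ} (hx : 100 ≤ x) (h1 : x + 1 ≤ 3 * y) (h2 : 2 * y ≤ x) :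
    2 * (x - 1) * (x - 2)
      * (2 * (x - 1) / (y * (y - 1)) + 1 / y
        + (y - 1) * (y - 2) * (y - 3) / ((x - 1) * (x - 2) * (x - 3)))
      ≤ (x - 1) * (x - 4) - x * (y - 1) := by
  have hy0 : 0 < y := by linarith
  have hy1 : 0 < y - 1 := by linarith
  set b : ℝ := (x - 2) / (y - 1) with hb
  have hbv : b * (y - 1) = x - 2 := by
    rw [hb]; field_simp
  have hb3 : b ≤ 3 := by
    rw [hb, div_le_iff₀ hy1]; linarith
  have hb2 : 2 ≤ b := by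
    rw [hb, le_div_iff₀ hy1]; linarith
  have ha : (x - 1) / y ≤ b := by
    rw [hb, div_le_div_iff₀ hy0 hy1]
    nlinarith
  have hvb : b * (x - 2) ≤ 5 * (x - 2) - 6 * (y - 1) := by
    have h := mul_nonneg (mul_nonneg (sub_nonneg.2 hb2) (sub_nonneg.2 hb3)) hy1.le
    nlinarith
  have hbb : b * b ≤ 5 * b - 6 := by
    nlinarith [mul_nonneg (sub_nonneg.2 hb2) (sub_nonneg.2 hb3)]
  -- first term
  have hA : 2 * (x - 1) * (x - 2) * (2 * (x - 1) / (y * (y - 1))) ≤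
      76 * (x - 2) - 120 * (y - 1) + 36 := by
    have e1 : 2 * (x - 1) * (x - 2) * (2 * (x - 1) / (y * (y - 1))) =
        4 * (x - 1) * (((x - 1) / y) * b) := by
      rw [hb]; field_simp; ring
    rw [e1]
    have e2 : ((x - 1) / y) * b ≤ b * b := mul_le_mul_of_nonneg_right ha (by linarith)
    have e3 : 4 * (x - 1) * (((x - 1) / y) * b) ≤ 4 * (x - 1) * (5 * b - 6) :=
      mul_le_mul_of_nonneg_left (e2.trans hbb) (by linarith)
    refine e3.trans ?_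
    nlinarith
  have hB : 2 * (x - 1) * (x - 2) * (1 / y) ≤ 10 * (x - 2) - 12 * (y - 1) := by
    have e1 : 2 * (x - 1) * (x - 2) * (1 / y) = 2 * (x - 2) * ((x - 1) / y) := by
      field_simp
    rw [e1]
    have e2 : 2 * (x - 2) * ((x - 1) / y) ≤ 2 * (x - 2) * b :=
      mul_le_mul_of_nonneg_left ha (by linarith)
    nlinarith
  have hC : 2 * ((y - 1) * (y - 2) * (y - 3)) / (x - 3) ≤ (y - 1) * (y - 2) := by
    rw [div_le_iff₀ (by linarith)]
    have h3 : 0 ≤ (y - 1) * (y - 2) := by nlinarith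
    nlinarith [mul_nonneg h3 (show 0 ≤ x - 2 * y + 3 by linarith)]
  rw [mul_add, mul_add, numA_third hx]
  have hfin : (76 * (x - 2) - 120 * (y - 1) + 36) + (10 * (x - 2) - 12 * (y - 1))
      + (y - 1) * (y - 2) ≤ (x - 1) * (x - 4) - x * (y - 1) := by
    nlinarith [mul_nonneg (show 0 ≤ 3 * y - x - 1 by linarith) (sub_nonneg.2 h2),
      mul_nonneg (sub_nonneg.2 hx) (sub_nonneg.2 h2), mul_nonneg (sub_nonneg.2 hx) (sub_nonneg.2 hx)]
  linarith

theorem num_mid {n r : ℕ} (hn : 100 ≤ n) (h1 : n < 3 * r) (h2 : 2 * r ≤ n) :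
    2 * ((n : ℝ) - 1) * ((n : ℝ) - 2)
      * (2 * ((n : ℝ) - 1) / ((r : ℝ) * ((r : ℝ) - 1)) + 1 / (r : ℝ)
        + ((r : ℝ) - 1) * ((r : ℝ) - 2) * ((r : ℝ) - 3)
          / (((n : ℝ) - 1) * ((n : ℝ) - 2) * ((n : ℝ) - 3)))
      ≤ ((n : ℝ) - 1) * ((n : ℝ) - 4) - (n : ℝ) * ((r : ℝ) - 1) := by
  have a1 : (100 : ℝ) ≤ (n : ℝ) := by exact_mod_cast hn
  have a2 : (n : ℝ) + 1 ≤ 3 * (r : ℝ) := by exact_mod_cast h1
  have a3 : 2 * (r : ℝ) ≤ (n : ℝ) := by exact_mod_cast h2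
  exact numA_mid a1 a2 a3

end Pool.H60.TA
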