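import Pool.Agent.H60.TA.Defs

set_option autoImplicit false

/-!
# Top scale, all `n`: numerical inequalities, large sets

`num_large`: `i = n - a ≥ 4`, `a ≥ i + 1`: it says `(n-1)(n-2)/a + (i-1)(i-2)(i-3)/(n-3) ≤ (i-2)(a-1)`;
`(i-3)/(n-3) ≤ 1/2` and `2(n-1)(n-2) ≤ a(i-2)(2a-i-1)`, since the difference is
`(a+2)(i-4)(a-1-i) + a(a-8)(i-4) + 2a² - 20a - 12`.
-/

open Finset Equiv Pool.H98.BE Pool.H60.TP
open scoped InnerProductSpace

namespace Pool.H60.TA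

theorem num_large {n a : ℕ} (hn : 100 ≤ n) (h1 : n < 2 * a) (h2 : a + 4 ≤ n) :
    (a : ℝ) * ((a : ℝ) - 1) + ((n : ℝ) - a) * ((n : ℝ) - a - 3)
      + 2 * ((n : ℝ) - 1) * ((n : ℝ) - 2)
        * (1 / (a : ℝ)
          + ((n : ℝ) - a - 1) * ((n : ℝ) - a - 2) * ((n : ℝ) - a - 3)
            / (((n : ℝ) - 1) * ((n : ℝ) - 2) * ((n : ℝ) - 3)))
      ≤ ((n : ℝ) - 1) * ((n : ℝ) - 4) := by
  obtain ⟨i, hi⟩ : ∃ i : ℕ, n = a + i := ⟨n - a, by omega⟩
  have hi4 : 4 ≤ i := by omega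
  have hai : i + 1 ≤ a := by omega
  have ha51 : 51 ≤ a := by omega
  have hnr : (n : ℝ) = a + i := by rw [hi]; push_cast; ring
  have hi4r : (4 : ℝ) ≤ i := by exact_mod_cast hi4
  have hair : (i : ℝ) + 1 ≤ a := by exact_mod_cast hai
  have ha51r : (51 : ℝ) ≤ a := by exact_mod_cast ha51
  rw [hnr]
  generalize (a : ℝ) = x at *
  generalize (i : ℝ) = y at *
  have hx0 : 0 < x := by linarith
  have e0 : x + y - x = y := by ring
  rw [e0]
  have d1 : 0 < x + y - 1 := by linarith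
  have d2 : 0 < x + y - 2 := by linarith
  have d3 : 0 < x + y - 3 := by linarith
  have e1 : 2 * (x + y - 1) * (x + y - 2) * (1 / x + (y - 1) * (y - 2) * (y - 3) /
      ((x + y - 1) * (x + y - 2) * (x + y - 3))) =
      2 * ((x + y - 1) * (x + y - 2)) / x + 2 * ((y - 1) * (y - 2) * ((y - 3) / (x + y - 3))) := by
    field_simp
  rw [e1]
  have f1 : (y - 3) / (x + y - 3) ≤ 1 / 2 := by
    rw [div_le_iff₀ d3]; linarith
  have f2 : (y - 1) * (y - 2) * ((y - 3) / (x + y - 3)) ≤ (y - 1) * (y - 2) * (1 / 2) :=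
    mul_le_mul_of_nonneg_left f1 (mul_nonneg (by linarith) (by linarith))
  have f3 : 2 * ((x + y - 1) * (x + y - 2)) / x ≤ (y - 2) * (2 * x - y - 1) := by
    rw [div_le_iff₀ hx0]
    have g1 : 0 ≤ (x + 2) * ((y - 4) * (x - 1 - y)) :=
      mul_nonneg (by linarith) (mul_nonneg (by linarith) (by linarith))
    have g2 : 0 ≤ x * (x - 8) * (y - 4) :=
      mul_nonneg (mul_nonneg hx0.le (by linarith)) (by linarith)
    have g3 : 0 ≤ 2 * x ^ 2 - 20 * x - 12 := by nlinarith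
    have g4 : (y - 2) * (2 * x - y - 1) * x - 2 * ((x + y - 1) * (x + y - 2)) =
        (x + 2) * ((y - 4) * (x - 1 - y)) + x * (x - 8) * (y - 4) + (2 * x ^ 2 - 20 * x - 12) := by
      ring
    linarith
  have f4 : (x + y - 1) * (x + y - 4) = x * (x - 1) + y * (y - 3) + 2 * ((y - 2) * (x - 1)) := by
    ring
  have f5 : (y - 2) * (2 * x - y - 1) + 2 * ((y - 1) * (y - 2) * (1 / 2)) =
      2 * ((y - 2) * (x - 1)) := by ring
  linarith

theorem num_three {n a : ℕ} (hn : 100 ≤ n) (h1 : a + 3 = n) :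
    (a : ℝ) * ((a : ℝ) - 1) + ((n : ℝ) - a) * ((n : ℝ) - a - 3)
      + 2 * ((n : ℝ) - 1) * ((n : ℝ) - 2)
        * (6 / (((n : ℝ) - 1) * ((n : ℝ) - 2)) + 2 / ((a : ℝ) * ((a : ℝ) - 1)))
      ≤ ((n : ℝ) - 1) * ((n : ℝ) - 4) := by
  have ha : 97 ≤ a := by omega
  have har : (97 : ℝ) ≤ a := by exact_mod_cast ha
  have hnr : (n : ℝ) = a + 3 := by rw [← h1]; push_cast; ring
  rw [hnr]
  generalize (a : ℝ) = x at *
  have d0 : 0 < x * (x - 1) := mul_pos (by linarith) (by linarith)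
  have d1 : 0 < x + 3 - 1 := by linarith
  have d2 : 0 < x + 3 - 2 := by linarith
  have e1 : 2 * (x + 3 - 1) * (x + 3 - 2) * (6 / ((x + 3 - 1) * (x + 3 - 2)) + 2 / (x * (x - 1))) =
      12 + 4 * ((x + 2) * (x + 1) / (x * (x - 1))) := by
    have h3 : x - 1 ≠ 0 := by linarith
    have h4 : x ≠ 0 := by linarith
    field_simp
    ring
  have f1 : (x + 2) * (x + 1) / (x * (x - 1)) ≤ 2 := by
    rw [div_le_iff₀ d0]; nlinarith
  rw [e1]
  nlinarith

theorem num_twist {n b : ℕ} (hn : 100 ≤ n) (h1 : n < 2 * b) (h2 : b + 1 ≤ n) :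
    -((b : ℝ) * ((b : ℝ) - 1) - ((n : ℝ) - b) * ((n : ℝ) - b + 1))
      + 2 * ((n : ℝ) - 1) * ((n : ℝ) - 2)
        * (1 / (b : ℝ)
          + ((n : ℝ) - b - 1) * ((n : ℝ) - b - 2) / (((n : ℝ) - 1) * ((n : ℝ) - 2)))
      ≤ ((n : ℝ) - 1) * ((n : ℝ) - 4) := by
  obtain ⟨i, hi⟩ : ∃ i : ℕ, n = b + i := ⟨n - b, by omega⟩
  have hi1 : 1 ≤ i := by omega
  have hbi : i + 1 ≤ b := by omega
  have hnr : (n : ℝ) = b + i := by rw [hi]; push_cast; ring
  have hi1r : (1 : ℝ) ≤ i := by exact_mod_cast hi1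
  have hbir : (i : ℝ) + 1 ≤ b := by exact_mod_cast hbi
  have hnnr : (100 : ℝ) ≤ b + i := by rw [← hnr]; exact_mod_cast hn
  rw [hnr]
  generalize (b : ℝ) = x at *
  generalize (i : ℝ) = y at *
  have hx0 : 0 < x := by linarith
  have e0 : x + y - x = y := by ring
  rw [e0]
  have d1 : 0 < x + y - 1 := by linarith
  have d2 : 0 < x + y - 2 := by linarith
  have e1 : 2 * (x + y - 1) * (x + y - 2) * (1 / x + (y - 1) * (y - 2) /
      ((x + y - 1) * (x + y - 2))) =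
      2 * ((x + y - 1) * (x + y - 2)) / x + 2 * ((y - 1) * (y - 2)) := by
    field_simp
  rw [e1]
  have f1 : 2 * ((x + y - 1) * (x + y - 2)) / x ≤ 4 * (x + y) := by
    rw [div_le_iff₀ hx0]
    nlinarith
  have f2 : 0 ≤ x * (x - 1) - y * (y + 1) := by
    have : y * (y + 1) ≤ (x - 1) * x := mul_le_mul (by linarith) hbir (by linarith) (by linarith)
    linarith
  have f3 : 2 * ((y - 1) * (y - 2)) ≤ (x + y) ^ 2 / 2 := by
    have g1 : 2 * y ≤ x + y := by linarith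
    have g2 : (2 * y) ^ 2 ≤ (x + y) ^ 2 := pow_le_pow_left₀ (by linarith) g1 2
    nlinarith
  nlinarith

end Pool.H60.TA
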