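import Pool.Agent.H60.TA.Exact

set_option autoImplicit false

/-!
# Top scale, all `n`: almost orthogonality
-/

open Finset Equiv Pool.H98.BE Pool.H60.TP
open scoped InnerProductSpace

namespace Pool.H60.TA

theorem orth_le {n : ℕ} {E : Submodule ℝ (QV n)} (hE : InvS univ E) {a : ℕ} (ha : 1 ≤ a)
    (hm : MaxS univ E a) {S S' : Finset (Fin n)} (hS : S.card = a) (hS' : S'.card = a)
    (hi : (S ∩ S').card + 1 = a) {u w : QV n} (hw : w ∈ E) (hfu : Fx S u) (hfw : Fx S' w) :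
    |⟪u, w⟫_ℝ| ≤ ‖u‖ * ‖w‖ * (1 / (a : ℝ)) := by
  classical
  have hsd : (S \ S').card = 1 := by
    have := card_sdiff_add_card_inter S S'
    omega
  have hsd' : (S' \ S).card = 1 := by
    have := card_sdiff_add_card_inter S' S
    rw [inter_comm] at this
    omega
  obtain ⟨c, hc⟩ := card_eq_one.1 hsd
  obtain ⟨x0, hx0⟩ := card_eq_one.1 hsd'
  have hcS : c ∈ S ∧ c ∉ S' := by
    have : c ∈ S \ S' := by rw [hc]; exact mem_singleton_self c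
    exact mem_sdiff.1 this
  have h1 := exact_rel hE hm (subset_univ S') hS'.ge hw hfw (mem_univ c) hcS.2
  have h2 : ⟪u, w⟫_ℝ + ∑ x ∈ S', ⟪u, qrho n (Equiv.swap x c) w⟫_ℝ = 0 := by
    have := congrArg (fun z => ⟪u, z⟫_ℝ) h1
    simpa only [inner_add_right, inner_sum, inner_zero_right] using this
  have h3 : insert x0 (S ∩ S') = S' := by
    rw [insert_eq, ← hx0, inter_comm S S']
    exact sdiff_union_inter S' S
  have hx0n : x0 ∉ S ∩ S' := by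
    have : x0 ∈ S' \ S := by rw [hx0]; exact mem_singleton_self x0
    intro h
    exact (mem_sdiff.1 this).2 (mem_inter.1 h).1
  have h4 : ∑ x ∈ S', ⟪u, qrho n (Equiv.swap x c) w⟫_ℝ =
      ⟪u, qrho n (Equiv.swap x0 c) w⟫_ℝ + ((a : ℝ) - 1) * ⟪u, w⟫_ℝ := by
    have h5 : ∑ x ∈ insert x0 (S ∩ S'), ⟪u, qrho n (Equiv.swap x c) w⟫_ℝ =
        ⟪u, qrho n (Equiv.swap x0 c) w⟫_ℝ + ((a : ℝ) - 1) * ⟪u, w⟫_ℝ := by
      rw [sum_insert hx0n]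
      congr 1
      have h6 : ∀ x ∈ S ∩ S', ⟪u, qrho n (Equiv.swap x c) w⟫_ℝ = ⟪u, w⟫_ℝ := by
        intro x hx
        have h7 := hfu x (mem_inter.1 hx).1 c hcS.1
        conv_lhs => rw [← h7]
        exact qrho_inner _ _ _
      rw [sum_congr rfl h6, sum_const, nsmul_eq_mul]
      congr 1
      rw [← hi]
      push_cast
      ring
    rw [← h5, h3]
  rw [h4] at h2
  have ha' : (0 : ℝ) < a := by exact_mod_cast ha
  have h5 : (a : ℝ) * ⟪u, w⟫_ℝ = -⟪u, qrho n (Equiv.swap x0 c) w⟫_ℝ := by linarith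
  have h6 : ‖qrho n (Equiv.swap x0 c) w‖ = ‖w‖ := by
    have h7 := qrho_inner (n := n) (Equiv.swap x0 c) w w
    rw [real_inner_self_eq_norm_sq, real_inner_self_eq_norm_sq] at h7
    exact (sq_eq_sq₀ (norm_nonneg _) (norm_nonneg _)).1 h7
  have h7 : (a : ℝ) * |⟪u, w⟫_ℝ| ≤ ‖u‖ * ‖w‖ := by
    rw [← abs_of_pos ha', ← abs_mul, h5, abs_neg]
    refine (abs_real_inner_le_norm _ _).trans ?_
    rw [h6]
  rw [mul_one_div, le_div_iff₀ ha']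
  linarith

theorem bessel_like {V : Type*} [NormedAddCommGroup V] [InnerProductSpace ℝ V] {ι : Type*}
    [DecidableEq ι] (s : Finset ι) (hs : 1 ≤ s.card) (u : ι → V) (v : V) (ε : ℝ) (hε : 0 ≤ ε)
    (h1 : ∀ k ∈ s, ⟪u k, v⟫_ℝ = ‖u k‖ ^ 2)
    (h2 : ∀ k ∈ s, ∀ l ∈ s, k ≠ l → |⟪u k, u l⟫_ℝ| ≤ ‖u k‖ * ‖u l‖ * ε) :
    ∑ k ∈ s, ‖u k‖ ^ 2 ≤ (1 + ((s.card : ℝ) - 1) * ε) * ‖v‖ ^ 2 := by
  set X : ℝ := ∑ k ∈ s, ‖u k‖ ^ 2 with hX
  have hX0 : 0 ≤ X := sum_nonneg fun k _ => by positivity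
  have hs1 : (1 : ℝ) ≤ s.card := by exact_mod_cast hs
  have hM : 0 ≤ 1 + ((s.card : ℝ) - 1) * ε := by
    have : 0 ≤ ((s.card : ℝ) - 1) * ε := mul_nonneg (by linarith) hε
    linarith
  -- the square of the norm of the sum
  have h3 : ‖∑ k ∈ s, u k‖ ^ 2 ≤ (1 + ((s.card : ℝ) - 1) * ε) * X := by
    rw [← real_inner_self_eq_norm_sq, sum_inner]
    have h4 : ∀ k ∈ s, ⟪u k, ∑ l ∈ s, u l⟫_ℝ ≤
        ‖u k‖ ^ 2 + ∑ l ∈ s.erase k, ε / 2 * (‖u k‖ ^ 2 + ‖u l‖ ^ 2) := by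
      intro k hk
      rw [inner_sum, ← add_sum_erase s _ hk, real_inner_self_eq_norm_sq]
      gcongr with l hl
      have h5 := h2 k hk l (mem_of_mem_erase hl) (ne_of_mem_erase hl).symm
      have h6 : ‖u k‖ * ‖u l‖ * ε ≤ ε / 2 * (‖u k‖ ^ 2 + ‖u l‖ ^ 2) := by
        nlinarith [mul_nonneg hε (sq_nonneg (‖u k‖ - ‖u l‖))]
      exact (le_abs_self _).trans (h5.trans h6)
    refine (sum_le_sum h4).trans (le_of_eq ?_)
    rw [sum_add_distrib, ← hX]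
    have h5 : ∀ k ∈ s, ∑ l ∈ s.erase k, ε / 2 * (‖u k‖ ^ 2 + ‖u l‖ ^ 2) =
        ε / 2 * (((s.card : ℝ) - 2) * ‖u k‖ ^ 2 + X) := by
      intro k hk
      rw [← mul_sum, sum_add_distrib, sum_const, card_erase_of_mem hk, nsmul_eq_mul,
        Nat.cast_sub hs, Nat.cast_one, hX, ← add_sum_erase s (fun l => ‖u l‖ ^ 2) hk]
      ring
    rw [sum_congr rfl h5, ← mul_sum, sum_add_distrib, ← mul_sum, sum_const, nsmul_eq_mul, ← hX]
    ring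
  have h4 : X ≤ ‖∑ k ∈ s, u k‖ * ‖v‖ := by
    have h5 : X = ⟪∑ k ∈ s, u k, v⟫_ℝ := by
      rw [sum_inner, hX]
      exact sum_congr rfl fun k hk => (h1 k hk).symm
    rw [h5]
    exact real_inner_le_norm _ _
  have h5 : X ^ 2 ≤ (1 + ((s.card : ℝ) - 1) * ε) * X * ‖v‖ ^ 2 := by
    calc X ^ 2 ≤ (‖∑ k ∈ s, u k‖ * ‖v‖) ^ 2 := pow_le_pow_left₀ hX0 h4 2
      _ = ‖∑ k ∈ s, u k‖ ^ 2 * ‖v‖ ^ 2 := by ring
      _ ≤ _ := mul_le_mul_of_nonneg_right h3 (by positivity)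
  rcases hX0.eq_or_lt with h6 | h6
  · rw [← h6]
    positivity
  · refine le_of_mul_le_mul_left ?_ h6
    nlinarith

end Pool.H60.TA
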