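import Pool.Agent.H60.TA.Exact
import Pool.Agent.H61.TP2.Alt

set_option autoImplicit false

/-!
# Top scale, all `n`: the two maximal sizes
-/

open Finset Equiv Pool.H98.BE Pool.H60.TP
open scoped InnerProductSpace

namespace Pool.H60.TA

theorem rect {n : ℕ} {E : Submodule ℝ (QV n)} (hE : InvS univ E) (h0 : E ≠ ⊥) {a b : ℕ}
    (ha : MaxS univ E a) (hb : MaxS univ (E.map (sgnm n)) b) : n ≤ a * b := by
  by_contra hlt
  push Not at hlt
  obtain ⟨B, -, hB, u, hu, hu0, hs⟩ := Pool.H61.TP2.exists_sgn (ρ := qrho n) a (b + 1) univ E h0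
    hE ha (by
      rw [card_univ, Fintype.card_fin, Nat.succ_mul, mul_comm b a]
      omega)
  have h1 : sgnm n u ≠ 0 := by
    intro h
    apply hu0
    rw [← sgnm_sgnm u, h, map_zero]
  have h2 : Fx B (sgnm n u) := by
    intro x hx y hy
    rcases eq_or_ne x y with rfl | hxy
    · rw [Equiv.swap_self]
      have h3 : qrho n 1 (sgnm n u) = sgnm n u := by
        rw [map_one]
        rfl
      exact h3
    · have h3 := sgnm_qrho (Equiv.swap x y) u
      rw [hs x hx y hy hxy, map_neg, Perm.sign_swap hxy] at h3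
      have h4 : (((-1 : ℤˣ) : ℤ) : ℝ) = -1 := by norm_num
      rw [h4, neg_one_smul, neg_inj] at h3
      exact h3.symm
  have h3 := hb B (subset_univ B) _ (Submodule.mem_map_of_mem hu) h1 h2
  omega

end Pool.H60.TA
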