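import Pool.Agent.H60.TA.Defs

set_option autoImplicit false

/-!
# Top scale, all `n`: the transpositions on a vector fixed by a symmetric group
-/

open Finset Equiv Pool.H98.BE Pool.H60.TP
open scoped InnerProductSpace

namespace Pool.H60.TA

private theorem Split_T2 {n : ℕ} (S : Finset (Fin n)) (w : QV n) :
    T2 (qrho n) S w = ∑ x ∈ S, ∑ y ∈ S.erase x, qrho n (Equiv.swap x y) w := by
  rw [T2, LinearMap.sum_apply]
  refine Finset.sum_congr rfl fun x _ => ?_
  rw [J, LinearMap.sum_apply]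

private theorem Split_mul {n : ℕ} (σ τ : Perm (Fin n)) (v : QV n) :
    qrho n (σ * τ) v = qrho n σ (qrho n τ v) := by
  rw [map_mul]
  rfl

theorem T2_split {n : ℕ} {S A : Finset (Fin n)} (hAS : A ⊆ S) {v : QV n} (hf : Fx A v)
    (hr : ∀ c ∈ S, c ∉ A → v + ∑ x ∈ A, qrho n (Equiv.swap x c) v = 0) :
    T2 (qrho n) S v = ((A.card : ℝ) * ((A.card : ℝ) - 1) - 2 * ((S.card : ℝ) - (A.card : ℝ))) • v
      + T2 (qrho n) (S \ A) v := by
  have hex : ∀ c ∈ S \ A, ∑ x ∈ A, qrho n (Equiv.swap x c) v = -v := by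
    intro c hc
    obtain ⟨hcS, hcA⟩ := mem_sdiff.1 hc
    have h1 := hr c hcS hcA
    rw [add_comm] at h1
    exact eq_neg_of_add_eq_zero_left h1
  have hex' : ∀ c ∈ S \ A, ∑ x ∈ A, qrho n (Equiv.swap c x) v = -v := by
    intro c hc
    rw [← hex c hc]
    exact sum_congr rfl fun x _ => by rw [Equiv.swap_comm]
  have hdisj : Disjoint A (S \ A) := disjoint_sdiff
  have hS : A ∪ (S \ A) = S := union_sdiff_of_subset hAS
  have hcard : ((S \ A).card : ℝ) = (S.card : ℝ) - (A.card : ℝ) := by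
    rw [card_sdiff_of_subset hAS, Nat.cast_sub (card_le_card hAS)]
  have e1 : ∑ x ∈ A, ∑ y ∈ S.erase x, qrho n (Equiv.swap x y) v =
      ((A.card : ℝ) * ((A.card : ℝ) - 1)) • v
        + ∑ x ∈ A, ∑ y ∈ S \ A, qrho n (Equiv.swap x y) v := by
    have h1 : ∀ x ∈ A, ∑ y ∈ S.erase x, qrho n (Equiv.swap x y) v =
        ((A.card : ℝ) - 1) • v + ∑ y ∈ S \ A, qrho n (Equiv.swap x y) v := by
      intro x hx
      have h2 : S.erase x = A.erase x ∪ (S \ A) := by
        ext y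
        simp only [mem_erase, mem_union, mem_sdiff]
        constructor
        · rintro ⟨h3, h4⟩
          by_cases hyA : y ∈ A
          · exact Or.inl ⟨h3, hyA⟩
          · exact Or.inr ⟨h4, hyA⟩
        · rintro (⟨h3, h4⟩ | ⟨h3, h4⟩)
          · exact ⟨h3, hAS h4⟩
          · exact ⟨by rintro rfl; exact h4 hx, h3⟩
      rw [h2, sum_union (hdisj.mono_left (erase_subset _ _))]
      congr 1
      rw [sum_congr rfl fun y hy => hf x hx y (mem_of_mem_erase hy), sum_const,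
        card_erase_of_mem hx, ← Nat.cast_smul_eq_nsmul ℝ,
        Nat.cast_sub (card_pos.2 ⟨x, hx⟩), Nat.cast_one]
    rw [sum_congr rfl h1, sum_add_distrib, sum_const, ← Nat.cast_smul_eq_nsmul ℝ, smul_smul]
  have e2 : ∑ x ∈ A, ∑ y ∈ S \ A, qrho n (Equiv.swap x y) v = (-((S \ A).card : ℝ)) • v := by
    rw [sum_comm, sum_congr rfl hex, sum_const, ← Nat.cast_smul_eq_nsmul ℝ, smul_neg, neg_smul]
  have e3 : ∑ x ∈ S \ A, ∑ y ∈ S.erase x, qrho n (Equiv.swap x y) v =
      (-((S \ A).card : ℝ)) • v + T2 (qrho n) (S \ A) v := by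
    have h1 : ∀ x ∈ S \ A, ∑ y ∈ S.erase x, qrho n (Equiv.swap x y) v =
        -v + ∑ y ∈ (S \ A).erase x, qrho n (Equiv.swap x y) v := by
      intro x hx
      have hxA := (mem_sdiff.1 hx).2
      have h2 : S.erase x = A ∪ (S \ A).erase x := by
        ext y
        simp only [mem_erase, mem_union, mem_sdiff]
        constructor
        · rintro ⟨h3, h4⟩
          by_cases hyA : y ∈ A
          · exact Or.inl hyA
          · exact Or.inr ⟨h3, h4, hyA⟩
        · rintro (h3 | ⟨h3, h4, h5⟩)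
          · exact ⟨by rintro rfl; exact hxA h3, hAS h3⟩
          · exact ⟨h3, h4⟩
      rw [h2, sum_union (hdisj.mono_right (erase_subset _ _)), hex' x hx]
    rw [sum_congr rfl h1, sum_add_distrib, sum_const, ← Nat.cast_smul_eq_nsmul ℝ, smul_neg,
      neg_smul, Split_T2]
  have e0 : T2 (qrho n) S v = ∑ x ∈ A, ∑ y ∈ S.erase x, qrho n (Equiv.swap x y) v +
      ∑ x ∈ S \ A, ∑ y ∈ S.erase x, qrho n (Equiv.swap x y) v := by
    rw [Split_T2, ← sum_union hdisj, hS]
  rw [e0, e1, e2, e3, ← hcard]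
  have h4 : ((A.card : ℝ) * ((A.card : ℝ) - 1) - 2 * ((S \ A).card : ℝ)) • v =
      ((A.card : ℝ) * ((A.card : ℝ) - 1)) • v + (-((S \ A).card : ℝ)) • v
        + (-((S \ A).card : ℝ)) • v := by
    rw [← add_smul, ← add_smul]
    congr 1
    ring
  rw [h4]
  abel

theorem T2_abs {n : ℕ} (S : Finset (Fin n)) (v : QV n) :
    |⟪T2 (qrho n) S v, v⟫_ℝ| ≤ (S.card : ℝ) * ((S.card : ℝ) - 1) * ⟪v, v⟫_ℝ := by
  have h0 : ∀ σ : Perm (Fin n), |⟪qrho n σ v, v⟫_ℝ| ≤ ⟪v, v⟫_ℝ := by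
    intro σ
    have h1 : ‖qrho n σ v‖ = ‖v‖ := by
      rw [← sq_eq_sq₀ (norm_nonneg _) (norm_nonneg _), ← real_inner_self_eq_norm_sq,
        ← real_inner_self_eq_norm_sq, qrho_inner]
    have h2 := abs_real_inner_le_norm (qrho n σ v) v
    rwa [h1, ← pow_two, ← real_inner_self_eq_norm_sq] at h2
  rw [Split_T2, sum_inner]
  refine (Finset.abs_sum_le_sum_abs _ _).trans ?_
  have h3 : ∀ x ∈ S, |⟪∑ y ∈ S.erase x, qrho n (Equiv.swap x y) v, v⟫_ℝ| ≤
      ((S.card : ℝ) - 1) * ⟪v, v⟫_ℝ := by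
    intro x hx
    rw [sum_inner]
    refine (Finset.abs_sum_le_sum_abs _ _).trans ?_
    refine (Finset.sum_le_sum fun y _ => h0 _).trans ?_
    rw [Finset.sum_const, Finset.card_erase_of_mem hx, nsmul_eq_mul,
      Nat.cast_sub (Finset.card_pos.mpr ⟨x, hx⟩), Nat.cast_one]
  refine (Finset.sum_le_sum h3).trans ?_
  rw [Finset.sum_const, nsmul_eq_mul, mul_assoc]

theorem T2_swap {n : ℕ} {S : Finset (Fin n)} {x y : Fin n} (hx : x ∈ S) (hy : y ∈ S) (w : QV n) :
    T2 (qrho n) S (qrho n (Equiv.swap x y) w) = qrho n (Equiv.swap x y) (T2 (qrho n) S w) := by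
  have hs : ∀ a, Equiv.swap x y a ∈ S ↔ a ∈ S := by
    intro a
    by_cases h1 : a = x
    · rw [h1, Equiv.swap_apply_left]
      exact ⟨fun _ => hx, fun _ => hy⟩
    · by_cases h2 : a = y
      · rw [h2, Equiv.swap_apply_right]
        exact ⟨fun _ => hy, fun _ => hx⟩
      · rw [Equiv.swap_apply_of_ne_of_ne h1 h2]
  rw [Split_T2, Split_T2, map_sum]
  symm
  refine Finset.sum_equiv (Equiv.swap x y) (fun a => (hs a).symm) ?_
  intro p _
  rw [map_sum]
  refine Finset.sum_equiv (Equiv.swap x y) ?_ ?_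
  · intro q
    rw [mem_erase, mem_erase, hs]
    exact and_congr_left fun _ => not_congr (Equiv.swap x y).injective.eq_iff.symm
  · intro q _
    rw [← Split_mul, ← Split_mul, Equiv.mul_swap_eq_swap_mul]

theorem T2_mem {n : ℕ} {S : Finset (Fin n)} {U : Submodule ℝ (QV n)} (hU : InvS S U) {w : QV n}
    (hw : w ∈ U) : T2 (qrho n) S w ∈ U := by
  rw [Split_T2]
  exact U.sum_mem fun x hx => U.sum_mem fun y hy => hU x hx y (mem_of_mem_erase hy) w hw

end Pool.H60.TA
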