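import Pool.Agent.H60.TA.Exact
import Pool.Agent.H98.TA.Tau

set_option autoImplicit false

/-!
# Top scale, all `n`: bounds of the eigenvalue of the sum of the transpositions
-/

open Finset Equiv Pool.H98.BE Pool.H60.TP
open scoped InnerProductSpace

namespace Pool.H60.TA

private theorem Tau_inv {n : ℕ} {E : Submodule ℝ (QV n)} (hE : InvS univ E) :
    Invar (qrho n) E :=
  fun _ _ hu => invS_perm hE (fun x hx => absurd (mem_univ x) hx) hu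

private theorem Tau_max {n : ℕ} {E : Submodule ℝ (QV n)} {a : ℕ} (hm : MaxS univ E a) :
    ∀ B : Finset (Fin n), B.card = a + 1 → ∀ u ∈ E, FixIn (qrho n) B u → u = 0 := by
  intro B hB u hu hfu
  by_contra hne
  have h1 := hm B (subset_univ B) u hu hne hfu
  omega

theorem tau_le {n : ℕ} {q : Perm (Fin n)} {E : Submodule ℝ (QV n)} {τ κ : ℝ} {a : ℕ}
    (h : Sit q E τ κ a) :
    τ ≤ (a : ℝ) * ((a : ℝ) - 1) + ((n : ℝ) - a) * ((n : ℝ) - a - 3) := by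
  obtain ⟨A, hA, v, hv, hv0, hf⟩ := h.ex
  exact (Pool.H98.TA.tau_mid (ρ := qrho n) qrho_inner (Tau_inv h.inv) (Tau_max h.max) hA hv hv0 hf
    (h.t2 v hv)).2

theorem le_tau {n : ℕ} {q : Perm (Fin n)} {E : Submodule ℝ (QV n)} {τ κ : ℝ} {a : ℕ}
    (h : Sit q E τ κ a) :
    (a : ℝ) * ((a : ℝ) - 1) - ((n : ℝ) - a) * ((n : ℝ) - a + 1) ≤ τ := by
  obtain ⟨A, hA, v, hv, hv0, hf⟩ := h.ex
  exact (Pool.H98.TA.tau_mid (ρ := qrho n) qrho_inner (Tau_inv h.inv) (Tau_max h.max) hA hv hv0 hf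
    (h.t2 v hv)).1

theorem tau_le' {n : ℕ} {q : Perm (Fin n)} {E : Submodule ℝ (QV n)} {τ κ : ℝ} {a : ℕ}
    (h : Sit q E τ κ a) : τ ≤ (n : ℝ) * ((a : ℝ) - 1) := by
  obtain ⟨A, hA, v, hv, hv0, hf⟩ := h.ex
  exact Pool.H98.TA.tau_top (ρ := qrho n) qrho_inner (Tau_inv h.inv) (Tau_max h.max) hv hv0
    (h.t2 v hv)

end Pool.H60.TA
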