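import Pool.Agent.H60.TA.FxPerm

set_option autoImplicit false

/-!
# Top scale, all `n`: multiplication by the sign
-/

open Finset Equiv Pool.H98.BE Pool.H60.TP
open scoped InnerProductSpace

namespace Pool.H60.TA

private theorem Twist_qrho {n : ℕ} (σ : Perm (Fin n)) (f : QV n) :
    qrho n σ (sgnm n f) = ((Perm.sign σ : ℤ) : ℝ) • sgnm n (qrho n σ f) := by
  rw [sgnm_qrho, smul_smul, sign_sq, one_smul]

private theorem Twist_T2 {n : ℕ} (f : QV n) :
    T2 (qrho n) (univ : Finset (Fin n)) (sgnm n f) = -(sgnm n (T2 (qrho n) (univ : Finset (Fin n)) f)) := by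
  rw [quad_T2_apply, quad_T2_apply, map_sum, ← Finset.sum_neg_distrib]
  refine Finset.sum_congr rfl fun x _ => ?_
  rw [map_sum, ← Finset.sum_neg_distrib]
  refine Finset.sum_congr rfl fun y hy => ?_
  have hxy : x ≠ y := fun h => (Finset.mem_erase.1 hy).1 h.symm
  rw [Twist_qrho, Perm.sign_swap hxy]
  simp

private theorem Twist_sign {n : ℕ} (q g : Perm (Fin n)) : Perm.sign (g⁻¹ * q * g) = Perm.sign q := by
  rw [Perm.sign_mul, Perm.sign_mul, Perm.sign_inv, mul_right_comm, Int.units_mul_self, one_mul]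

private theorem Twist_KO {n : ℕ} (q : Perm (Fin n)) (f : QV n) :
    KO q (sgnm n f) = ((Perm.sign q : ℤ) : ℝ) • sgnm n (KO q f) := by
  rw [KO_apply, KO_apply, map_sum, Finset.smul_sum]
  refine Finset.sum_congr rfl fun g _ => ?_
  rw [Twist_qrho, Twist_sign]

theorem sit_twist {n : ℕ} {q : Perm (Fin n)} {E : Submodule ℝ (QV n)} {τ κ : ℝ} {a : ℕ}
    (h : Sit q E τ κ a) :
    ∃ b, Sit q (E.map (sgnm n)) (-τ) (((Perm.sign q : ℤ) : ℝ) * κ) b := by
  have hne : E.map (sgnm n) ≠ ⊥ := by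
    obtain ⟨_, _, v, hv, hv0, _⟩ := h.ex
    intro hbot
    have h1 : sgnm n v ∈ E.map (sgnm n) := Submodule.mem_map_of_mem hv
    rw [hbot, Submodule.mem_bot] at h1
    apply hv0
    rw [← sgnm_sgnm v, h1, map_zero]
  obtain ⟨A, _, hex, hmax⟩ := exists_max (univ : Finset (Fin n)) (E.map (sgnm n)) hne
  refine ⟨A.card, ⟨?_, hmax, ⟨A, rfl, hex⟩, ?_, ?_⟩⟩
  · intro x hx y hy w hw
    obtain ⟨f, hf, rfl⟩ := Submodule.mem_map.1 hw
    rw [Twist_qrho]
    exact Submodule.smul_mem _ _ (Submodule.mem_map_of_mem (h.inv x hx y hy f hf))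
  · intro v hv
    obtain ⟨f, hf, rfl⟩ := Submodule.mem_map.1 hv
    rw [Twist_T2, h.t2 f hf, map_smul, neg_smul]
  · intro v hv
    obtain ⟨f, hf, rfl⟩ := Submodule.mem_map.1 hv
    rw [Twist_KO, h.ko f hf, map_smul, smul_smul]
    congr 1
    ring

end Pool.H60.TA
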