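import Pool.Agent.H60.TA.Rect
import Pool.Agent.H60.TA.Twist
import Pool.Agent.H60.TA.Tau
import Pool.Agent.H60.TA.Beta1
import Pool.Agent.H60.TA.Beta2
import Pool.Agent.H60.TA.NumA
import Pool.Agent.H60.TA.NumB

set_option autoImplicit false

/-!
# Top scale, all `n`: the inequality for a joint eigenspace
-/

open Finset Equiv Pool.H98.BE Pool.H60.TP
open scoped InnerProductSpace

namespace Pool.H60.TA

private theorem star_mul {n : ℕ} (hn : 100 ≤ n) {κ k β : ℝ} (hk : k = |κ|) (h : k ≤ β) :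
    2 * ((n : ℝ) - 1) * ((n : ℝ) - 2) * κ ≤ 2 * ((n : ℝ) - 1) * ((n : ℝ) - 2) * β := by
  have hn' : (100 : ℝ) ≤ n := by exact_mod_cast hn
  have h1 : κ ≤ β := (le_abs_self κ).trans (hk ▸ h)
  exact mul_le_mul_of_nonneg_left h1
    (mul_nonneg (mul_nonneg (by norm_num) (by linarith)) (by linarith))

/-- the bounds for a set of at most half of the points -/
private theorem star_half {n : ℕ} (hn : 100 ≤ n) {q : Perm (Fin n)} (hq : NoShort q 2)
    {E : Submodule ℝ (QV n)} {τ' κ' : ℝ} {r : ℕ} (h : Sit q E τ' κ' r) (hr : n ≤ r * r)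
    (h2 : 2 * r ≤ n) {κ : ℝ} (hk : |κ'| = |κ|) :
    2 * ((n : ℝ) - 1) * ((n : ℝ) - 2) * κ
      ≤ ((n : ℝ) - 1) * ((n : ℝ) - 4) - (n : ℝ) * ((r : ℝ) - 1) := by
  have h4 : 4 ≤ r := by nlinarith
  rcases Nat.lt_or_ge n (3 * r) with h3 | h3
  · exact (star_mul hn hk (beta_mid hq h h4 h2)).trans (num_mid hn h3 h2)
  · exact (star_mul hn hk (beta_small hq h h4 h2)).trans (num_small hn hr h3)

theorem star {n : ℕ} (hn : 100 ≤ n) {q : Perm (Fin n)} (hq : NoShort q 2)
    {E : Submodule ℝ (QV n)} {τ κ : ℝ} {a : ℕ} (h : Sit q E τ κ a) (ha : a + 3 ≤ n) :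
    τ + 2 * ((n : ℝ) - 1) * ((n : ℝ) - 2) * κ ≤ ((n : ℝ) - 1) * ((n : ℝ) - 4) := by
  have hn' : (100 : ℝ) ≤ n := by exact_mod_cast hn
  obtain ⟨b, h'⟩ := sit_twist h
  have hE0 : E ≠ ⊥ := by
    rintro rfl
    obtain ⟨A, _, v, hv, hv0, _⟩ := h.ex
    exact hv0 ((Submodule.mem_bot ℝ).1 hv)
  have hab : n ≤ a * b := rect h.inv hE0 h.max h'.max
  have hbn : b ≤ n := by
    obtain ⟨B, hB, _⟩ := h'.ex
    rw [← hB]
    exact (Finset.card_le_univ B).trans (by rw [Fintype.card_fin])
  have hk' : |((Perm.sign q : ℤ) : ℝ) * κ| = |κ| := by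
    rw [abs_mul]
    rcases Int.units_eq_one_or (Perm.sign q) with h1 | h1 <;> rw [h1] <;> norm_num
  rcases Nat.lt_or_ge a b with hlt | hge
  · -- the sign side
    have hr : n ≤ b * b := hab.trans (Nat.mul_le_mul_right _ hlt.le)
    rcases Nat.lt_or_ge n (2 * b) with h2 | h2
    · have ht := le_tau h'
      rcases Nat.lt_or_ge b n with h3 | h3
      · have h4 := star_mul hn hk' (beta_large' hq h' h3 (by omega) h2)
        have h5 := num_twist hn h2 h3
        linarith
      · have hb : b = n := le_antisymm hbn h3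
        subst hb
        have h4 := star_mul hn hk' (kappa_le_one h')
        nlinarith
    · have h3 := star_half hn hq h' hr h2 hk'
      have h4 := tau_le' h
      have h5 : (n : ℝ) * ((a : ℝ) - 1) ≤ (n : ℝ) * ((b : ℝ) - 1) := by
        have : (a : ℝ) ≤ b := by exact_mod_cast hlt.le
        exact mul_le_mul_of_nonneg_left (by linarith) (by linarith)
      linarith
  · have hr : n ≤ a * a := hab.trans (Nat.mul_le_mul_left _ hge)
    rcases Nat.lt_or_ge n (2 * a) with h2 | h2
    · have ht := tau_le h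
      rcases Nat.lt_or_ge n (a + 4) with h3 | h3
      · have h4 := star_mul hn rfl (beta_three hq h (by omega) (by omega))
        have h5 := num_three (a := a) hn (by omega)
        linarith
      · have h4 := star_mul hn rfl (beta_large hq h h3 h2)
        have h5 := num_large hn h2 h3
        linarith
    · have h3 := star_half hn hq h hr h2 rfl
      have h4 := tau_le' h
      linarith

end Pool.H60.TA
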