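import Pool.Agent.H60.TA.Exact
import Pool.Agent.H60.TA.Split
import Pool.Agent.H98.TA.Tau

set_option autoImplicit false

/-!
# Top scale, all `n`: upper bound of the sum of the transpositions
-/

open Finset Equiv Pool.H98.BE Pool.H60.TP
open scoped InnerProductSpace

namespace Pool.H60.TA

theorem T2_le_of_max {n : ℕ} (S : Finset (Fin n)) (U : Submodule ℝ (QV n)) (a : ℕ)
    (hU : InvS S U) (hm : MaxS S U a) (w : QV n) (hw : w ∈ U) :
    ⟪T2 (qrho n) S w, w⟫_ℝ ≤ (S.card : ℝ) * ((a : ℝ) - 1) * ⟪w, w⟫_ℝ := by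
  refine Pool.H98.TA.T2_le (ρ := qrho n) qrho_inner S.card S rfl U hU a ?_ w hw
  intro B hBS hB v hv hf
  by_contra hv0
  have h1 := hm B hBS v hv hv0 hf
  omega

end Pool.H60.TA
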